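import Pool.Agent.MP_b34510_co.SQ.Defs

set_option autoImplicit false

open Finset Classical

namespace Pool.Agent.MP_b34510_co

theorem a1_cubic (p : ℕ) [Fact p.Prime] (c0 c1 c2 c3 : ZMod p)
    (h : ¬ (c0 = 0 ∧ c1 = 0 ∧ c2 = 0 ∧ c3 = 0)) :
    (Finset.univ.filter fun a : ZMod p => c0 + c1 * a + c2 * a ^ 2 + c3 * a ^ 3 = 0).card ≤ 3 := by
  set q : Polynomial (ZMod p) := Polynomial.C c0 + Polynomial.C c1 * Polynomial.X +
    Polynomial.C c2 * Polynomial.X ^ 2 + Polynomial.C c3 * Polynomial.X ^ 3 with hq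
  have hq0 : q ≠ 0 := by
    intro h0
    apply h
    have e0 : q.coeff 0 = 0 := by rw [h0]; simp
    have e1 : q.coeff 1 = 0 := by rw [h0]; simp
    have e2 : q.coeff 2 = 0 := by rw [h0]; simp
    have e3 : q.coeff 3 = 0 := by rw [h0]; simp
    refine ⟨?_, ?_, ?_, ?_⟩
    · simpa [hq, Polynomial.coeff_X, Polynomial.coeff_C] using e0
    · simpa [hq, Polynomial.coeff_X, Polynomial.coeff_C, Polynomial.coeff_X_pow] using e1
    · simpa [hq, Polynomial.coeff_X, Polynomial.coeff_C, Polynomial.coeff_X_pow] using e2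
    · simpa [hq, Polynomial.coeff_X, Polynomial.coeff_C, Polynomial.coeff_X_pow] using e3
  have hdeg : q.natDegree ≤ 3 := by rw [hq]; compute_degree
  have hsub : (Finset.univ.filter fun a : ZMod p => c0 + c1 * a + c2 * a ^ 2 + c3 * a ^ 3 = 0) ⊆
      q.roots.toFinset := by
    intro a ha
    rw [Finset.mem_filter] at ha
    rw [Multiset.mem_toFinset, Polynomial.mem_roots hq0, Polynomial.IsRoot.def, hq]
    simpa using ha.2
  calc _ ≤ q.roots.toFinset.card := Finset.card_le_card hsub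
    _ ≤ Multiset.card q.roots := Multiset.toFinset_card_le _
    _ ≤ q.natDegree := Polynomial.card_roots' q
    _ ≤ 3 := hdeg

theorem a1_cast_zero {p : ℕ} {z : ℤ} (h : ((z : ℤ) : ZMod p) = 0) (hz : |z| < p) : z = 0 := by
  rw [ZMod.intCast_zmod_eq_zero_iff_dvd] at h
  exact Int.eq_zero_of_abs_lt_dvd h hz

theorem a1_sum4 {p : ℕ} (k : Fin 4 → ℤ) (a b c d : ZMod p) :
    ∑ j, ((k j : ℤ) : ZMod p) * (![a, b, c, d] : Fin 4 → ZMod p) j =
      (k 0 : ZMod p) * a + (k 1 : ZMod p) * b + (k 2 : ZMod p) * c + (k 3 : ZMod p) * d := by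
  rw [Fin.sum_univ_four]
  rfl

theorem a1_indep_not {p K : ℕ} {c : Fin 4 → ZMod p} (h : ¬ Indep K c) :
    ∃ k ∈ (Fintype.piFinset (fun _ : Fin 4 => Finset.Icc (-(K : ℤ)) K)).filter
      (fun k => ∃ j, k j ≠ 0), ∑ j, ((k j : ℤ) : ZMod p) * c j = 0 := by
  unfold Indep at h
  push Not at h
  obtain ⟨k, hk, hne, h0⟩ := h
  refine ⟨k, ?_, h0⟩
  rw [Finset.mem_filter, Fintype.mem_piFinset]
  refine ⟨fun j => ?_, hne⟩
  rw [Finset.mem_Icc]
  exact abs_le.1 (hk j)

/-- All but boundedly many multipliers are generic.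
Proof: take `N = 3 + 6 (2K+1)^4 + (4K + 4)`; for `p ≤ 4K + 4` trivial.  Let `p > 4K + 4`, `a ≠ 0, 1, -1` not
generic.  Then there is `k ≠ 0`, `|k_j| ≤ K`, with `∑ k_j c_j = 0` for one of the two vectors; multiply by
`(1 - a)(1 + a)`: for the first vector `k₀ (a - a³) + k₁ (a + a²) + k₂ (a - a²) + k₃ (1 - a²) = 0`, for the
second one `k₀ (a - a³) + k₁ (1 - a²) + k₂ (1 + a) + k₃ (1 - a) = 0`.  As polynomials in `a` over `ZMod p` the
coefficients are `(k₃, k₀+k₁+k₂, k₁-k₂-k₃, -k₀)`, resp. `(k₁+k₂+k₃, k₀+k₂-k₃, -k₁, -k₀)` (constant term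
first); if all vanish modulo `p` then, `p` being larger than `4K`, `k = 0`.  So `a` is a root of one of at
most `2 (2K+1)^4` non-zero polynomials of degree at most `3`. -/
theorem card_not_gen (K : ℕ) : ∃ N : ℕ, ∀ p : ℕ, ∀ [Fact p.Prime],
    (Finset.univ.filter fun a : ZMod p => ¬ Gen K a).card ≤ N := by
  refine ⟨3 + 6 * (2 * K + 1) ^ 4 + (4 * K + 4), fun p hp => ?_⟩
  by_cases hpK : p ≤ 4 * K + 4
  · calc _ ≤ (Finset.univ : Finset (ZMod p)).card := Finset.card_le_card (Finset.filter_subset _ _)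
      _ = p := by rw [Finset.card_univ, ZMod.card]
      _ ≤ _ := by omega
  push Not at hpK
  set B : Finset (Fin 4 → ℤ) :=
    (Fintype.piFinset (fun _ : Fin 4 => Finset.Icc (-(K : ℤ)) K)).filter (fun k => ∃ j, k j ≠ 0)
    with hB
  have hBcard : B.card ≤ (2 * K + 1) ^ 4 := by
    calc B.card ≤ (Fintype.piFinset (fun _ : Fin 4 => Finset.Icc (-(K : ℤ)) K)).card :=
          Finset.card_le_card (Finset.filter_subset _ _)
      _ = (2 * K + 1) ^ 4 := by
          rw [Fintype.card_piFinset]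
          simp only [Int.card_Icc, Finset.prod_const, Finset.card_univ, Fintype.card_fin]
          congr 1
          omega
  let R1 : (Fin 4 → ℤ) → Finset (ZMod p) := fun k => Finset.univ.filter fun a : ZMod p =>
    ((k 3 : ℤ) : ZMod p) + ((k 0 + k 1 + k 2 : ℤ) : ZMod p) * a +
      ((k 1 - k 2 - k 3 : ℤ) : ZMod p) * a ^ 2 + ((-k 0 : ℤ) : ZMod p) * a ^ 3 = 0
  let R2 : (Fin 4 → ℤ) → Finset (ZMod p) := fun k => Finset.univ.filter fun a : ZMod p =>
    ((k 1 + k 2 + k 3 : ℤ) : ZMod p) + ((k 0 + k 2 - k 3 : ℤ) : ZMod p) * a +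
      ((-k 1 : ℤ) : ZMod p) * a ^ 2 + ((-k 0 : ℤ) : ZMod p) * a ^ 3 = 0
  have hbd : ∀ k ∈ B, (∀ j, |k j| ≤ (K : ℤ)) ∧ ∃ j, k j ≠ 0 := by
    intro k hk
    rw [hB, Finset.mem_filter, Fintype.mem_piFinset] at hk
    refine ⟨fun j => ?_, hk.2⟩
    have := hk.1 j
    rw [Finset.mem_Icc] at this
    exact abs_le.2 this
  have hpZ : (4 * K + 4 : ℤ) < p := by exact_mod_cast hpK
  have hR1 : ∀ k ∈ B, (R1 k).card ≤ 3 := by
    intro k hk
    obtain ⟨hk1, j, hj⟩ := hbd k hk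
    apply a1_cubic
    rintro ⟨h0, h1, h2, h3⟩
    have b0 := abs_le.1 (hk1 0)
    have b1 := abs_le.1 (hk1 1)
    have b2 := abs_le.1 (hk1 2)
    have b3 := abs_le.1 (hk1 3)
    have g3 : k 3 = 0 := a1_cast_zero h0 (by rw [abs_lt]; constructor <;> linarith [b3.1, b3.2])
    have g0 : -k 0 = 0 := a1_cast_zero h3 (by rw [abs_lt]; constructor <;> linarith [b0.1, b0.2])
    have g1 : k 0 + k 1 + k 2 = 0 := a1_cast_zero h1
      (by rw [abs_lt]; constructor <;> linarith [b0.1, b0.2, b1.1, b1.2, b2.1, b2.2])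
    have g2 : k 1 - k 2 - k 3 = 0 := a1_cast_zero h2
      (by rw [abs_lt]; constructor <;> linarith [b3.1, b3.2, b1.1, b1.2, b2.1, b2.2])
    apply hj
    fin_cases j <;> simp <;> omega
  have hR2 : ∀ k ∈ B, (R2 k).card ≤ 3 := by
    intro k hk
    obtain ⟨hk1, j, hj⟩ := hbd k hk
    apply a1_cubic
    rintro ⟨h0, h1, h2, h3⟩
    have b0 := abs_le.1 (hk1 0)
    have b1 := abs_le.1 (hk1 1)
    have b2 := abs_le.1 (hk1 2)
    have b3 := abs_le.1 (hk1 3)
    have g1 : -k 1 = 0 := a1_cast_zero h2 (by rw [abs_lt]; constructor <;> linarith [b1.1, b1.2])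
    have g0 : -k 0 = 0 := a1_cast_zero h3 (by rw [abs_lt]; constructor <;> linarith [b0.1, b0.2])
    have g2 : k 1 + k 2 + k 3 = 0 := a1_cast_zero h0
      (by rw [abs_lt]; constructor <;> linarith [b3.1, b3.2, b1.1, b1.2, b2.1, b2.2])
    have g3 : k 0 + k 2 - k 3 = 0 := a1_cast_zero h1
      (by rw [abs_lt]; constructor <;> linarith [b3.1, b3.2, b0.1, b0.2, b2.1, b2.2])
    apply hj
    fin_cases j <;> simp <;> omega
  have hsub : (Finset.univ.filter fun a : ZMod p => ¬ Gen K a) ⊆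
      ({0, 1, -1} : Finset (ZMod p)) ∪ (B.biUnion R1 ∪ B.biUnion R2) := by
    intro a ha
    rw [Finset.mem_filter] at ha
    rw [Finset.mem_union, Finset.mem_union]
    by_cases e0 : a = 0
    · left; simp [e0]
    by_cases e1 : a = 1
    · left; simp [e1]
    by_cases e2 : a = -1
    · left; simp [e2]
    right
    have n1 : (1 - a) ≠ 0 := fun h => e1 (by linear_combination -h)
    have n2 : (1 + a) ≠ 0 := fun h => e2 (by linear_combination h)
    by_cases i1 : Indep K ![a, a * (1 - a)⁻¹, a * (1 + a)⁻¹, 1]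
    · have i2 : ¬ Indep K ![a, 1, (1 - a)⁻¹, (1 + a)⁻¹] := fun i2 => ha.2 ⟨e0, e1, e2, i1, i2⟩
      right
      obtain ⟨k, hk, hs⟩ := a1_indep_not i2
      rw [Finset.mem_biUnion]
      refine ⟨k, hk, ?_⟩
      simp only [R2, Finset.mem_filter, Finset.mem_univ, true_and]
      rw [a1_sum4] at hs
      push_cast
      have m1 : (1 - a) * (1 - a)⁻¹ = 1 := mul_inv_cancel₀ n1
      have m2 : (1 + a) * (1 + a)⁻¹ = 1 := mul_inv_cancel₀ n2
      linear_combination (1 - a) * (1 + a) * hs - (k 2 : ZMod p) * (1 + a) * m1 -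
        (k 3 : ZMod p) * (1 - a) * m2
    · left
      obtain ⟨k, hk, hs⟩ := a1_indep_not i1
      rw [Finset.mem_biUnion]
      refine ⟨k, hk, ?_⟩
      simp only [R1, Finset.mem_filter, Finset.mem_univ, true_and]
      rw [a1_sum4] at hs
      push_cast
      have m1 : (1 - a) * (1 - a)⁻¹ = 1 := mul_inv_cancel₀ n1
      have m2 : (1 + a) * (1 + a)⁻¹ = 1 := mul_inv_cancel₀ n2
      linear_combination (1 - a) * (1 + a) * hs - (k 1 : ZMod p) * a * (1 + a) * m1 -
        (k 2 : ZMod p) * a * (1 - a) * m2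
  calc _ ≤ (({0, 1, -1} : Finset (ZMod p)) ∪ (B.biUnion R1 ∪ B.biUnion R2)).card :=
        Finset.card_le_card hsub
    _ ≤ ({0, 1, -1} : Finset (ZMod p)).card + (B.biUnion R1 ∪ B.biUnion R2).card :=
        Finset.card_union_le _ _
    _ ≤ 3 + ((B.biUnion R1).card + (B.biUnion R2).card) := by
        gcongr
        · exact Finset.card_le_three
        · exact Finset.card_union_le _ _
    _ ≤ 3 + (B.card * 3 + B.card * 3) := by
        gcongr
        · exact Finset.card_biUnion_le_card_mul _ _ _ hR1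
        · exact Finset.card_biUnion_le_card_mul _ _ _ hR2
    _ ≤ _ := by nlinarith [hBcard]

end Pool.Agent.MP_b34510_co
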