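import Pool.Agent.MP_b34510_co.SQ.Defs

set_option autoImplicit false

namespace Pool.Agent.MP_b34510_co

theorem F1_core {p : ℕ} (hp : 0 < p) {i j : ℤ} (hi0 : 0 ≤ i) (hip : i < p) (hj0 : 0 ≤ j) (hjp : j < p)
    {e ρ : ℝ} (hρ : ρ = (i : ℝ) / p) (he : e = ((i : ℝ) - j) / p ∨ e = ((i : ℝ) + j) / p - 1) :
    ¬ Arc e ρ := by
  rintro ⟨k, hk⟩
  have hp' : (0 : ℝ) < p := by exact_mod_cast hp
  have hpz : (0 : ℤ) < p := by exact_mod_cast hp
  have e1 : ρ * p = i := by
    rw [hρ, div_mul_cancel₀ _ hp'.ne']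
  have e2 : e * p = (i : ℝ) - j ∨ e * p = (i : ℝ) + j - p := by
    rcases he with he | he
    · left
      rw [he, div_mul_cancel₀ _ hp'.ne']
    · right
      rw [he, sub_mul, div_mul_cancel₀ _ hp'.ne', one_mul]
  have e3 : (ρ - k) * p = (i : ℝ) - k * p := by rw [sub_mul, e1]
  rcases hk with ⟨ha, hb⟩ | ⟨ha, hb⟩
  · have h1 : 0 < (ρ - k) * p := mul_pos ha hp'
    have h2 : (ρ - k) * p < e * p := mul_lt_mul_of_pos_right hb hp'
    rw [e3] at h1 h2
    have h1' : k * (p : ℤ) < i := by
      have : (k : ℝ) * p < i := by linarith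
      exact_mod_cast this
    have h3 : 0 < k * (p : ℤ) := by
      rcases e2 with e2 | e2
      · rw [e2] at h2
        have : (j : ℝ) < k * p := by linarith
        have : j < k * (p : ℤ) := by exact_mod_cast this
        omega
      · rw [e2] at h2
        have : (p : ℝ) - j < k * p := by linarith
        have : (p : ℤ) - j < k * (p : ℤ) := by exact_mod_cast this
        omega
    have h4 : 0 < k := by
      by_contra h
      push Not at h
      have := mul_nonpos_of_nonpos_of_nonneg h hpz.le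
      omega
    have h5 : (p : ℤ) ≤ k * p := by
      have := mul_le_mul_of_nonneg_right (show (1 : ℤ) ≤ k by omega) hpz.le
      omega
    omega
  · have h1 : (ρ - k) * p < 0 := mul_neg_of_neg_of_pos hb hp'
    have h2 : e * p < (ρ - k) * p := mul_lt_mul_of_pos_right ha hp'
    rw [e3] at h1 h2
    have h1' : i < k * (p : ℤ) := by
      have : (i : ℝ) < k * p := by linarith
      exact_mod_cast this
    have h3 : k * (p : ℤ) < p := by
      rcases e2 with e2 | e2
      · rw [e2] at h2
        have : (k : ℝ) * p < j := by linarith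
        have : k * (p : ℤ) < j := by exact_mod_cast this
        omega
      · rw [e2] at h2
        have : (k : ℝ) * p < p - j := by linarith
        have : k * (p : ℤ) < (p : ℤ) - j := by exact_mod_cast this
        omega
    have h4 : k < 1 := by
      by_contra h
      push Not at h
      have := mul_le_mul_of_nonneg_right h hpz.le
      omega
    have h5 := mul_nonpos_of_nonpos_of_nonneg (show k ≤ 0 by omega) hpz.le
    omega

theorem F1_neg {p : ℕ} [Fact p.Prime] {w : ZMod p} (hw : w ≠ 0) : ((-w).val : ℤ) = p - w.val := by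
  rw [ZMod.neg_val, if_neg hw, Nat.cast_sub (ZMod.val_lt w).le]

/-- Criterion for a square to be free with respect to the line of slope `a`.
Proof: let `i ≠ 0`, `j = a i`.  If `idiff (i, a i) = idiff (u, v)`, then `i - a i = u - v` in `ZMod p`, so
`i = (u - v) / (1 - a)`, and `(i.val : ℤ) - j.val = u.val - v.val`.  In `h1` let `e = fr u - fr v`, `|e| < 1`
(`u.val, v.val` are in `[1, p - 1]`), `fr i ∈ [0, 1)`.  If `0 < fr i - k < e` then `k = 0` and
`i.val < u.val - v.val = i.val - j.val`, impossible.  If `e < fr i - k < 0` then `k = 1` (as `e > -1`) and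
`i.val - p > u.val - v.val = i.val - j.val`, so `j.val > p`, impossible.  If `isum (i, a i) = isum (u, v)`,
then `i = (u + v) / (1 + a)`; `e = fr u + fr v - 1 ∈ (-1, 1)`; if `0 < fr i - k < e` then `k = 0`,
`i.val < u.val + v.val - p = i.val + j.val - p`, so `j.val > p`, impossible; if `e < fr i - k < 0` then
`k = 1`, `i.val - p > u.val + v.val - p = i.val + j.val - p`, impossible. -/
theorem free_of_arc {p : ℕ} [Fact p.Prime] {a u v : ZMod p} (ha1 : a ≠ 1) (ha2 : a ≠ -1) (hu : u ≠ 0)
    (hv : v ≠ 0) (h1 : Arc (fr u - fr v) (fr ((u - v) * (1 - a)⁻¹)))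
    (h2 : Arc (fr u + fr v - 1) (fr ((u + v) * (1 + a)⁻¹))) : Free a (u, v) := by
  intro i _
  have hp : 0 < p := (Fact.out : p.Prime).pos
  have hii : ((i.val : ℤ)) < p := by exact_mod_cast ZMod.val_lt i
  have hjj : (((a * i).val : ℤ)) < p := by exact_mod_cast ZMod.val_lt (a * i)
  have ha : (1 : ZMod p) - a ≠ 0 := fun h => ha1 (sub_eq_zero.1 h).symm
  have hb : (1 : ZMod p) + a ≠ 0 := fun h => ha2 (eq_neg_of_add_eq_zero_right h)
  constructor
  · intro h
    change ((i.val : ℤ)) - ((a * i).val : ℤ) = (u.val : ℤ) - (v.val : ℤ) at h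
    have hz : ((((i.val : ℤ)) - ((a * i).val : ℤ) : ℤ) : ZMod p) =
        (((u.val : ℤ) - (v.val : ℤ) : ℤ) : ZMod p) := by rw [h]
    push_cast at hz
    rw [ZMod.natCast_zmod_val, ZMod.natCast_zmod_val, ZMod.natCast_zmod_val, ZMod.natCast_zmod_val] at hz
    have hi : (u - v) * (1 - a)⁻¹ = i := by
      rw [← hz]
      have : i - a * i = i * (1 - a) := by ring
      rw [this, mul_assoc, mul_inv_cancel₀ ha, mul_one]
    rw [hi] at h1
    refine F1_core hp (Int.natCast_nonneg i.val) hii (Int.natCast_nonneg (a * i).val) hjj (ρ := fr i) ?_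
      (Or.inl ?_) h1
    · unfold fr
      rw [Int.cast_natCast]
    · unfold fr
      have hR : ((i.val : ℝ)) - ((a * i).val : ℝ) = (u.val : ℝ) - (v.val : ℝ) := by exact_mod_cast h
      rw [← sub_div, ← hR, Int.cast_natCast, Int.cast_natCast]
  · intro h
    change ((i.val : ℤ)) + ((a * i).val : ℤ) = (u.val : ℤ) + (v.val : ℤ) at h
    have hz : ((((i.val : ℤ)) + ((a * i).val : ℤ) : ℤ) : ZMod p) =
        (((u.val : ℤ) + (v.val : ℤ) : ℤ) : ZMod p) := by rw [h]
    push_cast at hz
    rw [ZMod.natCast_zmod_val, ZMod.natCast_zmod_val, ZMod.natCast_zmod_val, ZMod.natCast_zmod_val] at hz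
    have hi : (u + v) * (1 + a)⁻¹ = i := by
      rw [← hz]
      have : i + a * i = i * (1 + a) := by ring
      rw [this, mul_assoc, mul_inv_cancel₀ hb, mul_one]
    rw [hi] at h2
    refine F1_core hp (Int.natCast_nonneg i.val) hii (Int.natCast_nonneg (a * i).val) hjj (ρ := fr i) ?_
      (Or.inr ?_) h2
    · unfold fr
      rw [Int.cast_natCast]
    · unfold fr
      have hR : ((i.val : ℝ)) + ((a * i).val : ℝ) = (u.val : ℝ) + (v.val : ℝ) := by exact_mod_cast h
      rw [← add_div, ← hR, Int.cast_natCast, Int.cast_natCast]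

/-- A free square stays free under the half-turn.
Proof: for `i ≠ 0` and `w ≠ 0`: `(-w).val = p - w.val`.  Here `s.1 ≠ 0`, `s.2 ≠ 0`, so `idiff (-s) = - idiff s`
and `isum (-s) = 2 p - isum s`; if `a ≠ 0` the same for the square `(i, a i)`; apply the hypothesis to `-i`. -/
theorem free_neg {p : ℕ} [Fact p.Prime] {a : ZMod p} (ha : a ≠ 0) {s : ZMod p × ZMod p} (h1 : s.1 ≠ 0)
    (h2 : s.2 ≠ 0) (h : Free a s) : Free a (-s) := by
  intro i hi
  have h3 := h (-i) (neg_ne_zero.2 hi)
  have e1 := F1_neg hi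
  have e2 := F1_neg (mul_ne_zero ha hi)
  have e3 := F1_neg h1
  have e4 := F1_neg h2
  have h4 : ((-i).val : ℤ) - ((-(a * i)).val : ℤ) ≠ (s.1.val : ℤ) - (s.2.val : ℤ) := by
    rw [← mul_neg]
    exact h3.1
  have h5 : ((-i).val : ℤ) + ((-(a * i)).val : ℤ) ≠ (s.1.val : ℤ) + (s.2.val : ℤ) := by
    rw [← mul_neg]
    exact h3.2
  constructor
  · change ((i.val : ℤ)) - ((a * i).val : ℤ) ≠ ((-s.1).val : ℤ) - ((-s.2).val : ℤ)
    omega
  · change ((i.val : ℤ)) + ((a * i).val : ℤ) ≠ ((-s.1).val : ℤ) + ((-s.2).val : ℤ)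
    omega

end Pool.Agent.MP_b34510_co
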