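import Pool.Agent.MP_b34510_co.SQ.PR
import Pool.Agent.MP_b34510_co.SQ.F1

set_option autoImplicit false

open Finset Classical

namespace Pool.Agent.MP_b34510_co

/-- The new squares of the pattern of slope `a`. -/
noncomputable def newSq {p : ℕ} [Fact p.Prime] (M : ℕ) (a : ZMod p) (Y : ZMod p → ZMod p)
    (f : ZMod p → ZMod p × ZMod p) : Finset (ZMod p × ZMod p) :=
  (TT M a).biUnion fun x => (Finset.univ : Finset (Fin 3)).biUnion fun j =>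
    {nsq a x (Y x) (f x) j, -nsq a x (Y x) (f x) j}

/-- The rows of the line of slope `a` that are kept. -/
noncomputable def keep {p : ℕ} [Fact p.Prime] (M : ℕ) (a : ZMod p)
    (f : ZMod p → ZMod p × ZMod p) : Finset (ZMod p) :=
  Finset.univ.filter fun i => (InB M i ∧ InB M (a * i)) ∧
    ∀ x ∈ TT M a, i ≠ (f x).1 ∧ i ≠ -(f x).1 ∧ i ≠ (f x).2 ∧ i ≠ -(f x).2

/-- The pattern of slope `a`. -/
noncomputable def pat {p : ℕ} [Fact p.Prime] (M : ℕ) (a : ZMod p) (Y : ZMod p → ZMod p)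
    (f : ZMod p → ZMod p × ZMod p) : Finset (ZMod p × ZMod p) :=
  (keep M a f).image (fun i => (i, a * i)) ∪ newSq M a Y f

/-- All hypotheses on the data of one slope. -/
structure Data {p : ℕ} [Fact p.Prime] (M : ℕ) (a : ZMod p) (Y : ZMod p → ZMod p)
    (f : ZMod p → ZMod p × ZMod p) : Prop where
  hp : 2 < p
  hM : 2 * M + 1 ≤ p
  a0 : a ≠ 0
  a1 : a ≠ 1
  a2 : a ≠ -1
  Y1 : ∀ x ∈ TT M a, Y x ∈ CC M a
  Y2 : ∀ x ∈ TT M a, ∀ x' ∈ TT M a, Y x = Y x' → x = x'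
  Y3 : ∀ v ∈ CC M a, ∃ x ∈ TT M a, Y x = v
  adm : ∀ x ∈ TT M a, Adm M a x (Y x) (f x)
  free : ∀ x ∈ TT M a, ∀ j, Free a (nsq a x (Y x) (f x) j)
  nz : ∀ x ∈ TT M a, ∀ j, mdiff (nsq a x (Y x) (f x) j) ≠ 0 ∧ msum (nsq a x (Y x) (f x) j) ≠ 0
  conf : ∀ x ∈ TT M a, ∀ x' ∈ TT M a, x ≠ x' → ¬ Conf a x (Y x) (f x) a x' (Y x') (f x')

end Pool.Agent.MP_b34510_co
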