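import Pool.Agent.MP_b34510_co.SQ.AS0

set_option autoImplicit false

open Finset Classical

namespace Pool.Agent.MP_b34510_co

private theorem as1_mem {p : ℕ} [Fact p.Prime] {M : ℕ} {a : ZMod p} {Y : ZMod p → ZMod p}
    {f : ZMod p → ZMod p × ZMod p} (s : ZMod p × ZMod p) : s ∈ pat M a Y f ↔
      (∃ i ∈ keep M a f, s = (i, a * i)) ∨
      ∃ x ∈ TT M a, ∃ j : Fin 3, s = nsq a x (Y x) (f x) j ∨ s = -nsq a x (Y x) (f x) j := by
  unfold pat newSq
  rw [mem_union, mem_image, mem_biUnion]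
  constructor
  · rintro (⟨i, hi, rfl⟩ | ⟨x, hx, hs⟩)
    · exact Or.inl ⟨i, hi, rfl⟩
    · rw [mem_biUnion] at hs
      obtain ⟨j, _, hj⟩ := hs
      rw [mem_insert, mem_singleton] at hj
      exact Or.inr ⟨x, hx, j, hj⟩
  · rintro (⟨i, hi, rfl⟩ | ⟨x, hx, j, hj⟩)
    · exact Or.inl ⟨i, hi, rfl⟩
    · refine Or.inr ⟨x, hx, ?_⟩
      rw [mem_biUnion]
      refine ⟨j, mem_univ _, ?_⟩
      rw [mem_insert, mem_singleton]
      exact hj

private theorem as1_keep {p : ℕ} [Fact p.Prime] {M : ℕ} {a : ZMod p}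
    {f : ZMod p → ZMod p × ZMod p} {i : ZMod p} (hi : i ∈ keep M a f) : -i ∈ keep M a f := by
  unfold keep at hi ⊢
  rw [mem_filter] at hi ⊢
  obtain ⟨_, ⟨h1, h2⟩, h3⟩ := hi
  refine ⟨mem_univ _, ⟨InB_neg.2 h1, ?_⟩, fun x hx => ?_⟩
  · rw [mul_neg]
    exact InB_neg.2 h2
  · obtain ⟨h4, h5, h6, h7⟩ := h3 x hx
    refine ⟨fun e => h5 ?_, fun e => h4 ?_, fun e => h7 ?_, fun e => h6 ?_⟩
    · rw [← e, neg_neg]
    · exact neg_injective e
    · rw [← e, neg_neg]
    · exact neg_injective e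

private theorem as1_nsq {p : ℕ} [Fact p.Prime] {M : ℕ} {a : ZMod p} {Y : ZMod p → ZMod p}
    {f : ZMod p → ZMod p × ZMod p} (h : Data M a Y f) {x : ZMod p} (hx : x ∈ TT M a) (j : Fin 3) :
    InB M (nsq a x (Y x) (f x) j).1 ∧ InB M (nsq a x (Y x) (f x) j).2 := by
  have h1 : InB M x := by
    unfold TT at hx
    rw [mem_filter] at hx
    exact hx.2.1
  have h2 : InB M (Y x) := by
    have h3 := h.Y1 x hx
    unfold CC at h3
    rw [mem_filter] at h3
    exact h3.2.1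
  obtain ⟨⟨a1, a2⟩, ⟨a3, a4⟩, -⟩ := h.adm x hx
  fin_cases j
  · exact ⟨h1, a2⟩
  · exact ⟨a1, a4⟩
  · exact ⟨a3, h2⟩

/-- All squares are on the board, and the pattern is invariant under the half-turn.
Proof: direct (`InB_neg`; the squares of `nsq` have coordinates `x, a s, s, a t, t, Y x`, all in the board by
`TT`, `CC`, `Adm`; `keep` is closed under negation). -/
theorem pat_board {p : ℕ} [Fact p.Prime] {M : ℕ} {a : ZMod p} {Y : ZMod p → ZMod p}
    {f : ZMod p → ZMod p × ZMod p} (h : Data M a Y f) :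
    (∀ s ∈ pat M a Y f, InB M s.1 ∧ InB M s.2) ∧ ∀ s ∈ pat M a Y f, -s ∈ pat M a Y f := by
  constructor
  · intro s hs
    rw [as1_mem] at hs
    rcases hs with ⟨i, hi, rfl⟩ | ⟨x, hx, j, rfl | rfl⟩
    · unfold keep at hi
      rw [mem_filter] at hi
      exact hi.2.1
    · exact as1_nsq h hx j
    · obtain ⟨h1, h2⟩ := as1_nsq h hx j
      exact ⟨InB_neg.2 h1, InB_neg.2 h2⟩
  · intro s hs
    rw [as1_mem] at hs ⊢
    rcases hs with ⟨i, hi, rfl⟩ | ⟨x, hx, j, rfl | rfl⟩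
    · refine Or.inl ⟨-i, as1_keep hi, ?_⟩
      rw [mul_neg]
      rfl
    · exact Or.inr ⟨x, hx, j, Or.inr rfl⟩
    · exact Or.inr ⟨x, hx, j, Or.inl (neg_neg _)⟩

/-- The pattern has a square in every row of the board.
Proof: let `InB M u`.  If `¬ InB M (a u)`: `u` or `-u` is in `TT M a` (`2 * val < p`), and `(x, a (f x).1)` or its
negative is a new square.  If `InB M (a u)`: either `u ∈ keep`, or `u` is one of `±(f x).1, ±(f x).2`, and the
squares `±((f x).1, a (f x).2)`, `±((f x).2, Y x)` are new. -/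
theorem pat_onto {p : ℕ} [Fact p.Prime] {M : ℕ} {a : ZMod p} {Y : ZMod p → ZMod p}
    {f : ZMod p → ZMod p × ZMod p} (h : Data M a Y f) (u : ZMod p) (hu : InB M u) :
    ∃ s ∈ pat M a Y f, s.1 = u := by
  by_cases ha : InB M (a * u)
  · by_cases hk : u ∈ keep M a f
    · exact ⟨(u, a * u), (as1_mem _).2 (Or.inl ⟨u, hk, rfl⟩), rfl⟩
    · unfold keep at hk
      rw [mem_filter] at hk
      have h1 : ¬ ∀ x ∈ TT M a, u ≠ (f x).1 ∧ u ≠ -(f x).1 ∧ u ≠ (f x).2 ∧ u ≠ -(f x).2 :=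
        fun h2 => hk ⟨mem_univ _, ⟨hu, ha⟩, h2⟩
      push Not at h1
      obtain ⟨x, hx, h2⟩ := h1
      by_cases e1 : u = (f x).1
      · exact ⟨nsq a x (Y x) (f x) 1, (as1_mem _).2 (Or.inr ⟨x, hx, 1, Or.inl rfl⟩), e1.symm⟩
      · by_cases e2 : u = -(f x).1
        · exact ⟨-nsq a x (Y x) (f x) 1, (as1_mem _).2 (Or.inr ⟨x, hx, 1, Or.inr rfl⟩), e2.symm⟩
        · by_cases e3 : u = (f x).2
          · exact ⟨nsq a x (Y x) (f x) 2, (as1_mem _).2 (Or.inr ⟨x, hx, 2, Or.inl rfl⟩), e3.symm⟩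
          · have e4 : u = -(f x).2 := h2 e1 e2 e3
            exact ⟨-nsq a x (Y x) (f x) 2, (as1_mem _).2 (Or.inr ⟨x, hx, 2, Or.inr rfl⟩), e4.symm⟩
  · by_cases h2 : 2 * u.val < p
    · have hx : u ∈ TT M a := by
        unfold TT
        rw [mem_filter]
        exact ⟨mem_univ _, hu, ha, h2⟩
      exact ⟨nsq a u (Y u) (f u) 0, (as1_mem _).2 (Or.inr ⟨u, hx, 0, Or.inl rfl⟩), rfl⟩
    · have hx : -u ∈ TT M a := by
        unfold TT
        rw [mem_filter]
        refine ⟨mem_univ _, InB_neg.2 hu, ?_, ?_⟩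
        · rw [mul_neg, InB_neg]
          exact ha
        · have hu0 : u ≠ 0 := by
            rintro rfl
            have := hu.1
            rw [ZMod.val_zero] at this
            exact Nat.not_lt_zero _ this
          have hne : NeZero u := ⟨hu0⟩
          rw [ZMod.val_neg_of_ne_zero u]
          have hp2 := h.hp
          have hodd : p % 2 = 1 := by
            rcases (Fact.out : p.Prime).eq_two_or_odd with h3 | h3
            · omega
            · exact h3
          have hlt := ZMod.val_lt u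
          omega
      refine ⟨-nsq a (-u) (Y (-u)) (f (-u)) 0,
        (as1_mem _).2 (Or.inr ⟨-u, hx, 0, Or.inr rfl⟩), ?_⟩
      show -(-u) = u
      rw [neg_neg]

end Pool.Agent.MP_b34510_co
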