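import Pool.Agent.MP_b34510_co.SQ.AS0

set_option autoImplicit false

open Finset Classical

namespace Pool.Agent.MP_b34510_co

theorem AS2_mem {p : ℕ} [Fact p.Prime] {M : ℕ} {a : ZMod p} {Y : ZMod p → ZMod p}
    {f : ZMod p → ZMod p × ZMod p} {s : ZMod p × ZMod p} (hs : s ∈ pat M a Y f) :
    (∃ i ∈ keep M a f, s = (i, a * i)) ∨
      ∃ x ∈ TT M a, ∃ j : Fin 3, s = nsq a x (Y x) (f x) j ∨ s = -nsq a x (Y x) (f x) j := by
  unfold pat newSq at hs
  rw [mem_union, mem_image, mem_biUnion] at hs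
  rcases hs with ⟨i, hi, rfl⟩ | ⟨x, hx, hs⟩
  · exact Or.inl ⟨i, hi, rfl⟩
  · rw [mem_biUnion] at hs
    obtain ⟨j, -, hs⟩ := hs
    rw [mem_insert, mem_singleton] at hs
    exact Or.inr ⟨x, hx, j, hs⟩

theorem AS2_nb {p : ℕ} [Fact p.Prime] {M : ℕ} {b u v : ZMod p} (hu : ¬ InB M (b * u))
    (hv : InB M (b * v)) (e : u = v ∨ u = -v) : False := by
  rcases e with e | e
  · rw [e] at hu
    exact hu hv
  · rw [e, mul_neg] at hu
    exact hu (InB_neg.2 hv)

theorem AS2_nz {p : ℕ} [Fact p.Prime] {M : ℕ} {u : ZMod p} (hu : InB M u) : u ≠ 0 := by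
  rintro rfl
  have := hu.1
  rw [ZMod.val_zero] at this
  exact Nat.not_lt_zero _ this

theorem AS2_half {p : ℕ} [Fact p.Prime] {u v : ZMod p} (hv0 : v ≠ 0)
    (hu : 2 * u.val < p) (hv : 2 * v.val < p) (e : u = -v) : False := by
  rw [e, ZMod.neg_val, if_neg hv0] at hu
  omega

theorem AS2_odd {p : ℕ} [Fact p.Prime] (hp : 2 < p) {u : ZMod p} (hu : u ≠ 0) : u ≠ -u := by
  intro e
  have h2 : (2 : ZMod p) ≠ 0 := by
    intro h
    have h3 : ((2 : ℕ) : ZMod p) = 0 := by exact_mod_cast h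
    rw [ZMod.natCast_eq_zero_iff] at h3
    have := Nat.le_of_dvd (by norm_num) h3
    omega
  have h4 : 2 * u = 0 := by
    rw [two_mul]
    nth_rewrite 1 [e]
    exact neg_add_cancel u
  rcases mul_eq_zero.1 h4 with h5 | h5
  · exact h2 h5
  · exact hu h5

theorem AS2_TT {p : ℕ} [Fact p.Prime] {M : ℕ} {a x : ZMod p} (hx : x ∈ TT M a) :
    InB M x ∧ ¬ InB M (a * x) ∧ 2 * x.val < p := by
  unfold TT at hx
  rw [mem_filter] at hx
  exact hx.2

theorem AS2_CC {p : ℕ} [Fact p.Prime] {M : ℕ} {a x : ZMod p} (hx : x ∈ CC M a) :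
    InB M x ∧ ¬ InB M (a⁻¹ * x) ∧ 2 * x.val < p := by
  unfold CC at hx
  rw [mem_filter] at hx
  exact hx.2

theorem AS2_keep {p : ℕ} [Fact p.Prime] {M : ℕ} {a : ZMod p}
    {f : ZMod p → ZMod p × ZMod p} {i : ZMod p} (hi : i ∈ keep M a f) : (InB M i ∧ InB M (a * i)) ∧
    ∀ x ∈ TT M a, i ≠ (f x).1 ∧ i ≠ -(f x).1 ∧ i ≠ (f x).2 ∧ i ≠ -(f x).2 := by
  unfold keep at hi
  rw [mem_filter] at hi
  exact hi.2

theorem AS2_flip {p : ℕ} {u v : ZMod p} (e : u = v ∨ u = -v) : v = u ∨ v = -u := by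
  rcases e with e | e
  · exact Or.inl e.symm
  · right
    rw [e, neg_neg]

theorem AS2_core {p : ℕ} [Fact p.Prime] {M : ℕ} {a : ZMod p} {Y : ZMod p → ZMod p}
    {f : ZMod p → ZMod p × ZMod p} (h : Data M a Y f) {x x' : ZMod p} (hx : x ∈ TT M a) (hx' : x' ∈ TT M a)
    (k k' : Bool) (e : (if k then (f x).2 else (f x).1) = (if k' then (f x').2 else (f x').1) ∨
      (if k then (f x).2 else (f x).1) = -(if k' then (f x').2 else (f x').1)) : x = x' ∧ k = k' := by
  by_cases hxx : x = x'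
  · refine ⟨hxx, ?_⟩
    subst hxx
    have h1 := (h.adm x hx).2.2.1
    have h2 := (h.adm x hx).2.2.2.1
    cases k <;> cases k'
    · rfl
    · exfalso
      rcases e with e | e
      · exact h1 e
      · exact h2 e
    · exfalso
      rcases AS2_flip e with e | e
      · exact h1 e
      · exact h2 e
    · rfl
  · exfalso
    apply h.conf x hx x' hx' hxx
    have e' := AS2_flip e
    refine Or.inr ⟨rfl, ?_⟩
    cases k'
    · left
      cases k
      · rcases e' with e' | e'
        · exact Or.inl e'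
        · exact Or.inr (Or.inl e')
      · rcases e' with e' | e'
        · exact Or.inr (Or.inr (Or.inl e'))
        · exact Or.inr (Or.inr (Or.inr e'))
    · right
      left
      cases k
      · rcases e' with e' | e'
        · exact Or.inl e'
        · exact Or.inr (Or.inl e')
      · rcases e' with e' | e'
        · exact Or.inr (Or.inr (Or.inl e'))
        · exact Or.inr (Or.inr (Or.inr e'))

theorem AS2_fin3 (j : Fin 3) : j = 0 ∨ j = 1 ∨ j = 2 := by
  fin_cases j
  · exact Or.inl rfl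
  · exact Or.inr (Or.inl rfl)
  · exact Or.inr (Or.inr rfl)

theorem AS2_row {p : ℕ} [Fact p.Prime] {M : ℕ} {a : ZMod p} {Y : ZMod p → ZMod p}
    {f : ZMod p → ZMod p × ZMod p} (h : Data M a Y f) {x x' : ZMod p} (hx : x ∈ TT M a) (hx' : x' ∈ TT M a)
    (j j' : Fin 3) (e : (nsq a x (Y x) (f x) j).1 = (nsq a x' (Y x') (f x') j').1 ∨
      (nsq a x (Y x) (f x) j).1 = -(nsq a x' (Y x') (f x') j').1) : x = x' ∧ j = j' := by
  have t1 := AS2_TT hx
  have t2 := AS2_TT hx'
  have a1 := h.adm x hx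
  have a2 := h.adm x' hx'
  rcases AS2_fin3 j with rfl | rfl | rfl
  · rcases AS2_fin3 j' with rfl | rfl | rfl
    · change x = x' ∨ x = -x' at e
      rcases e with e | e
      · exact ⟨e, rfl⟩
      · exact (AS2_half (AS2_nz t2.1) t1.2.2 t2.2.2 e).elim
    · exact (AS2_nb t1.2.1 a2.1.2 e).elim
    · exact (AS2_nb t1.2.1 a2.2.1.2 e).elim
  · rcases AS2_fin3 j' with rfl | rfl | rfl
    · exact (AS2_nb t2.2.1 a1.1.2 (AS2_flip e)).elim
    · exact ⟨(AS2_core h hx hx' false false e).1, rfl⟩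
    · exact (Bool.noConfusion (AS2_core h hx hx' false true e).2)
  · rcases AS2_fin3 j' with rfl | rfl | rfl
    · exact (AS2_nb t2.2.1 a1.2.1.2 (AS2_flip e)).elim
    · exact (Bool.noConfusion (AS2_core h hx hx' true false e).2)
    · exact ⟨(AS2_core h hx hx' true true e).1, rfl⟩

theorem AS2_mul {p : ℕ} [Fact p.Prime] {a u v : ZMod p} (ha : a ≠ 0)
    (e : a * u = a * v ∨ a * u = -(a * v)) : u = v ∨ u = -v := by
  rcases e with e | e
  · exact Or.inl (mul_left_cancel₀ ha e)
  · right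
    rw [← mul_neg] at e
    exact mul_left_cancel₀ ha e

theorem AS2_inv {p : ℕ} [Fact p.Prime] {M : ℕ} {a u : ZMod p} (ha : a ≠ 0) (hu : InB M u) :
    InB M (a⁻¹ * (a * u)) := by
  rw [← mul_assoc, inv_mul_cancel₀ ha, one_mul]
  exact hu

theorem AS2_col {p : ℕ} [Fact p.Prime] {M : ℕ} {a : ZMod p} {Y : ZMod p → ZMod p}
    {f : ZMod p → ZMod p × ZMod p} (h : Data M a Y f) {x x' : ZMod p} (hx : x ∈ TT M a) (hx' : x' ∈ TT M a)
    (j j' : Fin 3) (e : (nsq a x (Y x) (f x) j).2 = (nsq a x' (Y x') (f x') j').2 ∨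
      (nsq a x (Y x) (f x) j).2 = -(nsq a x' (Y x') (f x') j').2) : x = x' ∧ j = j' := by
  have t1 := AS2_CC (h.Y1 x hx)
  have t2 := AS2_CC (h.Y1 x' hx')
  have a1 := h.adm x hx
  have a2 := h.adm x' hx'
  have ha := h.a0
  rcases AS2_fin3 j with rfl | rfl | rfl
  · rcases AS2_fin3 j' with rfl | rfl | rfl
    · exact ⟨(AS2_core h hx hx' false false (AS2_mul ha e)).1, rfl⟩
    · exact (Bool.noConfusion (AS2_core h hx hx' false true (AS2_mul ha e)).2)
    · exact (AS2_nb t2.2.1 (AS2_inv ha a1.1.1) (AS2_flip e)).elim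
  · rcases AS2_fin3 j' with rfl | rfl | rfl
    · exact (Bool.noConfusion (AS2_core h hx hx' true false (AS2_mul ha e)).2)
    · exact ⟨(AS2_core h hx hx' true true (AS2_mul ha e)).1, rfl⟩
    · exact (AS2_nb t2.2.1 (AS2_inv ha a1.2.1.1) (AS2_flip e)).elim
  · rcases AS2_fin3 j' with rfl | rfl | rfl
    · exact (AS2_nb t1.2.1 (AS2_inv ha a2.1.1) e).elim
    · exact (AS2_nb t1.2.1 (AS2_inv ha a2.2.1.1) e).elim
    · change Y x = Y x' ∨ Y x = -Y x' at e
      rcases e with e | e
      · exact ⟨h.Y2 x hx x' hx' e, rfl⟩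
      · exact (AS2_half (AS2_nz t2.1) t1.2.2 t2.2.2 e).elim

theorem AS2_nzr {p : ℕ} [Fact p.Prime] {M : ℕ} {a : ZMod p} {Y : ZMod p → ZMod p}
    {f : ZMod p → ZMod p × ZMod p} (h : Data M a Y f) {x : ZMod p} (hx : x ∈ TT M a) (j : Fin 3) :
    (nsq a x (Y x) (f x) j).1 ≠ 0 ∧ (nsq a x (Y x) (f x) j).2 ≠ 0 := by
  have t1 := AS2_TT hx
  have t2 := AS2_CC (h.Y1 x hx)
  have a1 := h.adm x hx
  rcases AS2_fin3 j with rfl | rfl | rfl
  · exact ⟨AS2_nz t1.1, AS2_nz a1.1.2⟩
  · exact ⟨AS2_nz a1.1.1, AS2_nz a1.2.1.2⟩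
  · exact ⟨AS2_nz a1.2.1.1, AS2_nz t2.1⟩

theorem AS2_kn {p : ℕ} [Fact p.Prime] {M : ℕ} {a : ZMod p} {Y : ZMod p → ZMod p}
    {f : ZMod p → ZMod p × ZMod p} (h : Data M a Y f) {i x : ZMod p} (hi : i ∈ keep M a f) (hx : x ∈ TT M a)
    (j : Fin 3) : ¬ (i = (nsq a x (Y x) (f x) j).1 ∨ i = -(nsq a x (Y x) (f x) j).1) ∧
      ¬ (a * i = (nsq a x (Y x) (f x) j).2 ∨ a * i = -(nsq a x (Y x) (f x) j).2) := by
  have t1 := AS2_TT hx
  have t2 := AS2_CC (h.Y1 x hx)
  have hk := AS2_keep hi
  have hk2 := hk.2 x hx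
  have ha := h.a0
  rcases AS2_fin3 j with rfl | rfl | rfl
  · constructor
    · intro e
      exact AS2_nb t1.2.1 hk.1.2 (AS2_flip e)
    · intro e
      rcases AS2_mul ha e with e | e
      · exact hk2.1 e
      · exact hk2.2.1 e
  · constructor
    · rintro (e | e)
      · exact hk2.1 e
      · exact hk2.2.1 e
    · intro e
      rcases AS2_mul ha e with e | e
      · exact hk2.2.2.1 e
      · exact hk2.2.2.2 e
  · constructor
    · rintro (e | e)
      · exact hk2.2.2.1 e
      · exact hk2.2.2.2 e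
    · intro e
      exact AS2_nb t2.2.1 (AS2_inv ha hk.1.1) (AS2_flip e)

/-- Rows and columns are distinct.
Proof (rows): the kept squares have rows `i ∈ keep`; the new ones have rows `±x, ±(f x).1, ±(f x).2`, `x ∈ TT`.
`x, -x` are not in `{i | InB i, InB (a i)}` while the others are; `TT` contains at most one of `u, -u`;
`±(f x).1, ±(f x).2` are distinct for one `x` by `Adm` (and `p` odd, non-zero) and for different `x` by `conf`;
none of them is in `keep`.  Columns: kept ones `a i`; new ones `±a (f x).1, ±a (f x).2, ±Y x`; the same,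
`Y` injective on `TT` with values in `CC`. -/
theorem pat_rows {p : ℕ} [Fact p.Prime] {M : ℕ} {a : ZMod p} {Y : ZMod p → ZMod p}
    {f : ZMod p → ZMod p × ZMod p} (h : Data M a Y f) :
    ∀ s ∈ pat M a Y f, ∀ t ∈ pat M a Y f, s ≠ t → s.1 ≠ t.1 ∧ s.2 ≠ t.2 := by
  intro s hs t ht hst
  rcases AS2_mem hs with ⟨i, hi, hs⟩ | ⟨x, hx, j, hs⟩
  · rcases AS2_mem ht with ⟨i', hi', ht⟩ | ⟨x', hx', j', ht⟩
    · rw [hs, ht] at hst ⊢
      constructor
      · intro e
        change i = i' at e
        exact hst (by rw [e])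
      · intro e
        exact hst (by rw [mul_left_cancel₀ h.a0 e])
    · have hkn := AS2_kn h hi hx' j'
      rw [hs]
      constructor
      · intro e
        apply hkn.1
        rcases ht with ht | ht
        · rw [ht] at e
          exact Or.inl e
        · rw [ht] at e
          exact Or.inr e
      · intro e
        apply hkn.2
        rcases ht with ht | ht
        · rw [ht] at e
          exact Or.inl e
        · rw [ht] at e
          exact Or.inr e
  · rcases AS2_mem ht with ⟨i', hi', ht⟩ | ⟨x', hx', j', ht⟩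
    · have hkn := AS2_kn h hi' hx j
      rw [ht]
      constructor
      · intro e
        apply hkn.1
        rcases hs with hs | hs
        · rw [hs] at e
          exact Or.inl e.symm
        · rw [hs] at e
          exact Or.inr e.symm
      · intro e
        apply hkn.2
        rcases hs with hs | hs
        · rw [hs] at e
          exact Or.inl e.symm
        · rw [hs] at e
          exact Or.inr e.symm
    · have n1 := AS2_nzr h hx j
      constructor
      · intro e
        have key : (nsq a x (Y x) (f x) j).1 = (nsq a x' (Y x') (f x') j').1 ∨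
            (nsq a x (Y x) (f x) j).1 = -(nsq a x' (Y x') (f x') j').1 := by
          rcases hs with hs | hs <;> rcases ht with ht | ht <;> rw [hs, ht] at e
          · exact Or.inl e
          · exact Or.inr e
          · exact Or.inr (neg_eq_iff_eq_neg.1 e)
          · exact Or.inl (neg_injective e)
        obtain ⟨e1, e2⟩ := AS2_row h hx hx' j j' key
        subst e1
        subst e2
        rcases hs with hs | hs <;> rcases ht with ht | ht
        · exact hst (hs.trans ht.symm)
        · rw [hs, ht] at e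
          exact AS2_odd h.hp n1.1 e
        · rw [hs, ht] at e
          exact AS2_odd h.hp n1.1 e.symm
        · exact hst (hs.trans ht.symm)
      · intro e
        have key : (nsq a x (Y x) (f x) j).2 = (nsq a x' (Y x') (f x') j').2 ∨
            (nsq a x (Y x) (f x) j).2 = -(nsq a x' (Y x') (f x') j').2 := by
          rcases hs with hs | hs <;> rcases ht with ht | ht <;> rw [hs, ht] at e
          · exact Or.inl e
          · exact Or.inr e
          · exact Or.inr (neg_eq_iff_eq_neg.1 e)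
          · exact Or.inl (neg_injective e)
        obtain ⟨e1, e2⟩ := AS2_col h hx hx' j j' key
        subst e1
        subst e2
        rcases hs with hs | hs <;> rcases ht with ht | ht
        · exact hst (hs.trans ht.symm)
        · rw [hs, ht] at e
          exact AS2_odd h.hp n1.2 e
        · rw [hs, ht] at e
          exact AS2_odd h.hp n1.2 e.symm
        · exact hst (hs.trans ht.symm)

end Pool.Agent.MP_b34510_co
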