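import Pool.Agent.MP_b34510_co.SQ.AS0

set_option autoImplicit false

open Finset Classical

namespace Pool.Agent.MP_b34510_co

theorem as3_mdiff {p : ℕ} [Fact p.Prime] (s : ZMod p × ZMod p) : ((idiff s : ℤ) : ZMod p) = mdiff s := by
  unfold idiff mdiff
  push_cast
  rw [ZMod.natCast_zmod_val, ZMod.natCast_zmod_val]

theorem as3_msum {p : ℕ} [Fact p.Prime] (s : ZMod p × ZMod p) : ((isum s : ℤ) : ZMod p) = msum s := by
  unfold isum msum
  push_cast
  rw [ZMod.natCast_zmod_val, ZMod.natCast_zmod_val]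

theorem as3_mdiff_neg {p : ℕ} (s : ZMod p × ZMod p) : mdiff (-s) = -mdiff s := by
  unfold mdiff
  rw [Prod.fst_neg, Prod.snd_neg]
  ring

theorem as3_msum_neg {p : ℕ} (s : ZMod p × ZMod p) : msum (-s) = -msum s := by
  unfold msum
  rw [Prod.fst_neg, Prod.snd_neg]
  ring

theorem as3_ne {p : ℕ} {M : ℕ} {u : ZMod p} (h : InB M u) : u ≠ 0 := by
  rintro rfl
  have := h.1
  rw [ZMod.val_zero] at this
  exact absurd this (Nat.not_lt_zero _)

theorem as3_two {p : ℕ} [Fact p.Prime] (hp : 2 < p) {z : ZMod p} (h : z ≠ 0) : z ≠ -z := by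
  intro h1
  have h2 : (2 : ZMod p) * z = 0 := by linear_combination h1
  rcases mul_eq_zero.1 h2 with h3 | h3
  · have h4 : ((2 : ℕ) : ZMod p) = 0 := by exact_mod_cast h3
    rw [ZMod.natCast_eq_zero_iff] at h4
    exact absurd (Nat.le_of_dvd two_pos h4) (by omega)
  · exact h h3

theorem as3_coord {p : ℕ} [Fact p.Prime] {M : ℕ} {a : ZMod p} {Y : ZMod p → ZMod p}
    {f : ZMod p → ZMod p × ZMod p} (h : Data M a Y f) {x : ZMod p} (hx : x ∈ TT M a) (j : Fin 3) :
    (nsq a x (Y x) (f x) j).1 ≠ 0 ∧ (nsq a x (Y x) (f x) j).2 ≠ 0 := by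
  obtain ⟨h1, h2, -⟩ := h.adm x hx
  have h3 : InB M x := (Finset.mem_filter.1 hx).2.1
  have h4 : InB M (Y x) := (Finset.mem_filter.1 (h.Y1 x hx)).2.1
  fin_cases j
  · exact ⟨as3_ne h3, as3_ne h1.2⟩
  · exact ⟨as3_ne h1.1, as3_ne h2.2⟩
  · exact ⟨as3_ne h2.1, as3_ne h4⟩

theorem as3_new {p : ℕ} [Fact p.Prime] {M : ℕ} {a : ZMod p} {Y : ZMod p → ZMod p}
    {f : ZMod p → ZMod p × ZMod p} (h : Data M a Y f) {x x' : ZMod p} (hx : x ∈ TT M a)
    (hx' : x' ∈ TT M a) (j j' : Fin 3) {s t : ZMod p × ZMod p}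
    (hs : s = nsq a x (Y x) (f x) j ∨ s = -nsq a x (Y x) (f x) j)
    (ht : t = nsq a x' (Y x') (f x') j' ∨ t = -nsq a x' (Y x') (f x') j') (hst : s ≠ t) :
    mdiff s ≠ mdiff t ∧ msum s ≠ msum t := by
  by_cases hxx : x = x'
  · subst hxx
    by_cases hjj : j = j'
    · subst hjj
      obtain ⟨h1, h2⟩ := h.nz x hx j
      rcases hs with rfl | rfl <;> rcases ht with rfl | rfl
      · exact absurd rfl hst
      · rw [as3_mdiff_neg, as3_msum_neg]
        exact ⟨as3_two h.hp h1, as3_two h.hp h2⟩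
      · rw [as3_mdiff_neg, as3_msum_neg]
        exact ⟨(as3_two h.hp h1).symm, (as3_two h.hp h2).symm⟩
      · exact absurd rfl hst
    · obtain ⟨h1, h2, h3, h4⟩ := (h.adm x hx).2.2.2.2 j j' hjj
      rcases hs with rfl | rfl <;> rcases ht with rfl | rfl
      · exact ⟨h1, h3⟩
      · rw [as3_mdiff_neg, as3_msum_neg]
        exact ⟨h2, h4⟩
      · rw [as3_mdiff_neg, as3_msum_neg]
        exact ⟨fun h5 => h2 (neg_eq_iff_eq_neg.1 h5), fun h5 => h4 (neg_eq_iff_eq_neg.1 h5)⟩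
      · rw [as3_mdiff_neg, as3_msum_neg, as3_mdiff_neg, as3_msum_neg]
        exact ⟨fun h5 => h1 (neg_injective h5), fun h5 => h3 (neg_injective h5)⟩
  · have hc := h.conf x hx x' hx' hxx
    have h1 : ∀ i j : Fin 3,
        mdiff (nsq a x' (Y x') (f x') j) ≠ mdiff (nsq a x (Y x) (f x) i) ∧
        mdiff (nsq a x' (Y x') (f x') j) ≠ -mdiff (nsq a x (Y x) (f x) i) ∧
        msum (nsq a x' (Y x') (f x') j) ≠ msum (nsq a x (Y x) (f x) i) ∧
        msum (nsq a x' (Y x') (f x') j) ≠ -msum (nsq a x (Y x) (f x) i) := by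
      intro i j
      refine ⟨fun h2 => ?_, fun h2 => ?_, fun h2 => ?_, fun h2 => ?_⟩
      · exact hc (Or.inr ⟨rfl, Or.inr (Or.inr ⟨i, j, Or.inl h2⟩)⟩)
      · exact hc (Or.inr ⟨rfl, Or.inr (Or.inr ⟨i, j, Or.inr (Or.inl h2)⟩)⟩)
      · exact hc (Or.inr ⟨rfl, Or.inr (Or.inr ⟨i, j, Or.inr (Or.inr (Or.inl h2))⟩)⟩)
      · exact hc (Or.inr ⟨rfl, Or.inr (Or.inr ⟨i, j, Or.inr (Or.inr (Or.inr h2))⟩)⟩)
    obtain ⟨h2, h3, h4, h5⟩ := h1 j j'
    rcases hs with rfl | rfl <;> rcases ht with rfl | rfl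
    · exact ⟨h2.symm, h4.symm⟩
    · rw [as3_mdiff_neg, as3_msum_neg]
      exact ⟨fun h6 => h3 (neg_eq_iff_eq_neg.1 h6.symm), fun h6 => h5 (neg_eq_iff_eq_neg.1 h6.symm)⟩
    · rw [as3_mdiff_neg, as3_msum_neg]
      exact ⟨h3.symm, h5.symm⟩
    · rw [as3_mdiff_neg, as3_msum_neg, as3_mdiff_neg, as3_msum_neg]
      exact ⟨fun h6 => h2 (neg_injective h6).symm, fun h6 => h4 (neg_injective h6).symm⟩

theorem as3_kept_new {p : ℕ} [Fact p.Prime] {M : ℕ} {a : ZMod p} {Y : ZMod p → ZMod p}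
    {f : ZMod p → ZMod p × ZMod p} (h : Data M a Y f) {i x : ZMod p} (hi : i ≠ 0)
    (hx : x ∈ TT M a) (j : Fin 3) {t : ZMod p × ZMod p}
    (ht : t = nsq a x (Y x) (f x) j ∨ t = -nsq a x (Y x) (f x) j) :
    idiff (i, a * i) ≠ idiff t ∧ isum (i, a * i) ≠ isum t := by
  rcases ht with rfl | rfl
  · exact h.free x hx j i hi
  · obtain ⟨h1, h2⟩ := as3_coord h hx j
    exact free_neg h.a0 h1 h2 (h.free x hx j) i hi

theorem as3_mem {p : ℕ} [Fact p.Prime] {M : ℕ} {a : ZMod p} {Y : ZMod p → ZMod p}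
    {f : ZMod p → ZMod p × ZMod p} {s : ZMod p × ZMod p} (hs : s ∈ pat M a Y f) :
    (∃ i, i ≠ 0 ∧ s = (i, a * i)) ∨ ∃ x ∈ TT M a, ∃ j : Fin 3,
      s = nsq a x (Y x) (f x) j ∨ s = -nsq a x (Y x) (f x) j := by
  unfold pat at hs
  rcases Finset.mem_union.1 hs with hs | hs
  · left
    obtain ⟨i, hi, rfl⟩ := Finset.mem_image.1 hs
    exact ⟨i, as3_ne (Finset.mem_filter.1 hi).2.1.1, rfl⟩
  · right
    unfold newSq at hs
    obtain ⟨x, hx, hs⟩ := Finset.mem_biUnion.1 hs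
    obtain ⟨j, -, hs⟩ := Finset.mem_biUnion.1 hs
    refine ⟨x, hx, j, ?_⟩
    rw [Finset.mem_insert, Finset.mem_singleton] at hs
    exact hs

/-- Diagonals are distinct.
Proof: two kept squares `(i, a i)`, `(j, a j)`: `idiff` equal implies `(1 - a) i = (1 - a) j` modulo `p`, so
`i = j`; `isum` with `1 + a`.  A kept one and a new one: `Free` and `free_neg`.  Two new ones: `idiff` equal
implies `mdiff` equal; `mdiff (-s) = - mdiff s`; for the same task use `adm` and `nz` (`mdiff ≠ - mdiff`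
because `mdiff ≠ 0` and `p` is odd), for different tasks `conf`; `isum` and `msum` in the same way. -/
theorem pat_diag {p : ℕ} [Fact p.Prime] {M : ℕ} {a : ZMod p} {Y : ZMod p → ZMod p}
    {f : ZMod p → ZMod p × ZMod p} (h : Data M a Y f) :
    ∀ s ∈ pat M a Y f, ∀ t ∈ pat M a Y f, s ≠ t → idiff s ≠ idiff t ∧ isum s ≠ isum t := by
  intro s hs t ht hst
  rcases as3_mem hs with ⟨i, hi, rfl⟩ | ⟨x, hx, j, hs'⟩
  · rcases as3_mem ht with ⟨i', hi', rfl⟩ | ⟨x', hx', j', ht'⟩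
    · have hne : i ≠ i' := by
        rintro rfl
        exact hst rfl
      constructor
      · intro h1
        have h2 := congrArg (fun z : ℤ => (z : ZMod p)) h1
        simp only [as3_mdiff] at h2
        have h3 : (1 - a) * (i - i') = 0 := by
          unfold mdiff at h2
          simp only at h2
          linear_combination h2
        rcases mul_eq_zero.1 h3 with h4 | h4
        · exact h.a1 (sub_eq_zero.1 h4).symm
        · exact hne (sub_eq_zero.1 h4)
      · intro h1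
        have h2 := congrArg (fun z : ℤ => (z : ZMod p)) h1
        simp only [as3_msum] at h2
        have h3 : (1 + a) * (i - i') = 0 := by
          unfold msum at h2
          simp only at h2
          linear_combination h2
        rcases mul_eq_zero.1 h3 with h4 | h4
        · exact h.a2 (eq_neg_of_add_eq_zero_right h4)
        · exact hne (sub_eq_zero.1 h4)
    · exact as3_kept_new h hi hx' j' ht'
  · rcases as3_mem ht with ⟨i', hi', rfl⟩ | ⟨x', hx', j', ht'⟩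
    · obtain ⟨h1, h2⟩ := as3_kept_new h hi' hx j hs'
      exact ⟨h1.symm, h2.symm⟩
    · obtain ⟨h1, h2⟩ := as3_new h hx hx' j j' hs' ht' hst
      constructor
      · intro h3
        apply h1
        rw [← as3_mdiff, ← as3_mdiff, h3]
      · intro h3
        apply h2
        rw [← as3_msum, ← as3_msum, h3]

end Pool.Agent.MP_b34510_co
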