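import Pool.Agent.MP_b34510_co.SQ.AS1
import Pool.Agent.MP_b34510_co.SQ.AS2
import Pool.Agent.MP_b34510_co.SQ.AS3

set_option autoImplicit false

open Finset Classical

namespace Pool.Agent.MP_b34510_co

theorem AS4_card {p : ℕ} [Fact p.Prime] {M : ℕ} (hM : 2 * M + 1 ≤ p) :
    (Finset.univ.filter fun u : ZMod p => InB M u).card = p - M - M - 1 := by
  have hinj : Function.Injective (ZMod.val : ZMod p → ℕ) := ZMod.val_injective p
  rw [← Finset.card_image_of_injective _ hinj]
  have e : (Finset.univ.filter fun u : ZMod p => InB M u).image ZMod.val = Finset.Ioo M (p - M) := by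
    ext n
    rw [mem_image, mem_Ioo]
    constructor
    · rintro ⟨u, hu, rfl⟩
      rw [mem_filter] at hu
      have h1 := hu.2.1
      have h2 := hu.2.2
      exact ⟨h1, by omega⟩
    · rintro ⟨h1, h2⟩
      have h3 : ((n : ZMod p)).val = n := ZMod.val_cast_of_lt (by omega)
      refine ⟨(n : ZMod p), ?_, h3⟩
      rw [mem_filter]
      refine ⟨mem_univ _, ?_, ?_⟩
      · rw [h3]
        exact h1
      · rw [h3]
        omega
  rw [e, Nat.card_Ioo]

/-- Proof: the projection to the rows is a bijection onto `{u | InB M u}` by `pat_board`, `pat_rows`, `pat_onto`,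
and this set has `p - 1 - 2 M` elements (`2 M + 1 ≤ p`). -/
theorem pat_card {p : ℕ} [Fact p.Prime] {M : ℕ} {a : ZMod p} {Y : ZMod p → ZMod p}
    {f : ZMod p → ZMod p × ZMod p} (h : Data M a Y f) : (pat M a Y f).card + 2 * M + 1 = p := by
  have hinj : Set.InjOn Prod.fst (pat M a Y f : Set (ZMod p × ZMod p)) := by
    intro s hs t ht e
    by_contra hst
    exact (pat_rows h s hs t ht hst).1 e
  have e : (pat M a Y f).image Prod.fst = Finset.univ.filter fun u : ZMod p => InB M u := by
    ext u
    rw [mem_image, mem_filter]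
    constructor
    · rintro ⟨s, hs, rfl⟩
      exact ⟨mem_univ _, ((pat_board h).1 s hs).1⟩
    · rintro ⟨-, hu⟩
      exact pat_onto h u hu
  have hM := h.hM
  have h1 := AS4_card (p := p) hM
  rw [← e, Finset.card_image_of_injOn hinj] at h1
  omega

theorem goodPat_pat {p : ℕ} [Fact p.Prime] {M : ℕ} {a : ZMod p} {Y : ZMod p → ZMod p}
    {f : ZMod p → ZMod p × ZMod p} (h : Data M a Y f) : GoodPat M (pat M a Y f) where
  board := (pat_board h).1
  card := pat_card h
  sep := fun s hs t ht hst => ⟨(pat_rows h s hs t ht hst).1, (pat_rows h s hs t ht hst).2,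
    (pat_diag h s hs t ht hst).1, (pat_diag h s hs t ht hst).2⟩
  symm := (pat_board h).2

end Pool.Agent.MP_b34510_co
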