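import Pool.Agent.MP_b34510_co.SQ.PR

set_option autoImplicit false

open Finset Classical

namespace Pool.Agent.MP_b34510_co

/-- The tasks: pairs `(a, x)`, `a ∈ A`, `x ∈ TT M a`. -/
noncomputable def tasks {p : ℕ} [Fact p.Prime] (M : ℕ) (A : Finset (ZMod p)) : Finset (ZMod p × ZMod p) :=
  (A ×ˢ (Finset.univ : Finset (ZMod p))).filter fun θ => θ.2 ∈ TT M θ.1

theorem cnb_inj1 {p : ℕ} [Fact p.Prime] (P : ZMod p × ZMod p → Prop) [DecidablePred P]
    (h : ∀ s t t', P (s, t) → P (s, t') → t = t') : (Finset.univ.filter P).card ≤ p := by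
  have h1 := Finset.card_le_card_of_injOn (s := Finset.univ.filter P)
    (t := (Finset.univ : Finset (ZMod p))) Prod.fst (fun _ _ => Finset.mem_univ _) (by
      rintro ⟨s, t⟩ hc ⟨s', t'⟩ hc' e
      have e' : s = s' := e
      subst e'
      simp only [coe_filter, mem_univ, true_and, Set.mem_ofPred_eq] at hc hc'
      rw [h s t t' hc hc'])
  rwa [Finset.card_univ, ZMod.card] at h1

theorem cnb_inj2 {p : ℕ} [Fact p.Prime] (P : ZMod p × ZMod p → Prop) [DecidablePred P]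
    (h : ∀ s s' t, P (s, t) → P (s', t) → s = s') : (Finset.univ.filter P).card ≤ p := by
  have h1 := Finset.card_le_card_of_injOn (s := Finset.univ.filter P)
    (t := (Finset.univ : Finset (ZMod p))) Prod.snd (fun _ _ => Finset.mem_univ _) (by
      rintro ⟨s, t⟩ hc ⟨s', t'⟩ hc' e
      have e' : t = t' := e
      subst e'
      simp only [coe_filter, mem_univ, true_and, Set.mem_ofPred_eq] at hc hc'
      rw [h s s' t hc hc'])
  rwa [Finset.card_univ, ZMod.card] at h1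

theorem cnb_zero {p : ℕ} [Fact p.Prime] {M : ℕ} {u : ZMod p} (h : InB M u) : u ≠ 0 := by
  rintro rfl
  unfold InB at h
  rw [ZMod.val_zero] at h
  omega

theorem cnb_out {p : ℕ} [Fact p.Prime] (M : ℕ) :
    (Finset.univ.filter fun u : ZMod p => u ≠ 0 ∧ ¬ InB M u).card ≤ 2 * M := by
  have h1 := card_not_InB (p := p) M
  have h2 : (insert (0 : ZMod p) (Finset.univ.filter fun u : ZMod p => u ≠ 0 ∧ ¬ InB M u)).card ≤
      (Finset.univ.filter fun u : ZMod p => ¬ InB M u).card := by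
    refine Finset.card_le_card (fun u hu => ?_)
    rw [mem_insert] at hu
    simp only [mem_filter, mem_univ, true_and] at hu ⊢
    rcases hu with rfl | hu
    · exact fun h => cnb_zero h rfl
    · exact hu.2
  rw [Finset.card_insert_of_notMem (by simp)] at h2
  omega

theorem cnb_tasks {p : ℕ} [Fact p.Prime] (hp : 2 < p) (M : ℕ) {A : Finset (ZMod p)}
    (hA : ∀ a ∈ A, a ≠ 0) : (tasks M A).card ≤ M * p := by
  have h1 : tasks M A ⊆ A.biUnion (fun a => (TT M a).image (fun x => (a, x))) := by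
    rintro ⟨a, x⟩ h
    unfold tasks at h
    simp only [mem_filter, mem_product, mem_univ, and_true] at h
    rw [mem_biUnion]
    exact ⟨a, h.1, mem_image.2 ⟨x, h.2, rfl⟩⟩
  refine (Finset.card_le_card h1).trans (Finset.card_biUnion_le.trans ?_)
  refine (Finset.sum_le_sum (g := fun _ => M) fun a ha => Finset.card_image_le.trans
    (card_TT hp M (hA a ha))).trans ?_
  rw [Finset.sum_const, smul_eq_mul, mul_comm]
  refine Nat.mul_le_mul_left M ?_
  have := Finset.card_le_univ A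
  rwa [ZMod.card] at this

theorem cnb_mem {p : ℕ} [Fact p.Prime] {M : ℕ} {A : Finset (ZMod p)} {θ : ZMod p × ZMod p}
    (h : θ ∈ tasks M A) : θ.1 ∈ A ∧ θ.2 ∈ TT M θ.1 := by
  unfold tasks at h
  simpa only [mem_filter, mem_product, mem_univ, and_true] using h

theorem cnb_0 {p : ℕ} [Fact p.Prime] (hp : 2 < p) (M : ℕ) {A : Finset (ZMod p)} (hA : ∀ a ∈ A, a ≠ 0)
    (Y : ZMod p → ZMod p → ZMod p) (κ : ZMod p × ZMod p) :
    ∑ θ ∈ tasks M A, (Finset.univ.filter fun c' : ZMod p × ZMod p =>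
      nsq θ.1 θ.2 (Y θ.1 θ.2) c' 0 = κ).card ≤ 2 * M * p := by
  have h1 : ∀ θ ∈ tasks M A, (Finset.univ.filter fun c' : ZMod p × ZMod p =>
      nsq θ.1 θ.2 (Y θ.1 θ.2) c' 0 = κ).card ≤ if θ.2 = κ.1 then p else 0 := by
    intro θ hθ
    have h0 := hA _ (cnb_mem hθ).1
    split_ifs with h
    · refine cnb_inj2 _ (fun s s' t e1 e2 => ?_)
      have e1' : θ.1 * s = κ.2 := congrArg Prod.snd e1
      have e2' : θ.1 * s' = κ.2 := congrArg Prod.snd e2
      exact mul_left_cancel₀ h0 (e1'.trans e2'.symm)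
    · rw [Nat.le_zero, Finset.card_eq_zero, Finset.filter_eq_empty_iff]
      intro c' _ e
      exact h (congrArg Prod.fst e)
  refine (Finset.sum_le_sum h1).trans ?_
  rw [← Finset.sum_filter, Finset.sum_const, smul_eq_mul]
  refine Nat.mul_le_mul_right p ?_
  refine le_trans (Finset.card_le_card_of_injOn (fun θ => θ.1 * κ.1) ?_ ?_) (cnb_out (p := p) M)
  · intro θ hθ
    simp only [coe_filter, Set.mem_ofPred_eq] at hθ
    obtain ⟨h2, h3⟩ := cnb_mem hθ.1
    have h0 := hA _ h2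
    simp only [TT, mem_filter, mem_univ, true_and] at h3
    simp only [coe_filter, mem_univ, true_and, Set.mem_ofPred_eq]
    rw [← hθ.2]
    exact ⟨mul_ne_zero h0 (cnb_zero h3.1), h3.2.1⟩
  · intro θ hθ θ' hθ' e
    simp only [coe_filter, Set.mem_ofPred_eq] at hθ hθ'
    obtain ⟨h2, h3⟩ := cnb_mem hθ.1
    simp only [TT, mem_filter, mem_univ, true_and] at h3
    have hk : κ.1 ≠ 0 := by
      rw [← hθ.2]
      exact cnb_zero h3.1
    exact Prod.ext (mul_right_cancel₀ hk e) (hθ.2.trans hθ'.2.symm)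

theorem cnb_2 {p : ℕ} [Fact p.Prime] (hp : 2 < p) (M : ℕ) {A : Finset (ZMod p)} (hA : ∀ a ∈ A, a ≠ 0)
    {Y : ZMod p → ZMod p → ZMod p} (hY1 : ∀ a ∈ A, ∀ x ∈ TT M a, Y a x ∈ CC M a)
    (hY2 : ∀ a ∈ A, ∀ x ∈ TT M a, ∀ x' ∈ TT M a, Y a x = Y a x' → x = x') (κ : ZMod p × ZMod p) :
    ∑ θ ∈ tasks M A, (Finset.univ.filter fun c' : ZMod p × ZMod p =>
      nsq θ.1 θ.2 (Y θ.1 θ.2) c' 2 = κ).card ≤ 2 * M * p := by
  have h1 : ∀ θ ∈ tasks M A, (Finset.univ.filter fun c' : ZMod p × ZMod p =>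
      nsq θ.1 θ.2 (Y θ.1 θ.2) c' 2 = κ).card ≤ if Y θ.1 θ.2 = κ.2 then p else 0 := by
    intro θ hθ
    split_ifs with h
    · refine cnb_inj1 _ (fun s t t' e1 e2 => ?_)
      have e1' : t = κ.1 := congrArg Prod.fst e1
      have e2' : t' = κ.1 := congrArg Prod.fst e2
      exact e1'.trans e2'.symm
    · rw [Nat.le_zero, Finset.card_eq_zero, Finset.filter_eq_empty_iff]
      intro c' _ e
      exact h (congrArg Prod.snd e)
  refine (Finset.sum_le_sum h1).trans ?_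
  rw [← Finset.sum_filter, Finset.sum_const, smul_eq_mul]
  refine Nat.mul_le_mul_right p ?_
  refine le_trans (Finset.card_le_card_of_injOn (fun θ => θ.1⁻¹ * κ.2) ?_ ?_) (cnb_out (p := p) M)
  · intro θ hθ
    simp only [coe_filter, Set.mem_ofPred_eq] at hθ
    obtain ⟨h2, h3⟩ := cnb_mem hθ.1
    have h0 := hA _ h2
    have h4 := hY1 _ h2 _ h3
    simp only [CC, mem_filter, mem_univ, true_and] at h4
    simp only [coe_filter, mem_univ, true_and, Set.mem_ofPred_eq]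
    rw [← hθ.2]
    exact ⟨mul_ne_zero (inv_ne_zero h0) (cnb_zero h4.1), h4.2.1⟩
  · intro θ hθ θ' hθ' e
    simp only [coe_filter, Set.mem_ofPred_eq] at hθ hθ'
    obtain ⟨h2, h3⟩ := cnb_mem hθ.1
    obtain ⟨h2', h3'⟩ := cnb_mem hθ'.1
    have h4 := hY1 _ h2 _ h3
    simp only [CC, mem_filter, mem_univ, true_and] at h4
    have hk : κ.2 ≠ 0 := by
      rw [← hθ.2]
      exact cnb_zero h4.1
    have e1 : θ.1 = θ'.1 := inv_injective (mul_right_cancel₀ hk e)
    refine Prod.ext e1 ?_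
    rw [← e1] at h3'
    refine hY2 _ h2 _ h3 _ h3' ?_
    have e2 := hθ'.2
    rw [← e1] at e2
    exact hθ.2.trans e2.symm

theorem cnb_1 {p : ℕ} [Fact p.Prime] (hp : 2 < p) (M : ℕ) {A : Finset (ZMod p)} (hA : ∀ a ∈ A, a ≠ 0)
    (Y : ZMod p → ZMod p → ZMod p) (κ : ZMod p × ZMod p) :
    ∑ θ ∈ tasks M A, (Finset.univ.filter fun c' : ZMod p × ZMod p =>
      nsq θ.1 θ.2 (Y θ.1 θ.2) c' 1 = κ).card ≤ M * p := by
  have h1 : ∀ θ ∈ tasks M A, (Finset.univ.filter fun c' : ZMod p × ZMod p =>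
      nsq θ.1 θ.2 (Y θ.1 θ.2) c' 1 = κ).card ≤ 1 := by
    intro θ hθ
    have h0 := hA _ (cnb_mem hθ).1
    rw [Finset.card_le_one]
    rintro ⟨s, t⟩ e1 ⟨s', t'⟩ e2
    simp only [mem_filter, mem_univ, true_and] at e1 e2
    have f1 : s = κ.1 := congrArg Prod.fst e1
    have f2 : s' = κ.1 := congrArg Prod.fst e2
    have g1 : θ.1 * t = κ.2 := congrArg Prod.snd e1
    have g2 : θ.1 * t' = κ.2 := congrArg Prod.snd e2
    rw [f1, f2, mul_left_cancel₀ h0 (g1.trans g2.symm)]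
  refine (Finset.sum_le_sum h1).trans ?_
  rw [Finset.sum_const, smul_eq_mul, mul_one]
  exact cnb_tasks hp M hA

/-- the choices with a given square -/
noncomputable def cnbF {p : ℕ} [Fact p.Prime] (Y : ZMod p → ZMod p → ZMod p) (κ θ : ZMod p × ZMod p) : ℕ :=
  (Finset.univ.filter fun c' : ZMod p × ZMod p => nsq θ.1 θ.2 (Y θ.1 θ.2) c' 0 = κ).card +
  (Finset.univ.filter fun c' : ZMod p × ZMod p => nsq θ.1 θ.2 (Y θ.1 θ.2) c' 1 = κ).card +
  (Finset.univ.filter fun c' : ZMod p × ZMod p => nsq θ.1 θ.2 (Y θ.1 θ.2) c' 2 = κ).card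

theorem cnb_F {p : ℕ} [Fact p.Prime] (hp : 2 < p) (M : ℕ) {A : Finset (ZMod p)} (hA : ∀ a ∈ A, a ≠ 0)
    {Y : ZMod p → ZMod p → ZMod p} (hY1 : ∀ a ∈ A, ∀ x ∈ TT M a, Y a x ∈ CC M a)
    (hY2 : ∀ a ∈ A, ∀ x ∈ TT M a, ∀ x' ∈ TT M a, Y a x = Y a x' → x = x') (κ : ZMod p × ZMod p) :
    ∑ θ ∈ tasks M A, cnbF Y κ θ ≤ 5 * M * p := by
  unfold cnbF
  rw [Finset.sum_add_distrib, Finset.sum_add_distrib]
  have h0 := cnb_0 hp M hA Y κ
  have h1 := cnb_1 hp M hA Y κ
  have h2 := cnb_2 hp M hA hY1 hY2 κ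
  calc _ ≤ 2 * M * p + M * p + 2 * M * p := Nat.add_le_add (Nat.add_le_add h0 h1) h2
    _ = 5 * M * p := by ring

/-- The choices `c'` of the task `(a', x')` sharing a square (up to sign) with the choice `c` of `(a, x)`,
summed over all tasks.
Proof: 18 possibilities `(i, j, ±)`.  `j = 0`: `(x', a' s') = ± nsq i` needs `x' = ± (nsq i).1 =: u` and
determines `s'`: `p` choices for each task `(a', u)`, and `u ∈ TT M a'` means in particular `¬ InB M (a' u)`,
`u ≠ 0`, `a' ≠ 0`: at most `2 M` values `a'` (the non-zero residues outside the board); `6 · 2M · p`.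
`j = 1`: one choice for each task, at most `p M` tasks (`card_TT`): `6 M p`.
`j = 2`: `(t', y') = ± nsq i` needs `Y a' x' = ± (nsq i).2 =: v`, and determines `t'`; `v ∈ CC M a'` means
`v ≠ 0`, `¬ InB M (a'⁻¹ v)`: at most `2 M` values `a'`, and for each of them at most one `x'` by
injectivity: `6 · 2M · p`. -/
theorem share_count {p : ℕ} [Fact p.Prime] (hp : 2 < p) (M : ℕ) {A : Finset (ZMod p)} (hA : ∀ a ∈ A, a ≠ 0)
    {Y : ZMod p → ZMod p → ZMod p} (hY1 : ∀ a ∈ A, ∀ x ∈ TT M a, Y a x ∈ CC M a)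
    (hY2 : ∀ a ∈ A, ∀ x ∈ TT M a, ∀ x' ∈ TT M a, Y a x = Y a x' → x = x') (a x y : ZMod p)
    (c : ZMod p × ZMod p) :
    ∑ θ ∈ tasks M A, (Finset.univ.filter fun c' : ZMod p × ZMod p =>
      ∃ i j : Fin 3, nsq θ.1 θ.2 (Y θ.1 θ.2) c' j = nsq a x y c i ∨
        nsq θ.1 θ.2 (Y θ.1 θ.2) c' j = -nsq a x y c i).card ≤ 30 * M * p := by
  have key : ∀ θ ∈ tasks M A, (Finset.univ.filter fun c' : ZMod p × ZMod p =>
      ∃ i j : Fin 3, nsq θ.1 θ.2 (Y θ.1 θ.2) c' j = nsq a x y c i ∨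
        nsq θ.1 θ.2 (Y θ.1 θ.2) c' j = -nsq a x y c i).card ≤
      ∑ i : Fin 3, (cnbF Y (nsq a x y c i) θ + cnbF Y (-nsq a x y c i) θ) := by
    intro θ _
    have hF : ∀ κ : ZMod p × ZMod p, (Finset.univ.filter fun c' : ZMod p × ZMod p =>
        ∃ j : Fin 3, nsq θ.1 θ.2 (Y θ.1 θ.2) c' j = κ).card ≤ cnbF Y κ θ := by
      intro κ
      have hs : (Finset.univ.filter fun c' : ZMod p × ZMod p =>
          ∃ j : Fin 3, nsq θ.1 θ.2 (Y θ.1 θ.2) c' j = κ) ⊆
          ((Finset.univ.filter fun c' : ZMod p × ZMod p => nsq θ.1 θ.2 (Y θ.1 θ.2) c' 0 = κ) ∪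
          (Finset.univ.filter fun c' : ZMod p × ZMod p => nsq θ.1 θ.2 (Y θ.1 θ.2) c' 1 = κ)) ∪
          (Finset.univ.filter fun c' : ZMod p × ZMod p => nsq θ.1 θ.2 (Y θ.1 θ.2) c' 2 = κ) := by
        intro c' hc
        simp only [mem_union, mem_filter, mem_univ, true_and] at hc ⊢
        obtain ⟨j, hj⟩ := hc
        have hcs : j = 0 ∨ j = 1 ∨ j = 2 := by
          clear hj
          revert j
          decide
        rcases hcs with rfl | rfl | rfl
        · exact Or.inl (Or.inl hj)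
        · exact Or.inl (Or.inr hj)
        · exact Or.inr hj
      unfold cnbF
      exact (Finset.card_le_card hs).trans ((Finset.card_union_le _ _).trans
        (Nat.add_le_add_right (Finset.card_union_le _ _) _))
    have hs : (Finset.univ.filter fun c' : ZMod p × ZMod p =>
        ∃ i j : Fin 3, nsq θ.1 θ.2 (Y θ.1 θ.2) c' j = nsq a x y c i ∨
          nsq θ.1 θ.2 (Y θ.1 θ.2) c' j = -nsq a x y c i) ⊆
        Finset.univ.biUnion (fun i : Fin 3 =>
          (Finset.univ.filter fun c' : ZMod p × ZMod p =>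
            ∃ j : Fin 3, nsq θ.1 θ.2 (Y θ.1 θ.2) c' j = nsq a x y c i) ∪
          (Finset.univ.filter fun c' : ZMod p × ZMod p =>
            ∃ j : Fin 3, nsq θ.1 θ.2 (Y θ.1 θ.2) c' j = -nsq a x y c i)) := by
      intro c' hc
      simp only [mem_filter, mem_univ, true_and] at hc
      simp only [mem_biUnion, mem_union, mem_filter, mem_univ, true_and]
      obtain ⟨i, j, hj | hj⟩ := hc
      · exact ⟨i, Or.inl ⟨j, hj⟩⟩
      · exact ⟨i, Or.inr ⟨j, hj⟩⟩
    refine (Finset.card_le_card hs).trans (Finset.card_biUnion_le.trans (Finset.sum_le_sum fun i _ => ?_))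
    exact (Finset.card_union_le _ _).trans (Nat.add_le_add (hF _) (hF _))
  refine (Finset.sum_le_sum key).trans ?_
  rw [Finset.sum_comm]
  refine (Finset.sum_le_sum (g := fun _ => 10 * M * p) fun i _ => ?_).trans ?_
  · rw [Finset.sum_add_distrib]
    refine (Nat.add_le_add (cnb_F hp M hA hY1 hY2 _) (cnb_F hp M hA hY1 hY2 _)).trans (le_of_eq ?_)
    ring
  · rw [Finset.sum_const, Finset.card_univ, Fintype.card_fin, smul_eq_mul]
    apply le_of_eq
    ring

end Pool.Agent.MP_b34510_co
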