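import Pool.Agent.MP_b34510_co.SQ.Defs

set_option autoImplicit false

open Finset Classical

namespace Pool.Agent.MP_b34510_co

theorem cnc_inj1 {p : ℕ} [Fact p.Prime] (P : ZMod p × ZMod p → Prop) [DecidablePred P]
    (h : ∀ s t t', P (s, t) → P (s, t') → t = t') : (Finset.univ.filter P).card ≤ p := by
  have h1 := Finset.card_le_card_of_injOn (s := Finset.univ.filter P)
    (t := (Finset.univ : Finset (ZMod p))) Prod.fst (fun _ _ => Finset.mem_univ _) (by
      rintro ⟨s, t⟩ hc ⟨s', t'⟩ hc' e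
      have e' : s = s' := e
      subst e'
      simp only [coe_filter, mem_univ, true_and, Set.mem_ofPred_eq] at hc hc'
      rw [h s t t' hc hc'])
  rwa [Finset.card_univ, ZMod.card] at h1

theorem cnc_inj2 {p : ℕ} [Fact p.Prime] (P : ZMod p × ZMod p → Prop) [DecidablePred P]
    (h : ∀ s s' t, P (s, t) → P (s', t) → s = s') : (Finset.univ.filter P).card ≤ p := by
  have h1 := Finset.card_le_card_of_injOn (s := Finset.univ.filter P)
    (t := (Finset.univ : Finset (ZMod p))) Prod.snd (fun _ _ => Finset.mem_univ _) (by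
      rintro ⟨s, t⟩ hc ⟨s', t'⟩ hc' e
      have e' : t = t' := e
      subst e'
      simp only [coe_filter, mem_univ, true_and, Set.mem_ofPred_eq] at hc hc'
      rw [h s s' t hc hc'])
  rwa [Finset.card_univ, ZMod.card] at h1

theorem cnc_or4 {α : Type} [Fintype α] [DecidableEq α] (T P Q R S : α → Prop) [DecidablePred T]
    [DecidablePred P] [DecidablePred Q] [DecidablePred R] [DecidablePred S] (n : ℕ)
    (hT : ∀ c, T c → P c ∨ Q c ∨ R c ∨ S c)
    (hP : (Finset.univ.filter P).card ≤ n) (hQ : (Finset.univ.filter Q).card ≤ n)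
    (hR : (Finset.univ.filter R).card ≤ n) (hS : (Finset.univ.filter S).card ≤ n) :
    (Finset.univ.filter T).card ≤ 4 * n := by
  have h0 : (Finset.univ.filter T).card ≤ (Finset.univ.filter P ∪
      (Finset.univ.filter Q ∪ (Finset.univ.filter R ∪ Finset.univ.filter S))).card := by
    refine Finset.card_le_card (fun c hc => ?_)
    simp only [mem_union, mem_filter, mem_univ, true_and] at hc ⊢
    exact hT c hc
  have h1 := Finset.card_union_le (Finset.univ.filter P)
    (Finset.univ.filter Q ∪ (Finset.univ.filter R ∪ Finset.univ.filter S))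
  have h2 := Finset.card_union_le (Finset.univ.filter Q) (Finset.univ.filter R ∪ Finset.univ.filter S)
  have h3 := Finset.card_union_le (Finset.univ.filter R) (Finset.univ.filter S)
  omega

theorem cnc_mdiff {p : ℕ} [Fact p.Prime] {a : ZMod p} (x y κ : ZMod p) (ha : a ≠ 0) (j : Fin 3) :
    (Finset.univ.filter fun c : ZMod p × ZMod p => mdiff (nsq a x y c j) = κ).card ≤ p := by
  have hcs : j = 0 ∨ j = 1 ∨ j = 2 := by
    revert j
    decide
  rcases hcs with rfl | rfl | rfl
  · exact cnc_inj2 (p := p) (fun c => mdiff (nsq a x y c 0) = κ) (fun s s' t h1 h2 => by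
      have h1' : x - a * s = κ := h1
      have h2' : x - a * s' = κ := h2
      exact mul_left_cancel₀ ha (by linear_combination h2' - h1'))
  · exact cnc_inj2 (p := p) (fun c => mdiff (nsq a x y c 1) = κ) (fun s s' t h1 h2 => by
      have h1' : s - a * t = κ := h1
      have h2' : s' - a * t = κ := h2
      linear_combination h1' - h2')
  · exact cnc_inj1 (p := p) (fun c => mdiff (nsq a x y c 2) = κ) (fun s t t' h1 h2 => by
      have h1' : t - y = κ := h1
      have h2' : t' - y = κ := h2
      linear_combination h1' - h2')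

theorem cnc_msum {p : ℕ} [Fact p.Prime] {a : ZMod p} (x y κ : ZMod p) (ha : a ≠ 0) (j : Fin 3) :
    (Finset.univ.filter fun c : ZMod p × ZMod p => msum (nsq a x y c j) = κ).card ≤ p := by
  have hcs : j = 0 ∨ j = 1 ∨ j = 2 := by
    revert j
    decide
  rcases hcs with rfl | rfl | rfl
  · exact cnc_inj2 (p := p) (fun c => msum (nsq a x y c 0) = κ) (fun s s' t h1 h2 => by
      have h1' : x + a * s = κ := h1
      have h2' : x + a * s' = κ := h2
      exact mul_left_cancel₀ ha (by linear_combination h1' - h2'))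
  · exact cnc_inj2 (p := p) (fun c => msum (nsq a x y c 1) = κ) (fun s s' t h1 h2 => by
      have h1' : s + a * t = κ := h1
      have h2' : s' + a * t = κ := h2
      linear_combination h1' - h2')
  · exact cnc_inj1 (p := p) (fun c => msum (nsq a x y c 2) = κ) (fun s t t' h1 h2 => by
      have h1' : t + y = κ := h1
      have h2' : t' + y = κ := h2
      linear_combination h1' - h2')

/-- Conflicts inside one slope.
Proof: for each of the at most `M` tasks `x'` of the slope `a`: 8 equations for the rows, `p` solutions each; 36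
equations for `mdiff`, `msum` (9 pairs `(i, j)`, two signs), each with at most `p` solutions. -/
theorem inner_count {p : ℕ} [Fact p.Prime] {a : ZMod p} (ha : a ≠ 0) (x y x' y' : ZMod p)
    (c : ZMod p × ZMod p) :
    (Finset.univ.filter fun c' : ZMod p × ZMod p =>
      (c'.1 = c.1 ∨ c'.1 = -c.1 ∨ c'.1 = c.2 ∨ c'.1 = -c.2) ∨
      (c'.2 = c.1 ∨ c'.2 = -c.1 ∨ c'.2 = c.2 ∨ c'.2 = -c.2) ∨
      (∃ i j : Fin 3, mdiff (nsq a x' y' c' j) = mdiff (nsq a x y c i) ∨
        mdiff (nsq a x' y' c' j) = -mdiff (nsq a x y c i) ∨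
        msum (nsq a x' y' c' j) = msum (nsq a x y c i) ∨
        msum (nsq a x' y' c' j) = -msum (nsq a x y c i))).card ≤ 44 * p := by
  have r1 : ∀ κ : ZMod p, (Finset.univ.filter fun c' : ZMod p × ZMod p => c'.1 = κ).card ≤ p := by
    intro κ
    exact cnc_inj2 (p := p) (fun c' => c'.1 = κ) (fun s s' t h1 h2 => by
      have h1' : s = κ := h1
      have h2' : s' = κ := h2
      rw [h1', h2'])
  have r2 : ∀ κ : ZMod p, (Finset.univ.filter fun c' : ZMod p × ZMod p => c'.2 = κ).card ≤ p := by
    intro κ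
    exact cnc_inj1 (p := p) (fun c' => c'.2 = κ) (fun s t t' h1 h2 => by
      have h1' : t = κ := h1
      have h2' : t' = κ := h2
      rw [h1', h2'])
  set A1 : Finset (ZMod p × ZMod p) := Finset.univ.filter fun c' =>
    (c'.1 = c.1 ∨ c'.1 = -c.1 ∨ c'.1 = c.2 ∨ c'.1 = -c.2) with hA1
  set A2 : Finset (ZMod p × ZMod p) := Finset.univ.filter fun c' =>
    (c'.2 = c.1 ∨ c'.2 = -c.1 ∨ c'.2 = c.2 ∨ c'.2 = -c.2) with hA2
  set B : Fin 3 × Fin 3 → Finset (ZMod p × ZMod p) := fun q => Finset.univ.filter fun c' =>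
    (mdiff (nsq a x' y' c' q.2) = mdiff (nsq a x y c q.1) ∨
        mdiff (nsq a x' y' c' q.2) = -mdiff (nsq a x y c q.1) ∨
        msum (nsq a x' y' c' q.2) = msum (nsq a x y c q.1) ∨
        msum (nsq a x' y' c' q.2) = -msum (nsq a x y c q.1)) with hB
  have c1 : A1.card ≤ 4 * p := by
    rw [hA1]
    exact cnc_or4 (α := ZMod p × ZMod p) _ _ _ _ _ p (fun c h => h) (r1 c.1) (r1 (-c.1)) (r1 c.2)
      (r1 (-c.2))
  have c2 : A2.card ≤ 4 * p := by
    rw [hA2]
    exact cnc_or4 (α := ZMod p × ZMod p) _ _ _ _ _ p (fun c h => h) (r2 c.1) (r2 (-c.1)) (r2 c.2)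
      (r2 (-c.2))
  have c3 : ∀ q, (B q).card ≤ 4 * p := by
    intro q
    rw [hB]
    exact cnc_or4 (α := ZMod p × ZMod p) _ _ _ _ _ p (fun c h => h)
      (cnc_mdiff x' y' (mdiff (nsq a x y c q.1)) ha q.2)
      (cnc_mdiff x' y' (-mdiff (nsq a x y c q.1)) ha q.2)
      (cnc_msum x' y' (msum (nsq a x y c q.1)) ha q.2)
      (cnc_msum x' y' (-msum (nsq a x y c q.1)) ha q.2)
  have hsub : (Finset.univ.filter fun c' : ZMod p × ZMod p =>
      (c'.1 = c.1 ∨ c'.1 = -c.1 ∨ c'.1 = c.2 ∨ c'.1 = -c.2) ∨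
      (c'.2 = c.1 ∨ c'.2 = -c.1 ∨ c'.2 = c.2 ∨ c'.2 = -c.2) ∨
      (∃ i j : Fin 3, mdiff (nsq a x' y' c' j) = mdiff (nsq a x y c i) ∨
        mdiff (nsq a x' y' c' j) = -mdiff (nsq a x y c i) ∨
        msum (nsq a x' y' c' j) = msum (nsq a x y c i) ∨
        msum (nsq a x' y' c' j) = -msum (nsq a x y c i))) ⊆ A1 ∪ (A2 ∪ Finset.univ.biUnion B) := by
    intro c' hc
    simp only [mem_filter, mem_univ, true_and] at hc
    simp only [mem_union, mem_biUnion, mem_univ, true_and]
    rcases hc with h | h | ⟨i, j, h⟩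
    · left
      simpa [hA1] using h
    · right; left
      simpa [hA2] using h
    · right; right
      refine ⟨(i, j), ?_⟩
      simpa [hB] using h
  refine (Finset.card_le_card hsub).trans ?_
  have h1 := Finset.card_union_le A1 (A2 ∪ Finset.univ.biUnion B)
  have h2 := Finset.card_union_le A2 (Finset.univ.biUnion B)
  have h3 : (Finset.univ.biUnion B).card ≤ 9 * (4 * p) := by
    refine Finset.card_biUnion_le.trans ?_
    refine (Finset.sum_le_sum fun q _ => c3 q).trans ?_
    simp
  omega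

end Pool.Agent.MP_b34510_co
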