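import Pool.Agent.MP_b34510_co.SQ.CNA
import Pool.Agent.MP_b34510_co.SQ.CNB
import Pool.Agent.MP_b34510_co.SQ.CNC

set_option autoImplicit false

open Finset Classical

namespace Pool.Agent.MP_b34510_co

theorem cn2_mem {p : ℕ} [Fact p.Prime] {M : ℕ} {A : Finset (ZMod p)} {θ : ZMod p × ZMod p}
    (h : θ ∈ tasks M A) : θ.1 ∈ A ∧ θ.2 ∈ TT M θ.1 := by
  unfold tasks at h
  simpa only [mem_filter, mem_product, mem_univ, and_true] using h

/-- All conflicts. Proof: `share_count` and `inner_count` (at most `M` tasks of the slope `a`, `card_TT`):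
`30 M p + 44 M p`. -/
theorem conf_count {p : ℕ} [Fact p.Prime] (hp : 2 < p) (M : ℕ) {A : Finset (ZMod p)} (hA : ∀ a ∈ A, a ≠ 0)
    {Y : ZMod p → ZMod p → ZMod p} (hY1 : ∀ a ∈ A, ∀ x ∈ TT M a, Y a x ∈ CC M a)
    (hY2 : ∀ a ∈ A, ∀ x ∈ TT M a, ∀ x' ∈ TT M a, Y a x = Y a x' → x = x') {a x : ZMod p} (ha : a ∈ A)
    (y : ZMod p) (c : ZMod p × ZMod p) :
    ∑ θ ∈ tasks M A, (Finset.univ.filter fun c' : ZMod p × ZMod p =>
      Conf a x y c θ.1 θ.2 (Y θ.1 θ.2) c').card ≤ 74 * M * p := by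
  have ha0 := hA a ha
  have h1 := share_count hp M hA hY1 hY2 a x y c
  have key : ∀ θ ∈ tasks M A, (Finset.univ.filter fun c' : ZMod p × ZMod p =>
      Conf a x y c θ.1 θ.2 (Y θ.1 θ.2) c').card ≤
      (Finset.univ.filter fun c' : ZMod p × ZMod p =>
        ∃ i j : Fin 3, nsq θ.1 θ.2 (Y θ.1 θ.2) c' j = nsq a x y c i ∨
          nsq θ.1 θ.2 (Y θ.1 θ.2) c' j = -nsq a x y c i).card +
      (if θ.1 = a then 44 * p else 0) := by
    intro θ _
    by_cases h : θ.1 = a
    · rw [if_pos h]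
      have h2 := inner_count ha0 x y θ.2 (Y θ.1 θ.2) c
      refine le_trans ?_ (Nat.add_le_add_left h2 _)
      refine le_trans (Finset.card_le_card ?_) (Finset.card_union_le _ _)
      intro c' hc
      rw [mem_union]
      simp only [mem_filter, mem_univ, true_and] at hc ⊢
      rcases hc with h3 | ⟨_, h3⟩
      · exact Or.inl h3
      · right
        rw [h] at h3 ⊢
        exact h3
    · rw [if_neg h, add_zero]
      refine Finset.card_le_card ?_
      intro c' hc
      simp only [mem_filter, mem_univ, true_and] at hc ⊢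
      rcases hc with h3 | ⟨h3, _⟩
      · exact h3
      · exact absurd h3.symm h
  refine (Finset.sum_le_sum key).trans ?_
  rw [Finset.sum_add_distrib]
  have h3 : ∑ θ ∈ tasks M A, (if θ.1 = a then 44 * p else 0) ≤ 44 * M * p := by
    rw [← Finset.sum_filter, Finset.sum_const, smul_eq_mul]
    have h4 : ((tasks M A).filter fun θ => θ.1 = a).card ≤ M := by
      refine le_trans (Finset.card_le_card_of_injOn Prod.snd ?_ ?_) (card_TT hp M ha0)
      · intro θ hθ
        simp only [coe_filter, Set.mem_ofPred_eq] at hθ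
        have h5 := (cn2_mem hθ.1).2
        rw [hθ.2] at h5
        exact h5
      · intro θ hθ θ' hθ' e
        simp only [coe_filter, Set.mem_ofPred_eq] at hθ hθ'
        exact Prod.ext (hθ.2.trans hθ'.2.symm) e
    calc _ ≤ M * (44 * p) := Nat.mul_le_mul_right _ h4
      _ = 44 * M * p := by ring
  calc _ ≤ 30 * M * p + 44 * M * p := Nat.add_le_add h1 h3
    _ = 74 * M * p := by ring

/-- Conflict is symmetric. -/
theorem conf_symm {p : ℕ} [Fact p.Prime] {a x y : ZMod p} {c : ZMod p × ZMod p} {a' x' y' : ZMod p}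
    {c' : ZMod p × ZMod p} (h : Conf a x y c a' x' y' c') : Conf a' x' y' c' a x y c := by
  have hn : ∀ {G : Type} [AddGroup G] {u v : G}, u = -v → v = -u := by
    intro G _ u v h
    rw [h, neg_neg]
  rcases h with ⟨i, j, h | h⟩ | ⟨ha, h⟩
  · exact Or.inl ⟨j, i, Or.inl h.symm⟩
  · exact Or.inl ⟨j, i, Or.inr (hn h)⟩
  · refine Or.inr ⟨ha.symm, ?_⟩
    rcases h with (h | h | h | h) | (h | h | h | h) | ⟨i, j, h | h | h | h⟩
    · exact Or.inl (Or.inl h.symm)
    · exact Or.inl (Or.inr (Or.inl (hn h)))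
    · exact Or.inr (Or.inl (Or.inl h.symm))
    · exact Or.inr (Or.inl (Or.inr (Or.inl (hn h))))
    · exact Or.inl (Or.inr (Or.inr (Or.inl h.symm)))
    · exact Or.inl (Or.inr (Or.inr (Or.inr (hn h))))
    · exact Or.inr (Or.inl (Or.inr (Or.inr (Or.inl h.symm))))
    · exact Or.inr (Or.inl (Or.inr (Or.inr (Or.inr (hn h)))))
    · exact Or.inr (Or.inr ⟨j, i, Or.inl h.symm⟩)
    · exact Or.inr (Or.inr ⟨j, i, Or.inr (Or.inl (hn h))⟩)
    · exact Or.inr (Or.inr ⟨j, i, Or.inr (Or.inr (Or.inl h.symm))⟩)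
    · exact Or.inr (Or.inr ⟨j, i, Or.inr (Or.inr (Or.inr (hn h)))⟩)

end Pool.Agent.MP_b34510_co
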