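import Pool.Agent.MP_b34510_co.SQ.PR

set_option autoImplicit false

open Finset Classical

namespace Pool.Agent.MP_b34510_co

theorem cna_inj1 {p : ℕ} [Fact p.Prime] (P : ZMod p × ZMod p → Prop)
    (h : ∀ s t t', P (s, t) → P (s, t') → t = t') : (Finset.univ.filter P).card ≤ p := by
  have h1 := Finset.card_le_card_of_injOn (s := Finset.univ.filter P)
    (t := (Finset.univ : Finset (ZMod p))) Prod.fst (fun _ _ => Finset.mem_univ _) (by
      rintro ⟨s, t⟩ hc ⟨s', t'⟩ hc' e
      have e' : s = s' := e
      subst e'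
      simp only [coe_filter, mem_univ, true_and, Set.mem_ofPred_eq] at hc hc'
      rw [h s t t' hc hc'])
  rwa [Finset.card_univ, ZMod.card] at h1

theorem cna_inj2 {p : ℕ} [Fact p.Prime] (P : ZMod p × ZMod p → Prop)
    (h : ∀ s s' t, P (s, t) → P (s', t) → s = s') : (Finset.univ.filter P).card ≤ p := by
  have h1 := Finset.card_le_card_of_injOn (s := Finset.univ.filter P)
    (t := (Finset.univ : Finset (ZMod p))) Prod.snd (fun _ _ => Finset.mem_univ _) (by
      rintro ⟨s, t⟩ hc ⟨s', t'⟩ hc' e
      have e' : t = t' := e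
      subst e'
      simp only [coe_filter, mem_univ, true_and, Set.mem_ofPred_eq] at hc hc'
      rw [h s s' t hc hc'])
  rwa [Finset.card_univ, ZMod.card] at h1

theorem cna_or4 {α : Type} [Fintype α] (T P Q R S : α → Prop) (n : ℕ)
    (hT : ∀ c, T c → P c ∨ Q c ∨ R c ∨ S c)
    (hP : (Finset.univ.filter P).card ≤ n) (hQ : (Finset.univ.filter Q).card ≤ n)
    (hR : (Finset.univ.filter R).card ≤ n) (hS : (Finset.univ.filter S).card ≤ n) :
    (Finset.univ.filter T).card ≤ 4 * n := by
  have h0 : (Finset.univ.filter T).card ≤ (Finset.univ.filter P ∪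
      (Finset.univ.filter Q ∪ (Finset.univ.filter R ∪ Finset.univ.filter S))).card := by
    refine Finset.card_le_card (fun c hc => ?_)
    simp only [mem_union, mem_filter, mem_univ, true_and] at hc ⊢
    exact hT c hc
  have h1 := Finset.card_union_le (Finset.univ.filter P)
    (Finset.univ.filter Q ∪ (Finset.univ.filter R ∪ Finset.univ.filter S))
  have h2 := Finset.card_union_le (Finset.univ.filter Q) (Finset.univ.filter R ∪ Finset.univ.filter S)
  have h3 := Finset.card_union_le (Finset.univ.filter R) (Finset.univ.filter S)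
  omega

theorem cna_row1 {p : ℕ} [Fact p.Prime] (P : ZMod p → Prop) (N : ℕ)
    (h : (Finset.univ.filter P).card ≤ N) :
    (Finset.univ.filter fun c : ZMod p × ZMod p => P c.1).card ≤ N * p := by
  have e : (Finset.univ.filter fun c : ZMod p × ZMod p => P c.1) =
      (Finset.univ.filter P) ×ˢ (Finset.univ : Finset (ZMod p)) := by
    ext c
    simp
  rw [e, Finset.card_product, Finset.card_univ, ZMod.card]
  exact Nat.mul_le_mul_right p h

theorem cna_row2 {p : ℕ} [Fact p.Prime] (P : ZMod p → Prop) (N : ℕ)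
    (h : (Finset.univ.filter P).card ≤ N) :
    (Finset.univ.filter fun c : ZMod p × ZMod p => P c.2).card ≤ N * p := by
  have e : (Finset.univ.filter fun c : ZMod p × ZMod p => P c.2) =
      (Finset.univ : Finset (ZMod p)) ×ˢ (Finset.univ.filter P) := by
    ext c
    simp
  rw [e, Finset.card_product, Finset.card_univ, ZMod.card, mul_comm]
  exact Nat.mul_le_mul_right p h

theorem cna_mul {p : ℕ} [Fact p.Prime] (M : ℕ) {a : ZMod p} (ha : a ≠ 0) :
    (Finset.univ.filter fun u : ZMod p => ¬ InB M (a * u)).card ≤ 2 * M + 1 := by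
  refine le_trans (Finset.card_le_card_of_injOn (fun u => a * u) ?_ ?_) (card_not_InB (p := p) M)
  · intro u hu
    simpa using hu
  · intro u _ v _ h
    exact mul_left_cancel₀ ha h

/-- the four equations between two of the new squares -/
def cnaE {p : ℕ} (u v : ZMod p × ZMod p) : Prop :=
  mdiff u = mdiff v ∨ mdiff u = -mdiff v ∨ msum u = msum v ∨ msum u = -msum v

theorem cna_01 {p : ℕ} [Fact p.Prime] {a : ZMod p} (ha : a ≠ 0) (x y : ZMod p) :
    (Finset.univ.filter fun c : ZMod p × ZMod p => cnaE (nsq a x y c 0) (nsq a x y c 1)).card ≤ 4 * p := by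
  refine cna_or4 _ _ _ _ _ p (fun c h => h) (cna_inj1 _ ?_) (cna_inj1 _ ?_) (cna_inj1 _ ?_) (cna_inj1 _ ?_)
  · intro s t t' h1 h2
    have h1' : x - a * s = s - a * t := h1
    have h2' : x - a * s = s - a * t' := h2
    exact mul_left_cancel₀ ha (by linear_combination h1' - h2')
  · intro s t t' h1 h2
    have h1' : x - a * s = -(s - a * t) := h1
    have h2' : x - a * s = -(s - a * t') := h2
    exact mul_left_cancel₀ ha (by linear_combination h2' - h1')
  · intro s t t' h1 h2
    have h1' : x + a * s = s + a * t := h1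
    have h2' : x + a * s = s + a * t' := h2
    exact mul_left_cancel₀ ha (by linear_combination h2' - h1')
  · intro s t t' h1 h2
    have h1' : x + a * s = -(s + a * t) := h1
    have h2' : x + a * s = -(s + a * t') := h2
    exact mul_left_cancel₀ ha (by linear_combination h1' - h2')

theorem cna_02 {p : ℕ} [Fact p.Prime] {a : ZMod p} (ha : a ≠ 0) (x y : ZMod p) :
    (Finset.univ.filter fun c : ZMod p × ZMod p => cnaE (nsq a x y c 0) (nsq a x y c 2)).card ≤ 4 * p := by
  refine cna_or4 _ _ _ _ _ p (fun c h => h) (cna_inj1 _ ?_) (cna_inj1 _ ?_) (cna_inj1 _ ?_) (cna_inj1 _ ?_)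
  · intro s t t' h1 h2
    have h1' : x - a * s = t - y := h1
    have h2' : x - a * s = t' - y := h2
    linear_combination h2' - h1'
  · intro s t t' h1 h2
    have h1' : x - a * s = -(t - y) := h1
    have h2' : x - a * s = -(t' - y) := h2
    linear_combination h1' - h2'
  · intro s t t' h1 h2
    have h1' : x + a * s = t + y := h1
    have h2' : x + a * s = t' + y := h2
    linear_combination h2' - h1'
  · intro s t t' h1 h2
    have h1' : x + a * s = -(t + y) := h1
    have h2' : x + a * s = -(t' + y) := h2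
    linear_combination h1' - h2'

theorem cna_12 {p : ℕ} [Fact p.Prime] {a : ZMod p} (ha : a ≠ 0) (x y : ZMod p) :
    (Finset.univ.filter fun c : ZMod p × ZMod p => cnaE (nsq a x y c 1) (nsq a x y c 2)).card ≤ 4 * p := by
  refine cna_or4 _ _ _ _ _ p (fun c h => h) (cna_inj2 _ ?_) (cna_inj2 _ ?_) (cna_inj2 _ ?_) (cna_inj2 _ ?_)
  · intro s s' t h1 h2
    have h1' : s - a * t = t - y := h1
    have h2' : s' - a * t = t - y := h2
    linear_combination h1' - h2'
  · intro s s' t h1 h2
    have h1' : s - a * t = -(t - y) := h1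
    have h2' : s' - a * t = -(t - y) := h2
    linear_combination h1' - h2'
  · intro s s' t h1 h2
    have h1' : s + a * t = t + y := h1
    have h2' : s' + a * t = t + y := h2
    linear_combination h1' - h2'
  · intro s s' t h1 h2
    have h1' : s + a * t = -(t + y) := h1
    have h2' : s' + a * t = -(t + y) := h2
    linear_combination h1' - h2'

theorem cna_sym {p : ℕ} {u v : ZMod p × ZMod p} (h : cnaE u v) : cnaE v u := by
  rcases h with h | h | h | h
  · exact Or.inl h.symm
  · exact Or.inr (Or.inl (by rw [h, neg_neg]))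
  · exact Or.inr (Or.inr (Or.inl h.symm))
  · exact Or.inr (Or.inr (Or.inr (by rw [h, neg_neg])))

/-- Few choices are not admissible.
Proof: `¬ InB M s` or `¬ InB M (a s)`: at most `2 (2M+1)` values of `s` (`card_not_InB`), so `(4M+2) p` choices,
the same for `t`; `s = t`, `s = -t`: `2 p`; for each of the three unordered pairs `{i, j}` the four equations
have at most `p` solutions each (linear: `x - a s = ± (s - a t)` determines `t` from `s`;
`x - a s = ± (t - y)` determines `t` from `s`; `s - a t = ± (t - y)` determines `s` from `t`; the sums in the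
same way), in total `12 p`. -/
theorem not_adm_count {p : ℕ} [Fact p.Prime] (M : ℕ) {a : ZMod p} (ha : a ≠ 0) (x y : ZMod p) :
    (Finset.univ.filter fun c : ZMod p × ZMod p => ¬ Adm M a x y c).card ≤ (8 * M + 18) * p := by
  have b1 : (Finset.univ.filter fun c : ZMod p × ZMod p => ¬ InB M c.1).card ≤ (2 * M + 1) * p := by
    convert cna_row1 (p := p) (fun u => ¬ InB M u) (2 * M + 1) (by convert card_not_InB (p := p) M)
  have b2 : (Finset.univ.filter fun c : ZMod p × ZMod p => ¬ InB M (a * c.1)).card ≤ (2 * M + 1) * p := by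
    convert cna_row1 (p := p) (fun u => ¬ InB M (a * u)) (2 * M + 1) (by convert cna_mul (p := p) M ha)
  have b3 : (Finset.univ.filter fun c : ZMod p × ZMod p => ¬ InB M c.2).card ≤ (2 * M + 1) * p := by
    convert cna_row2 (p := p) (fun u => ¬ InB M u) (2 * M + 1) (by convert card_not_InB (p := p) M)
  have b4 : (Finset.univ.filter fun c : ZMod p × ZMod p => ¬ InB M (a * c.2)).card ≤ (2 * M + 1) * p := by
    convert cna_row2 (p := p) (fun u => ¬ InB M (a * u)) (2 * M + 1) (by convert cna_mul (p := p) M ha)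
  have b5 : (Finset.univ.filter fun c : ZMod p × ZMod p => c.1 = c.2).card ≤ p := by
    convert cna_inj1 (p := p) (fun c => c.1 = c.2) (fun s t t' h1 h2 => by
      have h1' : s = t := h1
      have h2' : s = t' := h2
      rw [← h1', ← h2'])
  have b6 : (Finset.univ.filter fun c : ZMod p × ZMod p => c.1 = -c.2).card ≤ p := by
    convert cna_inj1 (p := p) (fun c => c.1 = -c.2) (fun s t t' h1 h2 => by
      have h1' : s = -t := h1
      have h2' : s = -t' := h2
      exact neg_injective (by rw [← h1', ← h2']))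
  have b7 := cna_01 ha x y
  have b8 := cna_02 ha x y
  have b9 := cna_12 ha x y
  have hsub : (Finset.univ.filter fun c : ZMod p × ZMod p => ¬ Adm M a x y c) ⊆
      (Finset.univ.filter fun c : ZMod p × ZMod p => ¬ InB M c.1) ∪
      ((Finset.univ.filter fun c : ZMod p × ZMod p => ¬ InB M (a * c.1)) ∪
      ((Finset.univ.filter fun c : ZMod p × ZMod p => ¬ InB M c.2) ∪
      ((Finset.univ.filter fun c : ZMod p × ZMod p => ¬ InB M (a * c.2)) ∪
      ((Finset.univ.filter fun c : ZMod p × ZMod p => c.1 = c.2) ∪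
      ((Finset.univ.filter fun c : ZMod p × ZMod p => c.1 = -c.2) ∪
      ((Finset.univ.filter fun c : ZMod p × ZMod p => cnaE (nsq a x y c 0) (nsq a x y c 1)) ∪
      ((Finset.univ.filter fun c : ZMod p × ZMod p => cnaE (nsq a x y c 0) (nsq a x y c 2)) ∪
      (Finset.univ.filter fun c : ZMod p × ZMod p => cnaE (nsq a x y c 1) (nsq a x y c 2))))))))) := by
    intro c hc
    simp only [mem_filter, mem_univ, true_and] at hc
    by_contra hne
    simp only [mem_union, mem_filter, mem_univ, true_and, not_or, not_not] at hne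
    obtain ⟨h1, h2, h3, h4, h5, h6, h7, h8, h9⟩ := hne
    apply hc
    have key : ∀ i j : Fin 3, i ≠ j → ¬ cnaE (nsq a x y c i) (nsq a x y c j) := by
      intro i j hij
      have hcs : (i = 0 ∧ j = 1) ∨ (i = 0 ∧ j = 2) ∨ (i = 1 ∧ j = 2) ∨
          (i = 1 ∧ j = 0) ∨ (i = 2 ∧ j = 0) ∨ (i = 2 ∧ j = 1) := by
        revert i j
        decide
      rcases hcs with ⟨rfl, rfl⟩ | ⟨rfl, rfl⟩ | ⟨rfl, rfl⟩ | ⟨rfl, rfl⟩ | ⟨rfl, rfl⟩ | ⟨rfl, rfl⟩
      · exact h7
      · exact h8
      · exact h9
      · exact fun h => h7 (cna_sym h)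
      · exact fun h => h8 (cna_sym h)
      · exact fun h => h9 (cna_sym h)
    refine ⟨⟨h1, h2⟩, ⟨h3, h4⟩, h5, h6, fun i j hij => ?_⟩
    have h := key i j hij
    unfold cnaE at h
    simp only [not_or] at h
    exact h
  have u0 := Finset.card_le_card hsub
  have n1 := u0.trans (Finset.card_union_le _ _)
  have n2 := n1.trans (Nat.add_le_add b1 (Finset.card_union_le _ _))
  have n3 := n2.trans (Nat.add_le_add_left (Nat.add_le_add b2 (Finset.card_union_le _ _)) _)
  have n4 := n3.trans (Nat.add_le_add_left (Nat.add_le_add_left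
    (Nat.add_le_add b3 (Finset.card_union_le _ _)) _) _)
  have n5 := n4.trans (Nat.add_le_add_left (Nat.add_le_add_left (Nat.add_le_add_left
    (Nat.add_le_add b4 (Finset.card_union_le _ _)) _) _) _)
  have n6 := n5.trans (Nat.add_le_add_left (Nat.add_le_add_left (Nat.add_le_add_left (Nat.add_le_add_left
    (Nat.add_le_add b5 (Finset.card_union_le _ _)) _) _) _) _)
  have n7 := n6.trans (Nat.add_le_add_left (Nat.add_le_add_left (Nat.add_le_add_left (Nat.add_le_add_left
    (Nat.add_le_add_left (Nat.add_le_add b6 (Finset.card_union_le _ _)) _) _) _) _) _)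
  have n8 := n7.trans (Nat.add_le_add_left (Nat.add_le_add_left (Nat.add_le_add_left (Nat.add_le_add_left
    (Nat.add_le_add_left (Nat.add_le_add_left (Nat.add_le_add b7 ((Finset.card_union_le _ _).trans
    (Nat.add_le_add b8 b9))) _) _) _) _) _) _)
  refine n8.trans (le_of_eq ?_)
  ring

end Pool.Agent.MP_b34510_co
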