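import Pool.Agent.MP_b34510_co.SQ.E2

set_option autoImplicit false

open Finset Classical

namespace Pool.Agent.MP_b34510_co

/-- If `tent L (w - d) ≠ 0`, where `d` is the residue of `⌊p x⌋`, and `(L + 1) / p ≤ r`, then `fr w` is within
`r` of `x` modulo `1`.
Proof: there are `i, j < L` with `i - j = w - d` in `ZMod p`; so the integer `w.val - ⌊p x⌋ - (i - j)` is a
multiple `k p`, and `|fr w - x - k| ≤ (|i - j| + |p x - ⌊p x⌋|) / p < (L - 1 + 1) / p`. -/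
theorem near_of_tent {p : ℕ} [Fact p.Prime] {L : ℕ} {r x : ℝ} {w : ZMod p} (hr : ((L : ℝ) + 1) / p ≤ r)
    (h : tent L (w - ((⌊(p : ℝ) * x⌋ : ℤ) : ZMod p)) ≠ 0) : Near r x (fr w) := by
  have hp : 0 < p := (Fact.out : p.Prime).pos
  have hpR : (0 : ℝ) < p := by exact_mod_cast hp
  unfold tent at h
  obtain ⟨⟨i, j⟩, hij⟩ := Finset.card_ne_zero.1 h
  rw [mem_filter, mem_product, mem_range, mem_range] at hij
  obtain ⟨⟨hi, hj⟩, he⟩ := hij
  simp only at hi hj he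
  have hz : (((w.val : ℤ) - ⌊(p : ℝ) * x⌋ - ((i : ℤ) - j) : ℤ) : ZMod p) = 0 := by
    push_cast
    rw [ZMod.natCast_zmod_val, he, sub_self]
  rw [ZMod.intCast_zmod_eq_zero_iff_dvd] at hz
  obtain ⟨k, hk⟩ := hz
  refine ⟨k, ?_⟩
  have hk' : ((w.val : ℝ) - ⌊(p : ℝ) * x⌋ - ((i : ℝ) - j)) = p * k := by exact_mod_cast hk
  have h1 := Int.floor_le ((p : ℝ) * x)
  have h2 := Int.lt_floor_add_one ((p : ℝ) * x)
  have hi' : (i : ℝ) + 1 ≤ L := by exact_mod_cast hi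
  have hj' : (j : ℝ) + 1 ≤ L := by exact_mod_cast hj
  have hi0 : (0 : ℝ) ≤ i := Nat.cast_nonneg _
  have hj0 : (0 : ℝ) ≤ j := Nat.cast_nonneg _
  have e : fr w - x - k = ((i : ℝ) - j + ⌊(p : ℝ) * x⌋ - p * x) / p := by
    unfold fr
    rw [eq_div_iff hpR.ne']
    have e2 : ((w.val : ℝ) / p - x - k) * p = w.val - p * x - p * k := by
      field_simp
    rw [e2, ← hk']
    ring
  rw [e, abs_div, abs_of_pos hpR]
  refine lt_of_lt_of_le ?_ hr
  apply div_lt_div_of_pos_right _ hpR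
  rw [abs_lt]
  constructor <;> linarith

/-- `tent L u ≤ L`. Proof: for `L ≤ p` the first index determines the second. -/
theorem tent_le {p : ℕ} [Fact p.Prime] {L : ℕ} (hL : L ≤ p) (u : ZMod p) : tent L u ≤ L := by
  unfold tent
  have h : ((range L ×ˢ range L).filter fun ij : ℕ × ℕ =>
      ((ij.1 : ZMod p) - (ij.2 : ZMod p)) = u).card ≤ (range L).card := by
    apply Finset.card_le_card_of_injOn (fun ij => ij.1)
    · intro ij hij
      have := (mem_filter.1 hij).1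
      exact (mem_product.1 this).1
    · intro a ha b hb hab
      have ha' := mem_filter.1 (mem_coe.1 ha)
      have hb' := mem_filter.1 (mem_coe.1 hb)
      have ha2 := mem_range.1 (mem_product.1 ha'.1).2
      have hb2 := mem_range.1 (mem_product.1 hb'.1).2
      simp only at hab
      have h1 := ha'.2
      rw [← hb'.2, hab] at h1
      have h2 : (a.2 : ZMod p) = (b.2 : ZMod p) := sub_right_injective h1
      rw [ZMod.natCast_eq_natCast_iff, Nat.ModEq, Nat.mod_eq_of_lt (lt_of_lt_of_le ha2 hL),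
        Nat.mod_eq_of_lt (lt_of_lt_of_le hb2 hL)] at h2
      exact Prod.ext hab h2
  rwa [card_range] at h

/-- Equidistribution, real form.
Proof: let `L = ⌊r p⌋ - 1` (so `(L + 1)/p ≤ r`, and `L ≥ r p / 2` for `p ≥ 4 / r`, `L ≤ p`), and
`K = ⌈128 / r⁵⌉ + 1`.  By `tent_count` with `d j = ⌊p x_j⌋` the sum is at least
`L³ (L⁵ / p³ - 2 p² / K) ≥ L³ p² (r⁵ / 32 - r⁵ / 64) = L³ p² r⁵ / 64`.  Each term is at most `L⁴` and is `0`
unless `t` is counted (`near_of_tent`), so the number of `t` is at least `p² r⁵ / (64 L) ≥ p r⁴ / 64`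
(`L ≤ r p`). -/
theorem equi (r : ℝ) (hr : 0 < r) (hr1 : r < 1 / 2) :
    ∃ (K : ℕ) (c₀ : ℝ) (p₀ : ℕ), 0 < c₀ ∧ ∀ p : ℕ, ∀ [Fact p.Prime], p₀ ≤ p → ∀ c : Fin 4 → ZMod p,
      Indep K c → ∀ x : Fin 4 → ℝ,
        c₀ * p ≤ (((Finset.univ.filter fun t : ZMod p => ∀ j, Near r (x j) (fr (c j * t))).card : ℕ) : ℝ) := by
  refine ⟨⌈128 / r ^ 5⌉₊ + 1, r ^ 4 / 64, ⌈4 / r⌉₊, by positivity, ?_⟩
  intro p _ hp c hc x
  have hr5 : 0 < r ^ 5 := by positivity
  have hpp : 0 < p := (Fact.out : p.Prime).pos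
  have hpR : (0 : ℝ) < p := by exact_mod_cast hpp
  have hrp : 4 ≤ r * p := by
    have h1 : 4 / r ≤ p := (Nat.le_ceil _).trans (by exact_mod_cast hp)
    rw [div_le_iff₀ hr] at h1
    linarith
  set K : ℕ := ⌈128 / r ^ 5⌉₊ + 1 with hK
  have hK0 : 0 < K := Nat.succ_pos _
  have hKR : 128 / r ^ 5 ≤ K := by
    rw [hK]
    push_cast
    linarith [Nat.le_ceil (128 / r ^ 5)]
  have hKpos : (0 : ℝ) < K := by exact_mod_cast hK0
  set L : ℕ := ⌊r * p⌋₊ - 1 with hL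
  have hfl : 4 ≤ ⌊r * p⌋₊ := Nat.le_floor (by exact_mod_cast hrp)
  have hL1 : L + 1 = ⌊r * p⌋₊ := by omega
  have hLR : (L : ℝ) + 1 = (⌊r * p⌋₊ : ℝ) := by exact_mod_cast hL1
  have hLle : (L : ℝ) + 1 ≤ r * p := by
    rw [hLR]
    exact Nat.floor_le (by positivity)
  have hLge : r * p / 2 ≤ L := by
    have h1 := Nat.lt_floor_add_one (r * p)
    rw [← hLR] at h1
    linarith
  have hL0 : (0 : ℝ) < L := by linarith
  have hLp : L ≤ p := by
    have h1 : (L : ℝ) ≤ p := by nlinarith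
    exact_mod_cast h1
  have hmain := tent_count hLp hK0 c (fun j => ((⌊(p : ℝ) * x j⌋ : ℤ) : ZMod p)) hc
  set S : Finset (ZMod p) := Finset.univ.filter fun t : ZMod p => ∀ j, Near r (x j) (fr (c j * t))
    with hS
  have hLr : ((L : ℝ) + 1) / p ≤ r := by
    rw [div_le_iff₀ hpR]
    exact hLle
  -- the upper bound
  have hup : (∑ t : ZMod p, ∏ j, tent L (c j * t - ((⌊(p : ℝ) * x j⌋ : ℤ) : ZMod p))) ≤
      S.card * L ^ 4 := by
    have h1 : (∑ t : ZMod p, ∏ j, tent L (c j * t - ((⌊(p : ℝ) * x j⌋ : ℤ) : ZMod p))) =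
        ∑ t ∈ S, ∏ j, tent L (c j * t - ((⌊(p : ℝ) * x j⌋ : ℤ) : ZMod p)) := by
      symm
      apply Finset.sum_subset (Finset.subset_univ _)
      intro t _ ht
      by_contra hne
      apply ht
      rw [hS, mem_filter]
      refine ⟨mem_univ _, fun j => ?_⟩
      exact near_of_tent hLr (fun h0 => hne (Finset.prod_eq_zero (mem_univ j) h0))
    rw [h1]
    refine (Finset.sum_le_card_nsmul S _ (L ^ 4) ?_).trans_eq (by rw [smul_eq_mul])
    intro t _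
    refine (Finset.prod_le_prod' (fun j _ => tent_le hLp _)).trans_eq ?_
    rw [Finset.prod_const, card_univ, Fintype.card_fin]
  have hupR : ((∑ t : ZMod p, ∏ j, tent L (c j * t - ((⌊(p : ℝ) * x j⌋ : ℤ) : ZMod p)) : ℕ) : ℝ) ≤
      S.card * (L : ℝ) ^ 4 := by exact_mod_cast hup
  have h3 : (L : ℝ) ^ 3 * (p ^ 2 * r ^ 5 / 64) ≤ S.card * (L : ℝ) ^ 4 := by
    refine le_trans ?_ (hmain.trans hupR)
    have e1 : (L : ℝ) ^ 8 / p ^ 3 - 2 * p ^ 2 * L ^ 3 / K =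
        (L : ℝ) ^ 3 * ((L : ℝ) ^ 5 / p ^ 3 - 2 * p ^ 2 / K) := by ring
    rw [e1]
    apply mul_le_mul_of_nonneg_left _ (by positivity)
    have h4 : p ^ 2 * r ^ 5 / 32 ≤ (L : ℝ) ^ 5 / p ^ 3 := by
      rw [le_div_iff₀ (by positivity)]
      have h5 : (r * p / 2) ^ 5 ≤ (L : ℝ) ^ 5 := pow_le_pow_left₀ (by positivity) hLge 5
      calc p ^ 2 * r ^ 5 / 32 * p ^ 3 = (r * p / 2) ^ 5 := by ring
        _ ≤ (L : ℝ) ^ 5 := h5
    have h6 : 2 * (p : ℝ) ^ 2 / K ≤ p ^ 2 * r ^ 5 / 64 := by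
      rw [div_le_iff₀ hKpos]
      rw [div_le_iff₀ hr5] at hKR
      have h7 : (p : ℝ) ^ 2 * 128 ≤ p ^ 2 * (K * r ^ 5) :=
        mul_le_mul_of_nonneg_left hKR (by positivity)
      linarith
    linarith
  have h8 : p ^ 2 * r ^ 5 / 64 ≤ S.card * (L : ℝ) := by
    have h9 : (L : ℝ) ^ 3 * (p ^ 2 * r ^ 5 / 64) ≤ (L : ℝ) ^ 3 * (S.card * (L : ℝ)) := by
      linarith [show (L : ℝ) ^ 3 * (S.card * (L : ℝ)) = S.card * (L : ℝ) ^ 4 by ring]
    exact le_of_mul_le_mul_left h9 (by positivity)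
  have h10 : (S.card : ℝ) * L ≤ S.card * (r * p) :=
    mul_le_mul_of_nonneg_left (by linarith) (Nat.cast_nonneg _)
  have h11 : (r * p) * (r ^ 4 / 64 * p) ≤ (r * p) * S.card := by
    calc (r * p) * (r ^ 4 / 64 * p) = p ^ 2 * r ^ 5 / 64 := by ring
      _ ≤ S.card * (r * p) := h8.trans h10
      _ = (r * p) * S.card := by ring
  exact le_of_mul_le_mul_left h11 (by positivity)

end Pool.Agent.MP_b34510_co
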