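import Pool.Agent.MP_b34510_co.SQ.Defs

set_option autoImplicit false

namespace Pool.Agent.MP_b34510_co

/-- Extreme positions: `x = min ξ (1 - ξ)`. -/
theorem extreme_GP (ξ : ℝ) (h0 : 0 ≤ ξ) (h1 : ξ ≤ 1) :
    ∃ x : ℝ, 0 ≤ x ∧ x ≤ 1 / 2 ∧ |ξ - 1 / 2| = 1 / 2 - x ∧
      (∃ z : ℝ, 1 / 100 ≤ z ∧ z ≤ 99 / 100 ∧ 1 / 25 ≤ |ξ - z| ∧ x - 1 / 100 ≤ |ξ - z| ∧
        49 / 100 ≤ |ξ + z - 1| ∧ (99 / 100 - x ≤ |ξ + z - 1| ∨ 85 / 100 ≤ |ξ + z - 1|)) ∧
      (∃ z : ℝ, 1 / 100 ≤ z ∧ z ≤ 99 / 100 ∧ 1 / 25 ≤ |ξ + z - 1| ∧ x - 1 / 100 ≤ |ξ + z - 1| ∧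
        49 / 100 ≤ |ξ - z| ∧ (99 / 100 - x ≤ |ξ - z| ∨ 85 / 100 ≤ |ξ - z|)) := by
  by_cases hh : ξ ≤ 1 / 2
  · refine ⟨ξ, h0, hh, by rw [abs_of_nonpos (by linarith)]; ring, ?_⟩
    by_cases hs : 1 / 20 ≤ ξ
    · have p1 : |ξ - 1 / 100| = ξ - 1 / 100 := abs_of_nonneg (by linarith)
      have p2 : |ξ + 1 / 100 - 1| = 99 / 100 - ξ := by
        rw [abs_of_nonpos (by linarith)]; ring
      have p3 : |ξ - 99 / 100| = 99 / 100 - ξ := by
        rw [abs_of_nonpos (by linarith)]; ring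
      have p4 : |ξ + 99 / 100 - 1| = ξ - 1 / 100 := by
        rw [abs_of_nonneg (by linarith)]; ring
      refine ⟨⟨1 / 100, by norm_num, by norm_num, ?_, ?_, ?_, ?_⟩,
        ⟨99 / 100, by norm_num, by norm_num, ?_, ?_, ?_, ?_⟩⟩
      · rw [p1]; linarith
      · rw [p1]
      · rw [p2]; linarith
      · left; rw [p2]
      · rw [p4]; linarith
      · rw [p4]
      · rw [p3]; linarith
      · left; rw [p3]
    · push Not at hs
      have p1 : |ξ - 1 / 10| = 1 / 10 - ξ := by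
        rw [abs_of_nonpos (by linarith)]; ring
      have p2 : |ξ + 1 / 10 - 1| = 9 / 10 - ξ := by
        rw [abs_of_nonpos (by linarith)]; ring
      have p3 : |ξ - 9 / 10| = 9 / 10 - ξ := by
        rw [abs_of_nonpos (by linarith)]; ring
      have p4 : |ξ + 9 / 10 - 1| = 1 / 10 - ξ := by
        rw [abs_of_nonpos (by linarith)]; ring
      refine ⟨⟨1 / 10, by norm_num, by norm_num, ?_, ?_, ?_, ?_⟩,
        ⟨9 / 10, by norm_num, by norm_num, ?_, ?_, ?_, ?_⟩⟩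
      · rw [p1]; linarith
      · rw [p1]; linarith
      · rw [p2]; linarith
      · right; rw [p2]; linarith
      · rw [p4]; linarith
      · rw [p4]; linarith
      · rw [p3]; linarith
      · right; rw [p3]; linarith
  · push Not at hh
    refine ⟨1 - ξ, by linarith, by linarith, by rw [abs_of_pos (by linarith)]; ring, ?_⟩
    by_cases hs : 1 / 20 ≤ 1 - ξ
    · have p1 : |ξ - 1 / 100| = ξ - 1 / 100 := abs_of_nonneg (by linarith)
      have p2 : |ξ + 1 / 100 - 1| = 99 / 100 - ξ := by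
        rw [abs_of_nonpos (by linarith)]; ring
      have p3 : |ξ - 99 / 100| = 99 / 100 - ξ := by
        rw [abs_of_nonpos (by linarith)]; ring
      have p4 : |ξ + 99 / 100 - 1| = ξ - 1 / 100 := by
        rw [abs_of_nonneg (by linarith)]; ring
      refine ⟨⟨99 / 100, by norm_num, by norm_num, ?_, ?_, ?_, ?_⟩,
        ⟨1 / 100, by norm_num, by norm_num, ?_, ?_, ?_, ?_⟩⟩
      · rw [p3]; linarith
      · rw [p3]; linarith
      · rw [p4]; linarith
      · left; rw [p4]; linarith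
      · rw [p2]; linarith
      · rw [p2]; linarith
      · rw [p1]; linarith
      · left; rw [p1]; linarith
    · push Not at hs
      have p1 : |ξ - 1 / 10| = ξ - 1 / 10 := abs_of_nonneg (by linarith)
      have p2 : |ξ + 1 / 10 - 1| = ξ - 9 / 10 := by
        rw [abs_of_nonneg (by linarith)]; ring
      have p3 : |ξ - 9 / 10| = ξ - 9 / 10 := abs_of_nonneg (by linarith)
      have p4 : |ξ + 9 / 10 - 1| = ξ - 1 / 10 := by
        rw [abs_of_nonneg (by linarith)]; ring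
      refine ⟨⟨9 / 10, by norm_num, by norm_num, ?_, ?_, ?_, ?_⟩,
        ⟨1 / 10, by norm_num, by norm_num, ?_, ?_, ?_, ?_⟩⟩
      · rw [p3]; linarith
      · rw [p3]; linarith
      · rw [p4]; linarith
      · right; rw [p4]; linarith
      · rw [p2]; linarith
      · rw [p2]; linarith
      · rw [p1]; linarith
      · right; rw [p1]; linarith

/-- Choice of two positions.  Proof: let `ξ' = min ξ (1 - ξ)`, `η' = min η (1 - η)`.  Extreme positions:
if `1/20 ≤ ξ'`, the positions `1/100` and `99/100` give for `(|ξ - z|, |ξ + z - 1|)` the pair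
`(ξ' - 1/100, 99/100 - ξ')` and the swapped pair (which of them depends on `ξ ≤ 1/2`); if `ξ' < 1/20`, the
positions `1/10`, `9/10` give `(1/10 - ξ', 9/10 - ξ')` and the swapped pair.  So in all cases there is a
position with first entry `≥ max (1/25) (ξ' - 1/100)` and second entry
`≥ 99/100 - ξ'` (or `≥ 85/100` if `ξ' < 1/20`), and one with the entries swapped.  The position `1/2` gives
`(1/2 - ξ', 1/2 - ξ')`.
Case `|ξ' - η'| ≤ 1/4`: (small, big) for `ξ` and (big, small) for `η`.  Case `ξ' - η' > 1/4`: `t = 1/2`, and an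
extreme position for `ξ`.  Case `η' - ξ' > 1/4`: `z = 1/2`, and an extreme position for `η`.  All sums are at
least `0.73`. -/
theorem choosepos (ξ η : ℝ) (hξ0 : 0 ≤ ξ) (hξ1 : ξ ≤ 1) (hη0 : 0 ≤ η) (hη1 : η ≤ 1) :
    ∃ z t : ℝ, (1 / 100 ≤ z ∧ z ≤ 99 / 100) ∧ (1 / 100 ≤ t ∧ t ≤ 99 / 100) ∧
      1 / 25 ≤ |ξ - z| ∧ 1 / 25 ≤ |ξ + z - 1| ∧ 1 / 25 ≤ |t - η| ∧ 1 / 25 ≤ |t + η - 1| ∧
      7 / 10 ≤ |ξ - z| + |t - η| ∧ 7 / 10 ≤ |ξ + z - 1| + |t + η - 1| := by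
  obtain ⟨x, hx0, hx1, hxm, ⟨z1, hz1, hz1', a1, a2, a3, a4⟩, z2, hz2, hz2', b1, b2, b3, b4⟩ :=
    extreme_GP ξ hξ0 hξ1
  obtain ⟨y, hy0, hy1, hym, ⟨t1, ht1, ht1', c1, c2, c3, c4⟩, t2, ht2, ht2', d1, d2, d3, d4⟩ :=
    extreme_GP η hη0 hη1
  have e1 : |t1 - η| = |η - t1| := abs_sub_comm _ _
  have e2 : |t2 - η| = |η - t2| := abs_sub_comm _ _
  have e3 : |t1 + η - 1| = |η + t1 - 1| := by rw [add_comm t1 η]
  have e4 : |t2 + η - 1| = |η + t2 - 1| := by rw [add_comm t2 η]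
  by_cases h1 : |x - y| ≤ 1 / 4
  · have h2 := abs_le.1 h1
    refine ⟨z1, t2, ⟨hz1, hz1'⟩, ⟨ht2, ht2'⟩, a1, by linarith, by rw [e2]; linarith,
      by rw [e4]; linarith, ?_, ?_⟩
    · rw [e2]
      rcases d4 with h | h <;> linarith
    · rw [e4]
      rcases a4 with h | h <;> linarith
  · by_cases h3 : 0 ≤ x - y
    · rw [abs_of_nonneg h3] at h1
      push Not at h1
      have f1 : |(1 : ℝ) / 2 - η| = 1 / 2 - y := by rw [abs_sub_comm, hym]
      have f2 : |(1 : ℝ) / 2 + η - 1| = 1 / 2 - y := by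
        rw [show (1 : ℝ) / 2 + η - 1 = η - 1 / 2 by ring, hym]
      refine ⟨z1, 1 / 2, ⟨hz1, hz1'⟩, ⟨by norm_num, by norm_num⟩, a1, by linarith,
        by rw [f1]; linarith, by rw [f2]; linarith, by rw [f1]; linarith, by rw [f2]; linarith⟩
    · rw [abs_of_neg (not_le.1 h3)] at h1
      push Not at h1
      have f1 : |ξ - (1 : ℝ) / 2| = 1 / 2 - x := hxm
      have f2 : |ξ + (1 : ℝ) / 2 - 1| = 1 / 2 - x := by
        rw [show ξ + (1 : ℝ) / 2 - 1 = ξ - 1 / 2 by ring, hxm]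
      refine ⟨1 / 2, t1, ⟨by norm_num, by norm_num⟩, ⟨ht1, ht1'⟩, by rw [f1]; linarith,
        by rw [f2]; linarith, by rw [e1]; linarith, by rw [e3]; linarith,
        by rw [f1, e1]; linarith, by rw [f2, e3]; linarith⟩

end Pool.Agent.MP_b34510_co
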