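import Pool.Agent.MP_b34510_co.SQ.G0
import Pool.Agent.MP_b34510_co.SQ.GP

set_option autoImplicit false

namespace Pool.Agent.MP_b34510_co

/-- The geometric lemma.
Proof: take `z, t` from `choosepos`, `s = 1/2`, `w = 1/20`.  From `choose2` (with `e = ξ - z`, `e' = t - η`,
`τ = s + t + κ2 - κ1`, `c = 1/100`) get `x1, x3, k`, and put `α = κ2 - x1`, `γ = κ1 + x3`; from `choose2`
(with `e = ξ + z - 1`, `e' = t + η - 1`, `τ = s + t + κ3 + κ4`, `c = -43/100`) get `x2, x4, k'`, and put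
`β = x2 - κ3`, `δ = x4 - κ4`.  Then the arcs (1), (2), (5), (6) follow from `arc_of_shr`
(`κ2 - α'` is near `κ2 - α = x1`, and so on).  For (3): `s + t + α - γ - k ∈ [1/100, 43/100]`, the four
perturbations change it by less than `4/400`, so the value is in `(0, 44/100)`, and
`s' - w' > 45/100 - 2/400 > 44/100`.  For (4): `s + t - β - δ - k' ∈ [-43/100, -1/100]`, after perturbation
in `(-44/100, 0)`, and `s' + w' - 1 < -45/100 + 2/400 < -44/100`. -/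
theorem geo (ξ η κ1 κ2 κ3 κ4 : ℝ) (hξ0 : 0 ≤ ξ) (hξ1 : ξ ≤ 1) (hη0 : 0 ≤ η) (hη1 : η ≤ 1) :
    ∃ z α β s w t γ δ : ℝ, (1 / 100 ≤ z ∧ z ≤ 99 / 100) ∧ (1 / 100 ≤ s ∧ s ≤ 99 / 100) ∧
      (1 / 100 ≤ w ∧ w ≤ 99 / 100) ∧ (1 / 100 ≤ t ∧ t ≤ 99 / 100) ∧
      ∀ z' α' β' s' w' t' γ' δ' : ℝ, |z' - z| < 1 / 400 → Near (1 / 400) α α' → Near (1 / 400) β β' →
        |s' - s| < 1 / 400 → |w' - w| < 1 / 400 → |t' - t| < 1 / 400 → Near (1 / 400) γ γ' →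
        Near (1 / 400) δ δ' →
        Arc (ξ - z') (κ2 - α') ∧ Arc (ξ + z' - 1) (κ3 + β') ∧
        Arc (s' - w') (s' + t' + α' - γ') ∧ Arc (s' + w' - 1) (s' + t' - β' - δ') ∧
        Arc (t' - η) (γ' - κ1) ∧ Arc (t' + η - 1) (δ' + κ4) := by
  obtain ⟨z, t, hz, ht, h1, h2, h3, h4, h5, h6⟩ := choosepos ξ η hξ0 hξ1 hη0 hη1
  obtain ⟨x1, x3, k, hx1, hx3, ha, hb⟩ :=
    choose2 (ξ - z) (t - η) (1 / 2 + t + κ2 - κ1) (1 / 100) h1 h3 h5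
  obtain ⟨x2, x4, k', hx2, hx4, hc, hd⟩ :=
    choose2 (ξ + z - 1) (t + η - 1) (1 / 2 + t + κ3 + κ4) (-43 / 100) h2 h4 h6
  refine ⟨z, κ2 - x1, x2 - κ3, 1 / 2, 1 / 20, t, κ1 + x3, x4 - κ4, hz, by norm_num, by norm_num, ht, ?_⟩
  rintro z' α' β' s' w' t' γ' δ' hz' ⟨ka, hα⟩ ⟨kb, hβ⟩ hs' hw' ht' ⟨kc, hγ⟩ ⟨kd, hδ⟩
  rw [abs_lt] at hz' hα hβ hs' hw' ht' hγ hδ
  refine ⟨arc_of_shr hx1 ?_ ⟨-ka, ?_⟩, arc_of_shr hx2 ?_ ⟨kb, ?_⟩, ⟨k + ka - kc, Or.inl ⟨?_, ?_⟩⟩,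
    ⟨k' - kb - kd, Or.inr ⟨?_, ?_⟩⟩, arc_of_shr hx3 ?_ ⟨kc, ?_⟩, arc_of_shr hx4 ?_ ⟨kd, ?_⟩⟩
  all_goals first
    | (rw [abs_lt]; push_cast; constructor <;> linarith)
    | (push_cast; linarith)

end Pool.Agent.MP_b34510_co
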