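import Pool.Agent.MP_b34510_co.SQ.F1
import Pool.Agent.MP_b34510_co.SQ.G1
import Pool.Agent.MP_b34510_co.SQ.E3

set_option autoImplicit false

open Finset Classical

namespace Pool.Agent.MP_b34510_co

section
variable {p : ℕ} [Fact p.Prime]

theorem LG_p0 : (0 : ℝ) < p := by exact_mod_cast (Fact.out : p.Prime).pos

theorem LG_fr0 (u : ZMod p) : 0 ≤ fr u := by
  unfold fr
  positivity

theorem LG_fr1 (u : ZMod p) : fr u < 1 := by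
  unfold fr
  rw [div_lt_one LG_p0]
  exact_mod_cast ZMod.val_lt u

theorem LG_zero : fr (0 : ZMod p) = 0 := by
  unfold fr
  rw [ZMod.val_zero]
  simp

theorem LG_add (u v : ZMod p) : ∃ k : ℤ, fr (u + v) = fr u + fr v + k := by
  have hp := LG_p0 (p := p)
  obtain ⟨D, hD⟩ : ∃ D : ℕ, D = (u.val + v.val) / p := ⟨_, rfl⟩
  refine ⟨-(D : ℤ), ?_⟩
  unfold fr
  rw [ZMod.val_add, Int.cast_neg, Int.cast_natCast]
  have h0 := Nat.mod_add_div (u.val + v.val) p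
  rw [← hD] at h0
  have h1 : (((u.val + v.val) % p : ℕ) : ℝ) + p * (D : ℝ) = (u.val : ℝ) + v.val := by
    exact_mod_cast h0
  rw [← add_div, ← sub_eq_add_neg, eq_sub_iff_add_eq, div_add' _ _ _ hp.ne']
  congr 1
  linarith

theorem LG_neg (u : ZMod p) : ∃ k : ℤ, fr (-u) = -fr u + k := by
  obtain ⟨k, hk⟩ := LG_add u (-u)
  rw [add_neg_cancel, LG_zero] at hk
  exact ⟨-k, by push_cast; linarith⟩

theorem LG_sub (u v : ZMod p) : ∃ k : ℤ, fr (u - v) = fr u - fr v + k := by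
  obtain ⟨k, hk⟩ := LG_add u (-v)
  obtain ⟨l, hl⟩ := LG_neg v
  rw [← sub_eq_add_neg] at hk
  exact ⟨k + l, by push_cast; linarith⟩

theorem LG_arc {e ρ ρ' : ℝ} (h : Arc e ρ) (k : ℤ) (hk : ρ' = ρ + k) : Arc e ρ' := by
  obtain ⟨l, hl⟩ := h
  refine ⟨l + k, ?_⟩
  rw [hk]
  push_cast
  rcases hl with ⟨h1, h2⟩ | ⟨h1, h2⟩
  · left
    constructor <;> linarith
  · right
    constructor <;> linarith

theorem LG_pos {c : ℝ} (hc : 1 / 100 ≤ c ∧ c ≤ 99 / 100) {u : ZMod p} (h : Near (1 / 400) c (fr u)) :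
    |fr u - c| < 1 / 400 ∧ u ≠ 0 := by
  obtain ⟨k, hk⟩ := h
  have h0 := LG_fr0 u
  have h1 := LG_fr1 u
  obtain ⟨h2, h3⟩ := abs_lt.1 hk
  have h4 : (k : ℝ) < 1 := by linarith [hc.1]
  have h5 : (-1 : ℝ) < k := by linarith [hc.2]
  have h6 : k < 1 := by exact_mod_cast h4
  have h7 : -1 < k := by exact_mod_cast h5
  have h8 : k = 0 := by omega
  rw [h8, Int.cast_zero, sub_zero] at hk
  refine ⟨hk, ?_⟩
  rintro rfl
  rw [LG_zero] at hk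
  obtain ⟨h9, h10⟩ := abs_lt.1 hk
  linarith [hc.1]

end

/-- Two-step paths of free squares.
Proof: `K, c₀, p₀` from `equi (1/400)` (also `p₀ ≥ 1`).  Let `a` be generic, `x, y ≠ 0`.  Apply `geo` with
`ξ = fr x`, `η = fr y`, `κ1 = fr (y (1-a)⁻¹)`, `κ2 = fr (x (1-a)⁻¹)`, `κ3 = fr (x (1+a)⁻¹)`,
`κ4 = fr (y (1+a)⁻¹)`.  Let `W₁` be the set of `s` with `fr (a s)`, `fr (a (1-a)⁻¹ s)`, `fr (a (1+a)⁻¹ s)`,
`fr s` near `z, α, β, s` (radius `1/400`) and `W₂` the set of `t` with `fr (a t)`, `fr t`,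
`fr ((1-a)⁻¹ t)`, `fr ((1+a)⁻¹ t)` near `w, t, γ, δ`; by `equi` both have at least `c₀ p` elements (the two
vectors in `Gen`).  For positions, `Near` with a centre in `[1/100, 99/100]` and a value in `[0, 1)` means
`|value - centre| < 1/400`; in particular `s, t, a s, a t ≠ 0`.  Now `geo` gives the six arcs; transfer them
by the fact that `fr` is additive modulo integers (`fr (u + v) = fr u + fr v + integer`, `fr (-u) = - fr u +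
integer`; `Arc e ρ` depends on `ρ` modulo `1` only) and the identities
`(x - a s)(1-a)⁻¹ = x (1-a)⁻¹ - a (1-a)⁻¹ s`, `(x + a s)(1+a)⁻¹ = x (1+a)⁻¹ + a (1+a)⁻¹ s`,
`(s - a t)(1-a)⁻¹ = s + t + a (1-a)⁻¹ s - (1-a)⁻¹ t`,
`(s + a t)(1+a)⁻¹ = s + t - a (1+a)⁻¹ s - (1+a)⁻¹ t`,
`(t - y)(1-a)⁻¹ = (1-a)⁻¹ t - y (1-a)⁻¹`, `(t + y)(1+a)⁻¹ = (1+a)⁻¹ t + y (1+a)⁻¹`, and apply
`free_of_arc` to the squares `(x, a s)`, `(s, a t)`, `(t, y)`. -/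
theorem lemmaG : ∃ (K : ℕ) (c₀ : ℝ) (p₀ : ℕ), 0 < c₀ ∧ ∀ p : ℕ, ∀ [Fact p.Prime], p₀ ≤ p →
    ∀ a : ZMod p, Gen K a → ∀ x y : ZMod p, x ≠ 0 → y ≠ 0 → ∃ W₁ W₂ : Finset (ZMod p),
      c₀ * p ≤ ((W₁.card : ℕ) : ℝ) ∧ c₀ * p ≤ ((W₂.card : ℕ) : ℝ) ∧ ∀ s ∈ W₁, ∀ t ∈ W₂,
        Free a (x, a * s) ∧ Free a (s, a * t) ∧ Free a (t, y) := by
  obtain ⟨K, c₀, p₀, hc₀, hequi⟩ := equi (1 / 400) (by norm_num) (by norm_num)
  refine ⟨K, c₀, p₀, hc₀, ?_⟩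
  intro p _ hp a hgen x y hx hy
  obtain ⟨ha0, ha1, ha2, hI1, hI2⟩ := hgen
  have hs1 : (1 - a) ≠ 0 := sub_ne_zero.2 (Ne.symm ha1)
  have hs2 : (1 + a) ≠ 0 := by
    intro h
    exact ha2 (by linear_combination h)
  obtain ⟨z, α, β, s0, w, t0, γ, δ, hz, hs0, hw, ht0, H⟩ := geo (fr x) (fr y) (fr (y * (1 - a)⁻¹))
    (fr (x * (1 - a)⁻¹)) (fr (x * (1 + a)⁻¹)) (fr (y * (1 + a)⁻¹)) (LG_fr0 x) (LG_fr1 x).le
    (LG_fr0 y) (LG_fr1 y).le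
  refine ⟨Finset.univ.filter fun s : ZMod p => ∀ j, Near (1 / 400) ((![z, α, β, s0] : Fin 4 → ℝ) j)
      (fr ((![a, a * (1 - a)⁻¹, a * (1 + a)⁻¹, 1] : Fin 4 → ZMod p) j * s)),
    Finset.univ.filter fun t : ZMod p => ∀ j, Near (1 / 400) ((![w, t0, γ, δ] : Fin 4 → ℝ) j)
      (fr ((![a, 1, (1 - a)⁻¹, (1 + a)⁻¹] : Fin 4 → ZMod p) j * t)),
    hequi p hp _ hI1 _, hequi p hp _ hI2 _, ?_⟩
  intro s hs t ht
  have hs' := (Finset.mem_filter.1 hs).2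
  have ht' := (Finset.mem_filter.1 ht).2
  have a0 : Near (1 / 400) z (fr (a * s)) := hs' 0
  have a1 : Near (1 / 400) α (fr (a * (1 - a)⁻¹ * s)) := hs' 1
  have a2 : Near (1 / 400) β (fr (a * (1 + a)⁻¹ * s)) := hs' 2
  have a3 : Near (1 / 400) s0 (fr (1 * s)) := hs' 3
  have b0 : Near (1 / 400) w (fr (a * t)) := ht' 0
  have b1 : Near (1 / 400) t0 (fr (1 * t)) := ht' 1
  have b2 : Near (1 / 400) γ (fr ((1 - a)⁻¹ * t)) := ht' 2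
  have b3 : Near (1 / 400) δ (fr ((1 + a)⁻¹ * t)) := ht' 3
  rw [one_mul] at a3 b1
  obtain ⟨a0', nas⟩ := LG_pos hz a0
  obtain ⟨a3', ns⟩ := LG_pos hs0 a3
  obtain ⟨b0', nat'⟩ := LG_pos hw b0
  obtain ⟨b1', nt⟩ := LG_pos ht0 b1
  obtain ⟨e1, e2, e3, e4, e5, e6⟩ := H (fr (a * s)) (fr (a * (1 - a)⁻¹ * s)) (fr (a * (1 + a)⁻¹ * s))
    (fr s) (fr (a * t)) (fr t) (fr ((1 - a)⁻¹ * t)) (fr ((1 + a)⁻¹ * t)) a0' a1 a2 a3' b0' b1' b2 b3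
  refine ⟨?_, ?_, ?_⟩
  · refine free_of_arc ha1 ha2 hx nas ?_ ?_
    · obtain ⟨k, hk⟩ := LG_sub (x * (1 - a)⁻¹) (a * (1 - a)⁻¹ * s)
      refine LG_arc e1 k ?_
      rw [← hk]
      congr 1
      ring
    · obtain ⟨k, hk⟩ := LG_add (x * (1 + a)⁻¹) (a * (1 + a)⁻¹ * s)
      refine LG_arc e2 k ?_
      rw [← hk]
      congr 1
      ring
  · refine free_of_arc ha1 ha2 ns nat' ?_ ?_
    · obtain ⟨k1, hk1⟩ := LG_add s t
      obtain ⟨k2, hk2⟩ := LG_add (s + t) (a * (1 - a)⁻¹ * s)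
      obtain ⟨k3, hk3⟩ := LG_sub (s + t + a * (1 - a)⁻¹ * s) ((1 - a)⁻¹ * t)
      refine LG_arc e3 (k1 + k2 + k3) ?_
      have h1 : (s - a * t) * (1 - a)⁻¹ = s + t + a * (1 - a)⁻¹ * s - (1 - a)⁻¹ * t := by
        field_simp
        ring
      rw [h1, hk3, hk2, hk1]
      push_cast
      ring
    · obtain ⟨k1, hk1⟩ := LG_add s t
      obtain ⟨k2, hk2⟩ := LG_sub (s + t) (a * (1 + a)⁻¹ * s)
      obtain ⟨k3, hk3⟩ := LG_sub (s + t - a * (1 + a)⁻¹ * s) ((1 + a)⁻¹ * t)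
      refine LG_arc e4 (k1 + k2 + k3) ?_
      have h1 : (s + a * t) * (1 + a)⁻¹ = s + t - a * (1 + a)⁻¹ * s - (1 + a)⁻¹ * t := by
        field_simp
        ring
      rw [h1, hk3, hk2, hk1]
      push_cast
      ring
  · refine free_of_arc ha1 ha2 nt hy ?_ ?_
    · obtain ⟨k, hk⟩ := LG_sub ((1 - a)⁻¹ * t) (y * (1 - a)⁻¹)
      refine LG_arc e5 k ?_
      rw [← hk]
      congr 1
      ring
    · obtain ⟨k, hk⟩ := LG_add ((1 + a)⁻¹ * t) (y * (1 + a)⁻¹)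
      refine LG_arc e6 k ?_
      rw [← hk]
      congr 1
      ring

end Pool.Agent.MP_b34510_co
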