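import Pool.Agent.MP_b34510_co.SQ.Defs

set_option autoImplicit false

open Finset Classical

namespace Pool.Agent.MP_b34510_co

/-- The number of choices in `W` all of whose three ratios have colour `0`. -/
noncomputable def hits {p : ℕ} [Fact p.Prime] {q : ℕ} [NeZero q] (W : Finset (ZMod p × ZMod p))
    (a x y : ZMod p) (c : ZMod p → Fin q) : ℝ :=
  ((W.filter fun w => c (a * w.1 * x⁻¹) = 0 ∧ c (a * w.2 * w.1⁻¹) = 0 ∧ c (y * w.2⁻¹) = 0).card : ℕ)

/-- the number of affected choices -/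
theorem RRa_aff {p : ℕ} [Fact p.Prime] {a x y : ZMod p} (ha : a ≠ 0) (hx : x ≠ 0) (hy : y ≠ 0)
    (v : ZMod p) : ((univ : Finset (ZMod p × ZMod p)).filter fun w => a * w.1 * x⁻¹ = v ∨
      a * w.2 * w.1⁻¹ = v ∨ y * w.2⁻¹ = v).card ≤ 6 * p := by
  have hc : (univ : Finset (ZMod p)).card = p := by rw [card_univ, ZMod.card]
  have hsub : ((univ : Finset (ZMod p × ZMod p)).filter fun w => a * w.1 * x⁻¹ = v ∨
      a * w.2 * w.1⁻¹ = v ∨ y * w.2⁻¹ = v) ⊆
      ((univ : Finset (ZMod p)).image (fun t => (v * x * a⁻¹, t))) ∪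
      (((univ : Finset (ZMod p)).image (fun t => ((0 : ZMod p), t))) ∪
      (((univ : Finset (ZMod p)).image (fun s => (s, v * s * a⁻¹))) ∪
      ((univ : Finset (ZMod p)).image (fun s => (s, (v * y⁻¹)⁻¹))))) := by
    rintro ⟨s, t⟩ hw
    simp only [mem_filter, mem_univ, true_and] at hw
    simp only [mem_union, mem_image, mem_univ, true_and, Prod.mk.injEq]
    rcases hw with h | h | h
    · left
      refine ⟨t, ?_, rfl⟩
      rw [← h]
      field_simp
    · right
      by_cases hs : s = 0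
      · left
        exact ⟨t, hs.symm, rfl⟩
      · right
        left
        refine ⟨s, rfl, ?_⟩
        rw [← h]
        field_simp
    · right
      right
      right
      refine ⟨s, rfl, ?_⟩
      rw [← h, mul_comm y, mul_assoc, mul_inv_cancel₀ hy, mul_one, inv_inv]
  refine (card_le_card hsub).trans ?_
  have h1 := card_union_le ((univ : Finset (ZMod p)).image (fun t => (v * x * a⁻¹, t)))
    (((univ : Finset (ZMod p)).image (fun t => ((0 : ZMod p), t))) ∪
      (((univ : Finset (ZMod p)).image (fun s => (s, v * s * a⁻¹))) ∪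
      ((univ : Finset (ZMod p)).image (fun s => (s, (v * y⁻¹)⁻¹)))))
  have h2 := card_union_le ((univ : Finset (ZMod p)).image (fun t => ((0 : ZMod p), t)))
      (((univ : Finset (ZMod p)).image (fun s => (s, v * s * a⁻¹))) ∪
      ((univ : Finset (ZMod p)).image (fun s => (s, (v * y⁻¹)⁻¹))))
  have h3 := card_union_le ((univ : Finset (ZMod p)).image (fun s => (s, v * s * a⁻¹)))
      ((univ : Finset (ZMod p)).image (fun s => (s, (v * y⁻¹)⁻¹)))
  have k1 : ((univ : Finset (ZMod p)).image (fun t => (v * x * a⁻¹, t))).card ≤ p :=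
    card_image_le.trans hc.le
  have k2 : ((univ : Finset (ZMod p)).image (fun t => ((0 : ZMod p), t))).card ≤ p :=
    card_image_le.trans hc.le
  have k3 : ((univ : Finset (ZMod p)).image (fun s => (s, v * s * a⁻¹))).card ≤ p :=
    card_image_le.trans hc.le
  have k4 : ((univ : Finset (ZMod p)).image (fun s => (s, (v * y⁻¹)⁻¹))).card ≤ p :=
    card_image_le.trans hc.le
  omega

/-- Changing the colour of one residue `v` changes `hits` by at most `6 p`.
Proof: the choices `w = (s, t)` affected have `a s x⁻¹ = v` (at most one `s`, so at most `p` choices), or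
`a t s⁻¹ = v` (for each `s ≠ 0` at most one `t`; for `s = 0` at most `p` more), or `y t⁻¹ = v` (at most one
`t`: `t⁻¹ = v y⁻¹`). -/
theorem hits_update {p : ℕ} [Fact p.Prime] {q : ℕ} [NeZero q] (W : Finset (ZMod p × ZMod p))
    {a x y : ZMod p} (ha : a ≠ 0) (hx : x ≠ 0) (hy : y ≠ 0) (c : ZMod p → Fin q) (v : ZMod p) (b : Fin q) :
    |hits W a x y (Function.update c v b) - hits W a x y c| ≤ 6 * p := by
  have haff := RRa_aff ha hx hy v
  have hsame : ∀ w : ZMod p × ZMod p, ¬ (a * w.1 * x⁻¹ = v ∨ a * w.2 * w.1⁻¹ = v ∨ y * w.2⁻¹ = v) →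
      ((Function.update c v b (a * w.1 * x⁻¹) = 0 ∧ Function.update c v b (a * w.2 * w.1⁻¹) = 0 ∧
        Function.update c v b (y * w.2⁻¹) = 0) ↔
      (c (a * w.1 * x⁻¹) = 0 ∧ c (a * w.2 * w.1⁻¹) = 0 ∧ c (y * w.2⁻¹) = 0)) := by
    intro w hw
    simp only [not_or] at hw
    rw [Function.update_of_ne hw.1, Function.update_of_ne hw.2.1, Function.update_of_ne hw.2.2]
  have h1 : (W.filter fun w => Function.update c v b (a * w.1 * x⁻¹) = 0 ∧
      Function.update c v b (a * w.2 * w.1⁻¹) = 0 ∧ Function.update c v b (y * w.2⁻¹) = 0).card ≤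
      (W.filter fun w => c (a * w.1 * x⁻¹) = 0 ∧ c (a * w.2 * w.1⁻¹) = 0 ∧
        c (y * w.2⁻¹) = 0).card + 6 * p := by
    refine le_trans (card_le_card (t := (W.filter fun w => c (a * w.1 * x⁻¹) = 0 ∧
      c (a * w.2 * w.1⁻¹) = 0 ∧ c (y * w.2⁻¹) = 0) ∪ (univ.filter fun w => a * w.1 * x⁻¹ = v ∨
      a * w.2 * w.1⁻¹ = v ∨ y * w.2⁻¹ = v)) ?_)
      (le_trans (card_union_le _ _) (Nat.add_le_add_left haff _))
    intro w hw
    rw [mem_filter] at hw
    rw [mem_union, mem_filter, mem_filter]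
    by_cases hv : a * w.1 * x⁻¹ = v ∨ a * w.2 * w.1⁻¹ = v ∨ y * w.2⁻¹ = v
    · exact Or.inr ⟨mem_univ _, hv⟩
    · exact Or.inl ⟨hw.1, (hsame w hv).1 hw.2⟩
  have h2 : (W.filter fun w => c (a * w.1 * x⁻¹) = 0 ∧ c (a * w.2 * w.1⁻¹) = 0 ∧
        c (y * w.2⁻¹) = 0).card ≤
      (W.filter fun w => Function.update c v b (a * w.1 * x⁻¹) = 0 ∧
      Function.update c v b (a * w.2 * w.1⁻¹) = 0 ∧
        Function.update c v b (y * w.2⁻¹) = 0).card + 6 * p := by
    refine le_trans (card_le_card (t := (W.filter fun w =>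
      Function.update c v b (a * w.1 * x⁻¹) = 0 ∧ Function.update c v b (a * w.2 * w.1⁻¹) = 0 ∧
        Function.update c v b (y * w.2⁻¹) = 0) ∪ (univ.filter fun w => a * w.1 * x⁻¹ = v ∨
      a * w.2 * w.1⁻¹ = v ∨ y * w.2⁻¹ = v)) ?_)
      (le_trans (card_union_le _ _) (Nat.add_le_add_left haff _))
    intro w hw
    rw [mem_filter] at hw
    rw [mem_union, mem_filter, mem_filter]
    by_cases hv : a * w.1 * x⁻¹ = v ∨ a * w.2 * w.1⁻¹ = v ∨ y * w.2⁻¹ = v
    · exact Or.inr ⟨mem_univ _, hv⟩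
    · exact Or.inl ⟨hw.1, (hsame w hv).2 hw.2⟩
  unfold hits
  rw [abs_le]
  have h1' : ((W.filter fun w => Function.update c v b (a * w.1 * x⁻¹) = 0 ∧
      Function.update c v b (a * w.2 * w.1⁻¹) = 0 ∧
        Function.update c v b (y * w.2⁻¹) = 0).card : ℝ) ≤
      ((W.filter fun w => c (a * w.1 * x⁻¹) = 0 ∧ c (a * w.2 * w.1⁻¹) = 0 ∧
        c (y * w.2⁻¹) = 0).card : ℝ) + 6 * p := by exact_mod_cast h1
  have h2' : ((W.filter fun w => c (a * w.1 * x⁻¹) = 0 ∧ c (a * w.2 * w.1⁻¹) = 0 ∧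
        c (y * w.2⁻¹) = 0).card : ℝ) ≤ ((W.filter fun w =>
      Function.update c v b (a * w.1 * x⁻¹) = 0 ∧ Function.update c v b (a * w.2 * w.1⁻¹) = 0 ∧
        Function.update c v b (y * w.2⁻¹) = 0).card : ℝ) + 6 * p := by exact_mod_cast h2
  constructor <;> linarith

theorem RRa_three {p : ℕ} [Fact p.Prime] {q : ℕ} [NeZero q] (u₁ u₂ u₃ : ZMod p) :
    q ^ p ≤ q ^ 3 * ((univ : Finset (ZMod p → Fin q)).filter fun c =>
      c u₁ = 0 ∧ c u₂ = 0 ∧ c u₃ = 0).card := by
  have hcard : (univ : Finset (ZMod p → Fin q)).card = q ^ p := by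
    rw [card_univ, Fintype.card_fun, Fintype.card_fin, ZMod.card]
  have hcard3 : (univ : Finset (Fin q × Fin q × Fin q)).card = q ^ 3 := by
    rw [card_univ, Fintype.card_prod, Fintype.card_prod, Fintype.card_fin]
    ring
  rw [← hcard, ← hcard3, ← card_product]
  apply card_le_card_of_injOn (fun c => ((c u₁, c u₂, c u₃),
    Function.update (Function.update (Function.update c u₁ 0) u₂ 0) u₃ 0))
  · intro c _
    simp only [coe_product, coe_univ, coe_filter, Set.mem_prod, Set.mem_univ, true_and, mem_univ,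
      Set.mem_ofPred_eq]
    refine ⟨?_, ?_, ?_⟩
    · by_cases h3 : u₁ = u₃
      · rw [h3, Function.update_self]
      · rw [Function.update_of_ne h3]
        by_cases h2 : u₁ = u₂
        · rw [h2, Function.update_self]
        · rw [Function.update_of_ne h2, Function.update_self]
    · by_cases h3 : u₂ = u₃
      · rw [h3, Function.update_self]
      · rw [Function.update_of_ne h3, Function.update_self]
    · rw [Function.update_self]
  · intro c _ d _ hcd
    simp only [Prod.mk.injEq] at hcd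
    obtain ⟨⟨h1, h2, h3⟩, h4⟩ := hcd
    funext z
    by_cases hz1 : z = u₁
    · rw [hz1, h1]
    by_cases hz2 : z = u₂
    · rw [hz2, h2]
    by_cases hz3 : z = u₃
    · rw [hz3, h3]
    have h5 := congrFun h4 z
    rwa [Function.update_of_ne hz3, Function.update_of_ne hz2, Function.update_of_ne hz1,
      Function.update_of_ne hz3, Function.update_of_ne hz2, Function.update_of_ne hz1] at h5

/-- The average of `hits` is at least `|W| / q³`.
Proof: interchange the sums; for fixed residues `u₁, u₂, u₃` (not necessarily distinct) the number of colourings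
with `c u₁ = c u₂ = c u₃ = 0` is at least `q ^ (p - 3)` if `p ≥ 3`; in the form
`q ^ 3 * #{c | ...} ≥ q ^ p` it is true for all `p` (the map `c ↦ update (update (update c u₁ 0) u₂ 0) u₃ 0`
has fibres of size at most `q ^ 3`). -/
theorem hits_mean {p : ℕ} [Fact p.Prime] {q : ℕ} [NeZero q] (W : Finset (ZMod p × ZMod p)) (a x y : ZMod p) :
    ((W.card : ℕ) : ℝ) * (q : ℝ) ^ p ≤ (q : ℝ) ^ 3 * ∑ c : ZMod p → Fin q, hits W a x y c := by
  have hsum : ∑ c : ZMod p → Fin q, hits W a x y c = ((∑ w ∈ W,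
      ((univ : Finset (ZMod p → Fin q)).filter fun c => c (a * w.1 * x⁻¹) = 0 ∧
        c (a * w.2 * w.1⁻¹) = 0 ∧ c (y * w.2⁻¹) = 0).card : ℕ) : ℝ) := by
    unfold hits
    rw [← Nat.cast_sum]
    congr 1
    simp only [card_filter]
    exact sum_comm
  rw [hsum]
  have h1 : W.card * q ^ p ≤ q ^ 3 * ∑ w ∈ W,
      ((univ : Finset (ZMod p → Fin q)).filter fun c => c (a * w.1 * x⁻¹) = 0 ∧
        c (a * w.2 * w.1⁻¹) = 0 ∧ c (y * w.2⁻¹) = 0).card := by
    rw [mul_sum, ← smul_eq_mul, ← sum_const]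
    exact sum_le_sum fun w _ => RRa_three _ _ _
  exact_mod_cast h1

end Pool.Agent.MP_b34510_co
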