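import Pool.Agent.MP_b34510_co.SQ.MD
import Pool.Agent.MP_b34510_co.SQ.RRa

set_option autoImplicit false

open Finset Classical

namespace Pool.Agent.MP_b34510_co

/-- consequences of the size condition -/
theorem RR_arith (c p q l : ℝ) (hc : 0 < c) (hp : 2 ≤ p) (hq : 1 ≤ q) (hl : 69 / 100 ≤ l)
    (h : (1440 / c ^ 2 + 200 / c + 1) * q ^ 6 * l ≤ p) :
    1440 * q ^ 6 * l ≤ c ^ 2 * p ∧ 72 * q ^ 3 ≤ c * p := by
  have hc2 : 0 < c ^ 2 := by positivity
  have hq6 : 1 ≤ q ^ 6 := one_le_pow₀ hq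
  have hq3 : 1 ≤ q ^ 3 := one_le_pow₀ hq
  have hql : 0 ≤ q ^ 6 * l := by positivity
  have e : (1440 / c ^ 2 + 200 / c + 1) * q ^ 6 * l =
      1440 / c ^ 2 * (q ^ 6 * l) + 200 / c * (q ^ 6 * l) + q ^ 6 * l := by ring
  rw [e] at h
  have t1 : 0 ≤ 1440 / c ^ 2 * (q ^ 6 * l) := by positivity
  have t2 : 0 ≤ 200 / c * (q ^ 6 * l) := by positivity
  constructor
  · have h1 : 1440 / c ^ 2 * (q ^ 6 * l) ≤ p := by linarith
    have h2 := mul_le_mul_of_nonneg_left h1 hc2.le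
    have h3 : c ^ 2 * (1440 / c ^ 2 * (q ^ 6 * l)) = 1440 * q ^ 6 * l := by
      field_simp
    linarith
  · have h1 : 200 / c * (q ^ 6 * l) ≤ p := by linarith
    have h2 := mul_le_mul_of_nonneg_left h1 hc.le
    have h3 : c * (200 / c * (q ^ 6 * l)) = 200 * (q ^ 6 * l) := by
      field_simp
    have h4 : q ^ 3 * (69 / 100) ≤ q ^ 6 * l := by
      apply mul_le_mul _ hl (by norm_num) (by positivity)
      calc q ^ 3 = q ^ 3 * 1 := (mul_one _).symm
        _ ≤ q ^ 3 * q ^ 3 := mul_le_mul_of_nonneg_left hq3 (by positivity)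
        _ = q ^ 6 := by ring
    linarith

/-- the exponent -/
theorem RR_exp (c p q l m : ℝ) (hc : 0 < c) (hp : 2 ≤ p) (hq : 1 ≤ q) (hl : 0 ≤ l)
    (h : 1440 * q ^ 6 * l ≤ c ^ 2 * p) (hm : c * p ^ 2 / q ^ 3 ≤ m) :
    5 * l ≤ (m / 2) ^ 2 / (2 * p * (6 * p) ^ 2) := by
  have hp0 : 0 < p := by linarith
  have hq0 : 0 < q := by linarith
  rw [le_div_iff₀ (by positivity)]
  have h0 : 0 ≤ c * p ^ 2 / q ^ 3 := by positivity
  have h1 : (c * p ^ 2 / q ^ 3) ^ 2 ≤ m ^ 2 := pow_le_pow_left₀ h0 hm 2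
  have h2 : (c * p ^ 2 / q ^ 3) ^ 2 = (c ^ 2 * p) * p ^ 3 / q ^ 6 := by
    field_simp
  have h3 : 1440 * q ^ 6 * l * p ^ 3 / q ^ 6 ≤ (c ^ 2 * p) * p ^ 3 / q ^ 6 := by
    apply div_le_div_of_nonneg_right _ (by positivity)
    exact mul_le_mul_of_nonneg_right h (by positivity)
  have h4 : 1440 * q ^ 6 * l * p ^ 3 / q ^ 6 = 1440 * l * p ^ 3 := by
    field_simp
  have h5 : 5 * l * (2 * p * (6 * p) ^ 2) = 1440 * l * p ^ 3 / 4 := by ring
  rw [h5]
  have h6 : (m / 2) ^ 2 = m ^ 2 / 4 := by ring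
  rw [h6]
  linarith

/-- the number of colourings in which `v` has colour `0` -/
theorem RR_one {p : ℕ} [Fact p.Prime] {q : ℕ} [NeZero q] (v : ZMod p) :
    q * (univ.filter (fun c : ZMod p → Fin q => c v = 0)).card = q ^ p := by
  have h1 : (univ.filter (fun c : ZMod p → Fin q => c v = 0)) =
      Fintype.piFinset (fun u => if u = v then ({0} : Finset (Fin q)) else univ) := by
    ext c
    rw [mem_filter, Fintype.mem_piFinset]
    constructor
    · rintro ⟨_, h⟩ u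
      by_cases e : u = v
      · rw [if_pos e, mem_singleton, e]; exact h
      · rw [if_neg e]; exact mem_univ _
    · intro h
      have := h v
      rw [if_pos rfl, mem_singleton] at this
      exact ⟨mem_univ _, this⟩
  rw [h1, Fintype.card_piFinset, ← mul_prod_erase univ _ (mem_univ v), if_pos rfl, card_singleton, one_mul]
  have h2 : ∏ u ∈ univ.erase v, (if u = v then ({0} : Finset (Fin q)) else univ).card =
      ∏ u ∈ (univ : Finset (ZMod p)).erase v, q := by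
    refine prod_congr rfl fun u hu => ?_
    rw [if_neg (mem_erase.mp hu).1, card_univ, Fintype.card_fin]
  rw [h2, prod_const, card_erase_of_mem (mem_univ v), card_univ, ZMod.card]
  have hp : 1 ≤ p := (Fact.out : p.Prime).one_lt.le
  rw [← pow_succ', Nat.sub_add_cancel hp]

/-- few colourings have many residues of colour `0` -/
theorem RR_markov {p : ℕ} [Fact p.Prime] {q : ℕ} [NeZero q] :
    (((univ.filter (fun c : ZMod p → Fin q => 2 * (p : ℝ) / q <
      (((univ.filter (fun v => c v = 0)).card : ℕ) : ℝ))).card : ℕ) : ℝ) ≤ (q : ℝ) ^ p / 2 := by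
  have hp : (0 : ℝ) < p := by exact_mod_cast (Fact.out : p.Prime).pos
  have hq : (0 : ℝ) < q := by exact_mod_cast Nat.pos_of_ne_zero (NeZero.ne q)
  have hsum : (q : ℝ) * ∑ c : ZMod p → Fin q, (((univ.filter (fun v => c v = 0)).card : ℕ) : ℝ) =
      p * (q : ℝ) ^ p := by
    have h1 : q * ∑ c : ZMod p → Fin q, (univ.filter (fun v => c v = 0)).card = p * q ^ p := by
      have h2 : ∑ c : ZMod p → Fin q, (univ.filter (fun v => c v = 0)).card =
          ∑ v : ZMod p, (univ.filter (fun c : ZMod p → Fin q => c v = 0)).card := by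
        simp only [card_filter]
        rw [sum_comm]
      rw [h2, mul_sum, sum_congr rfl (fun v _ => RR_one v), sum_const, card_univ, ZMod.card, smul_eq_mul]
    exact_mod_cast h1
  have h3 : (((univ.filter (fun c : ZMod p → Fin q => 2 * (p : ℝ) / q <
      (((univ.filter (fun v => c v = 0)).card : ℕ) : ℝ))).card : ℕ) : ℝ) * (2 * (p : ℝ) / q) ≤
      ∑ c : ZMod p → Fin q, (((univ.filter (fun v => c v = 0)).card : ℕ) : ℝ) := by
    rw [← nsmul_eq_mul, ← sum_const]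
    refine le_trans (sum_le_sum (fun c hc => (mem_filter.mp hc).2.le)) ?_
    exact sum_le_sum_of_subset_of_nonneg (filter_subset _ _) (fun c _ _ => Nat.cast_nonneg _)
  have h4 := mul_le_mul_of_nonneg_left h3 hq.le
  rw [hsum] at h4
  generalize (((univ.filter (fun c : ZMod p → Fin q => 2 * (p : ℝ) / q <
      (((univ.filter (fun v => c v = 0)).card : ℕ) : ℝ))).card : ℕ) : ℝ) = B at h4 ⊢
  have h5 : (q : ℝ) * (B * (2 * (p : ℝ) / q)) = p * (2 * B) := by
    field_simp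
  rw [h5] at h4
  have h6 := le_of_mul_le_mul_left h4 hp
  linarith

/-- the bad colourings of a triple -/
theorem RR_bad {p : ℕ} [Fact p.Prime] {q : ℕ} [NeZero q] (c : ℝ) (hc : 0 < c)
    (h1 : 1440 * (q : ℝ) ^ 6 * Real.log p ≤ c ^ 2 * p) (W : Finset (ZMod p × ZMod p)) {a x y : ZMod p}
    (ha : a ≠ 0) (hx : x ≠ 0) (hy : y ≠ 0) (hW : c * (p : ℝ) ^ 2 ≤ ((W.card : ℕ) : ℝ)) :
    (((univ.filter (fun g : ZMod p → Fin q => hits W a x y g < c * (p : ℝ) ^ 2 / (2 * (q : ℝ) ^ 3))).card :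
      ℕ) : ℝ) ≤ (q : ℝ) ^ p / (p : ℝ) ^ 5 := by
  have hpp : (2 : ℝ) ≤ p := by exact_mod_cast (Fact.out : p.Prime).two_le
  have hp0 : (0 : ℝ) < p := by linarith
  have hq1 : (1 : ℝ) ≤ q := by exact_mod_cast Nat.one_le_iff_ne_zero.mpr (NeZero.ne q)
  have hq0 : (0 : ℝ) < q := by linarith
  have hqp : (0 : ℝ) < (q : ℝ) ^ p := by positivity
  obtain ⟨m, hm⟩ : ∃ m : ℝ, m = (∑ g : ZMod p → Fin q, hits W a x y g) / (q : ℝ) ^ p := ⟨_, rfl⟩
  have hm1 : ∑ g : ZMod p → Fin q, hits W a x y g = m * (q : ℝ) ^ Fintype.card (ZMod p) := by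
    rw [hm, ZMod.card]
    field_simp
  have hm2 : c * (p : ℝ) ^ 2 / (q : ℝ) ^ 3 ≤ m := by
    rw [hm, div_le_div_iff₀ (by positivity) hqp]
    have h2 := hits_mean (q := q) W a x y
    have h3 : c * (p : ℝ) ^ 2 * (q : ℝ) ^ p ≤ ((W.card : ℕ) : ℝ) * (q : ℝ) ^ p :=
      mul_le_mul_of_nonneg_right hW hqp.le
    linarith
  have hm0 : 0 ≤ m := le_trans (by positivity) hm2
  have h2 := bdd_diff q (hits W a x y) (D := 6 * p) (m := m) (t := m / 2) (by positivity) (by positivity)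
    (fun g v b => hits_update W ha hx hy g v b) hm1
  have hl : 0 ≤ Real.log p := Real.log_nonneg (by linarith)
  have h3 := RR_exp c p q (Real.log p) m hc hpp hq1 hl h1 hm2
  have h4 : (((univ.filter (fun g : ZMod p → Fin q => hits W a x y g < c * (p : ℝ) ^ 2 / (2 * (q : ℝ) ^ 3))).card :
      ℕ) : ℝ) ≤ (((Finset.univ.filter fun g : ZMod p → Fin q => hits W a x y g ≤ m - m / 2).card : ℕ) : ℝ) := by
    have h5 : (univ.filter (fun g : ZMod p → Fin q => hits W a x y g < c * (p : ℝ) ^ 2 / (2 * (q : ℝ) ^ 3))) ⊆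
        Finset.univ.filter fun g : ZMod p → Fin q => hits W a x y g ≤ m - m / 2 := by
      intro g hg
      rw [mem_filter] at hg ⊢
      refine ⟨mem_univ _, ?_⟩
      have h6 : c * (p : ℝ) ^ 2 / (2 * (q : ℝ) ^ 3) = (c * (p : ℝ) ^ 2 / (q : ℝ) ^ 3) / 2 := by
        field_simp
      rw [h6] at hg
      linarith [hg.2]
    exact_mod_cast card_le_card h5
  refine h4.trans (h2.trans ?_)
  rw [ZMod.card, div_eq_mul_inv]
  refine mul_le_mul_of_nonneg_left ?_ hqp.le
  have h7 : Real.exp (-((m / 2) ^ 2 / (2 * (p : ℝ) * (6 * (p : ℝ)) ^ 2))) ≤ Real.exp (-(5 * Real.log p)) :=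
    Real.exp_le_exp.mpr (by linarith)
  refine h7.trans (le_of_eq ?_)
  rw [Real.exp_neg]
  congr 1
  have h8 : Real.exp (((5 : ℕ) : ℝ) * Real.log p) = Real.exp (Real.log p) ^ 5 := Real.exp_nat_mul _ _
  rw [Real.exp_log hp0] at h8
  rw [← h8]
  norm_num

/-- A small set `R` of slopes that hits everything.
Proof: `C = 1440 / c² + 200 / c + 1`.  Colour the residues by `Fin q` uniformly.
(1) At most half of the colourings have more than `2 p / q` residues of colour `0` (Markov, mean `p / q`;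
(at least as many as, strictly): the number of colourings with `#{c = 0} > 2p/q` is at most half of all).
(2) For each of the at most `p³` triples `(a, x, y)` of non-zero residues with `W a x y ≠ ∅`: by `hits_mean` the
mean `m` is at least `c p² / q³`; by `bdd_diff` (`D = 6 p`, `t = m / 2`) at most
`q ^ p exp (- m² / (4 · 2 · p · 36 p²)) ≤ q ^ p exp (- c² p / (288 q⁶)) ≤ q ^ p p⁻⁵` colourings have
`hits ≤ m / 2`; in total less than half of all colourings (`p³ · p⁻⁵ < 1/2`).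
So there is a colouring with at most `2 p / q` residues of colour `0` and `hits ≥ c p² / (2 q³)` for all
triples.  Let `R` be the set of the residues of colour `0` different from `0, 1, -1`: as in `hits_update`
removing three residues costs at most `18 p ≤ c p² / (4 q³)` choices (from `C q⁶ log p ≤ p`). -/
theorem exists_R (c : ℝ) (hc : 0 < c) : ∃ C : ℝ, 0 < C ∧ ∀ p : ℕ, ∀ [Fact p.Prime], ∀ q : ℕ, 1 ≤ q →
    C * q ^ 6 * Real.log p ≤ p → ∀ W : ZMod p → ZMod p → ZMod p → Finset (ZMod p × ZMod p),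
      (∀ a x y, W a x y = ∅ ∨ c * (p : ℝ) ^ 2 ≤ (((W a x y).card : ℕ) : ℝ)) →
        ∃ R : Finset (ZMod p), ((R.card : ℕ) : ℝ) ≤ 2 * p / q ∧ (0 : ZMod p) ∉ R ∧ (1 : ZMod p) ∉ R ∧
          (-1 : ZMod p) ∉ R ∧ ∀ a x y : ZMod p, a ≠ 0 → x ≠ 0 → y ≠ 0 → W a x y = ∅ ∨
            c * (p : ℝ) ^ 2 / (4 * (q : ℝ) ^ 3) ≤
              ((((W a x y).filter fun w => a * w.1 * x⁻¹ ∈ R ∧ a * w.2 * w.1⁻¹ ∈ R ∧
                y * w.2⁻¹ ∈ R).card : ℕ) : ℝ) := by
  refine ⟨1440 / c ^ 2 + 200 / c + 1, by positivity, ?_⟩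
  intro p hpf q hq hC W hW
  haveI : NeZero q := ⟨by omega⟩
  have hp2 : 2 ≤ p := hpf.out.two_le
  have hpR : (2 : ℝ) ≤ p := by exact_mod_cast hp2
  have hp0 : (0 : ℝ) < p := by linarith
  have hqR : (1 : ℝ) ≤ q := by exact_mod_cast hq
  have hq0 : (0 : ℝ) < q := by linarith
  have hqp : (0 : ℝ) < (q : ℝ) ^ p := by positivity
  have hlog : 69 / 100 ≤ Real.log p := by
    have h1 : Real.log 2 ≤ Real.log p := Real.log_le_log (by norm_num) hpR
    have h2 := Real.log_two_gt_d9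
    linarith
  obtain ⟨hA1, hA2⟩ := RR_arith c p q (Real.log p) hc hpR hqR hlog hC
  -- the bad colourings
  obtain ⟨Bt, hBt⟩ : ∃ Bt : ZMod p × ZMod p × ZMod p → Finset (ZMod p → Fin q), ∀ τ, Bt τ =
      if τ.1 ≠ 0 ∧ τ.2.1 ≠ 0 ∧ τ.2.2 ≠ 0 ∧ W τ.1 τ.2.1 τ.2.2 ≠ ∅ then
        univ.filter (fun g : ZMod p → Fin q => hits (W τ.1 τ.2.1 τ.2.2) τ.1 τ.2.1 τ.2.2 g <
          c * (p : ℝ) ^ 2 / (2 * (q : ℝ) ^ 3)) else ∅ := ⟨_, fun τ => rfl⟩
  have hBtc : ∀ τ, (((Bt τ).card : ℕ) : ℝ) ≤ (q : ℝ) ^ p / (p : ℝ) ^ 5 := by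
    intro τ
    rw [hBt τ]
    split_ifs with h
    · refine RR_bad c hc hA1 _ h.1 h.2.1 h.2.2.1 ?_
      rcases hW τ.1 τ.2.1 τ.2.2 with h' | h'
      · exact absurd h' h.2.2.2
      · exact h'
    · rw [card_empty, Nat.cast_zero]
      positivity
  obtain ⟨B0, hB0⟩ : ∃ B0 : Finset (ZMod p → Fin q), B0 = univ.filter (fun g : ZMod p → Fin q =>
      2 * (p : ℝ) / q < (((univ.filter (fun v => g v = 0)).card : ℕ) : ℝ)) := ⟨_, rfl⟩
  have hB0c : ((B0.card : ℕ) : ℝ) ≤ (q : ℝ) ^ p / 2 := by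
    rw [hB0]
    exact RR_markov
  have hlt : (B0 ∪ (univ : Finset (ZMod p × ZMod p × ZMod p)).biUnion Bt).card <
      (univ : Finset (ZMod p → Fin q)).card := by
    have h1 : ((((univ : Finset (ZMod p × ZMod p × ZMod p)).biUnion Bt).card : ℕ) : ℝ) ≤
        (p : ℝ) ^ 3 * ((q : ℝ) ^ p / (p : ℝ) ^ 5) := by
      have h2 : ((((univ : Finset (ZMod p × ZMod p × ZMod p)).biUnion Bt).card : ℕ) : ℝ) ≤
          ∑ τ : ZMod p × ZMod p × ZMod p, (((Bt τ).card : ℕ) : ℝ) := by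
        exact_mod_cast (card_biUnion_le (s := (univ : Finset (ZMod p × ZMod p × ZMod p))) (t := Bt))
      refine h2.trans ((sum_le_sum fun τ _ => hBtc τ).trans ?_)
      rw [sum_const, card_univ, Fintype.card_prod, Fintype.card_prod, ZMod.card, nsmul_eq_mul]
      push_cast
      apply le_of_eq
      ring
    have h3 : (p : ℝ) ^ 3 * ((q : ℝ) ^ p / (p : ℝ) ^ 5) ≤ (q : ℝ) ^ p / 4 := by
      have h4 : (p : ℝ) ^ 3 * ((q : ℝ) ^ p / (p : ℝ) ^ 5) = (q : ℝ) ^ p / (p : ℝ) ^ 2 := by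
        field_simp
      rw [h4]
      apply div_le_div_of_nonneg_left hqp.le (by norm_num)
      nlinarith
    have h5 : (((B0 ∪ (univ : Finset (ZMod p × ZMod p × ZMod p)).biUnion Bt).card : ℕ) : ℝ) ≤
        ((B0.card : ℕ) : ℝ) + ((((univ : Finset (ZMod p × ZMod p × ZMod p)).biUnion Bt).card : ℕ) : ℝ) := by
      exact_mod_cast card_union_le _ _
    have h6 : (((univ : Finset (ZMod p → Fin q)).card : ℕ) : ℝ) = (q : ℝ) ^ p := by
      rw [card_univ, Fintype.card_fun, Fintype.card_fin, ZMod.card]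
      push_cast
      rfl
    have h7 : (((B0 ∪ (univ : Finset (ZMod p × ZMod p × ZMod p)).biUnion Bt).card : ℕ) : ℝ) <
        (((univ : Finset (ZMod p → Fin q)).card : ℕ) : ℝ) := by
      rw [h6]
      linarith
    exact_mod_cast h7
  obtain ⟨g, _, hg⟩ := exists_mem_notMem_of_card_lt_card hlt
  rw [mem_union, not_or, hB0, mem_filter, not_and] at hg
  obtain ⟨hg0, hg1⟩ := hg
  have hN : (((univ.filter (fun v => g v = 0)).card : ℕ) : ℝ) ≤ 2 * (p : ℝ) / q :=
    not_lt.mp (hg0 (mem_univ _))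
  have hH : ∀ a x y : ZMod p, a ≠ 0 → x ≠ 0 → y ≠ 0 → W a x y ≠ ∅ →
      c * (p : ℝ) ^ 2 / (2 * (q : ℝ) ^ 3) ≤ hits (W a x y) a x y g := by
    intro a x y ha hx hy hWn
    by_contra hlt'
    apply hg1
    rw [mem_biUnion]
    refine ⟨(a, x, y), mem_univ _, ?_⟩
    rw [hBt, if_pos ⟨ha, hx, hy, hWn⟩, mem_filter]
    exact ⟨mem_univ _, not_le.mp hlt'⟩
  -- two colours
  obtain ⟨g2, hg2⟩ : ∃ g2 : ZMod p → Fin 2, ∀ v, g2 v = 0 ↔ g v = 0 := by
    refine ⟨fun v => if g v = 0 then 0 else 1, fun v => ?_⟩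
    by_cases h : g v = 0
    · simp [h]
    · simp [h]
  have hh2 : ∀ a x y : ZMod p, hits (W a x y) a x y g2 = hits (W a x y) a x y g := by
    intro a x y
    unfold hits
    simp only [hg2]
  obtain ⟨g3, hg3⟩ : ∃ g3 : ZMod p → Fin 2, g3 = Function.update (Function.update (Function.update g2 0 1) 1 1)
      (-1) 1 := ⟨_, rfl⟩
  have hg3v : ∀ v, g3 v = 0 ↔ g2 v = 0 ∧ v ≠ 0 ∧ v ≠ 1 ∧ v ≠ -1 := by
    intro v
    rw [hg3]
    by_cases e1 : v = -1
    · subst e1
      rw [Function.update_self]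
      constructor
      · intro h; exact absurd h (by decide)
      · intro h; exact absurd rfl h.2.2.2
    · rw [Function.update_of_ne e1]
      by_cases e2 : v = 1
      · subst e2
        rw [Function.update_self]
        constructor
        · intro h; exact absurd h (by decide)
        · intro h; exact absurd rfl h.2.2.1
      · rw [Function.update_of_ne e2]
        by_cases e3 : v = 0
        · subst e3
          rw [Function.update_self]
          constructor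
          · intro h; exact absurd h (by decide)
          · intro h; exact absurd rfl h.2.1
        · rw [Function.update_of_ne e3]
          exact ⟨fun h => ⟨h, e3, e2, e1⟩, fun h => h.1⟩
  refine ⟨univ.filter (fun v => g3 v = 0), ?_, ?_, ?_, ?_, ?_⟩
  · refine le_trans ?_ hN
    have : (univ.filter (fun v => g3 v = 0)) ⊆ univ.filter (fun v => g v = 0) := by
      intro v hv
      rw [mem_filter, hg3v] at hv
      rw [mem_filter]
      exact ⟨mem_univ _, (hg2 v).mp hv.2.1⟩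
    exact_mod_cast card_le_card this
  · rw [mem_filter, hg3v]
    exact fun h => h.2.2.1 rfl
  · rw [mem_filter, hg3v]
    exact fun h => h.2.2.2.1 rfl
  · rw [mem_filter, hg3v]
    exact fun h => h.2.2.2.2 rfl
  · intro a x y ha hx hy
    by_cases hWn : W a x y = ∅
    · exact Or.inl hWn
    right
    have h1 := hH a x y ha hx hy hWn
    rw [← hh2] at h1
    have u1 := (abs_le.mp (hits_update (W a x y) ha hx hy g2 0 1)).1
    have u2 := (abs_le.mp (hits_update (W a x y) ha hx hy (Function.update g2 0 1) 1 1)).1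
    have u3 := (abs_le.mp (hits_update (W a x y) ha hx hy
      (Function.update (Function.update g2 0 1) 1 1) (-1) 1)).1
    rw [← hg3] at u3
    have h2 : hits (W a x y) a x y g3 = ((((W a x y).filter fun w => a * w.1 * x⁻¹ ∈
        univ.filter (fun v => g3 v = 0) ∧ a * w.2 * w.1⁻¹ ∈ univ.filter (fun v => g3 v = 0) ∧
        y * w.2⁻¹ ∈ univ.filter (fun v => g3 v = 0)).card : ℕ) : ℝ) := by
      unfold hits
      simp only [mem_filter, mem_univ, true_and]
    rw [← h2]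
    have h3 : c * (p : ℝ) ^ 2 / (4 * (q : ℝ) ^ 3) + 18 * p ≤ c * (p : ℝ) ^ 2 / (2 * (q : ℝ) ^ 3) := by
      have h4 : c * (p : ℝ) ^ 2 / (2 * (q : ℝ) ^ 3) = c * (p : ℝ) ^ 2 / (4 * (q : ℝ) ^ 3) +
          c * (p : ℝ) ^ 2 / (4 * (q : ℝ) ^ 3) := by
        field_simp
        norm_num
      have h5 : 18 * (p : ℝ) ≤ c * (p : ℝ) ^ 2 / (4 * (q : ℝ) ^ 3) := by
        rw [le_div_iff₀ (by positivity)]
        have h6 := mul_le_mul_of_nonneg_right hA2 hp0.le
        linarith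
      linarith
    linarith

end Pool.Agent.MP_b34510_co
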