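import Mathlib

set_option autoImplicit false

open Finset Classical

namespace Pool.Agent.MP_b34510_co

/-- the case of sets of size exactly `L` and a finite type of tasks -/
theorem TR_main {Θ X : Type*} [Fintype Θ] [DecidableEq Θ] [Nonempty X] (S : Θ → Finset X) (conf : Θ → X → Θ → X → Prop)
    (hsymm : ∀ θ x θ' x', conf θ x θ' x' → conf θ' x' θ x) (L Δ : ℕ) (hL0 : 0 < L) (hLD : 4 * Δ ≤ L)
    (hL : ∀ θ, (S θ).card = L)
    (hΔ : ∀ θ, ∀ x ∈ S θ, ∑ θ' ∈ univ.erase θ, ((S θ').filter fun x' => conf θ x θ' x').card ≤ Δ) :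
    ∃ f : Θ → X, (∀ θ, f θ ∈ S θ) ∧ ∀ θ θ', θ ≠ θ' → ¬ conf θ (f θ) θ' (f θ') := by
  obtain ⟨x₀⟩ := ‹Nonempty X›
  obtain ⟨A, hA⟩ : ∃ A : Finset Θ → Finset (Θ → X), ∀ U f, f ∈ A U ↔ (∀ θ ∈ U, f θ ∈ S θ) ∧
      (∀ θ, θ ∉ U → f θ = x₀) ∧ ∀ θ ∈ U, ∀ θ' ∈ U, θ ≠ θ' → ¬ conf θ (f θ) θ' (f θ') := by
    refine ⟨fun U => (Fintype.piFinset (fun θ => if θ ∈ U then S θ else {x₀})).filter
      (fun f => ∀ θ ∈ U, ∀ θ' ∈ U, θ ≠ θ' → ¬ conf θ (f θ) θ' (f θ')), ?_⟩
    intro U f
    rw [mem_filter, Fintype.mem_piFinset]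
    constructor
    · rintro ⟨h1, h2⟩
      refine ⟨fun θ hθ => ?_, fun θ hθ => ?_, h2⟩
      · have := h1 θ
        rw [if_pos hθ] at this
        exact this
      · have := h1 θ
        rw [if_neg hθ, mem_singleton] at this
        exact this
    · rintro ⟨h1, h2, h3⟩
      refine ⟨fun θ => ?_, h3⟩
      by_cases hθ : θ ∈ U
      · rw [if_pos hθ]; exact h1 θ hθ
      · rw [if_neg hθ, mem_singleton]; exact h2 θ hθ
  have key : ∀ n : ℕ, ∀ U : Finset Θ, U.card = n → ∀ θ, θ ∉ U →
      L * (A U).card ≤ 2 * (A (insert θ U)).card := by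
    intro n
    induction n using Nat.strong_induction_on with
    | _ n ih =>
      intro U hUn θ hθ
      -- the fibres
      have hfib : ∀ θ' ∈ U, ∀ x', L * ((A U).filter (fun f => f θ' = x')).card ≤ 2 * (A U).card := by
        intro θ' hθ' x'
        have h1 : ((A U).filter (fun f => f θ' = x')).card ≤ (A (U.erase θ')).card := by
          refine card_le_card_of_injOn (fun f => Function.update f θ' x₀) ?_ ?_
          · intro f hf
            rw [mem_coe, mem_filter, hA] at hf
            obtain ⟨⟨h1, h2, h3⟩, h4⟩ := hf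
            rw [mem_coe, hA]
            simp only
            refine ⟨fun τ hτ => ?_, fun τ hτ => ?_, fun τ hτ τ' hτ' hne => ?_⟩
            · rw [mem_erase] at hτ
              rw [Function.update_of_ne hτ.1]
              exact h1 τ hτ.2
            · by_cases e : τ = θ'
              · rw [e, Function.update_self]
              · rw [Function.update_of_ne e]
                exact h2 τ (fun h => hτ (mem_erase.mpr ⟨e, h⟩))
            · rw [mem_erase] at hτ hτ'
              rw [Function.update_of_ne hτ.1, Function.update_of_ne hτ'.1]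
              exact h3 τ hτ.2 τ' hτ'.2 hne
          · intro f hf g hg hfg
            rw [mem_coe, mem_filter] at hf hg
            funext τ
            by_cases e : τ = θ'
            · rw [e, hf.2, hg.2]
            · have := congrFun hfg τ
              simp only at this
              rw [Function.update_of_ne e, Function.update_of_ne e] at this
              exact this
        have h2 := ih (U.erase θ').card (by rw [← hUn]; exact card_erase_lt_of_mem hθ') (U.erase θ') rfl θ'
          (notMem_erase _ _)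
        rw [insert_erase hθ'] at h2
        exact (Nat.mul_le_mul_left L h1).trans h2
      -- the bad functions for `x`
      have hbad : ∀ x ∈ S θ, L * ((A U).filter (fun f => ∃ θ' ∈ U, conf θ x θ' (f θ'))).card ≤
          Δ * (2 * (A U).card) := by
        intro x hx
        have h1 : ((A U).filter (fun f => ∃ θ' ∈ U, conf θ x θ' (f θ'))).card ≤
            ∑ θ' ∈ U, ∑ x' ∈ (S θ').filter (fun x' => conf θ x θ' x'),
              ((A U).filter (fun f => f θ' = x')).card := by
          have hsub : (A U).filter (fun f => ∃ θ' ∈ U, conf θ x θ' (f θ')) ⊆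
              U.biUnion (fun θ' => ((S θ').filter (fun x' => conf θ x θ' x')).biUnion
                (fun x' => (A U).filter (fun f => f θ' = x'))) := by
            intro f hf
            rw [mem_filter] at hf
            obtain ⟨hf1, θ', hθ', hc⟩ := hf
            rw [mem_biUnion]
            refine ⟨θ', hθ', ?_⟩
            rw [mem_biUnion]
            exact ⟨f θ', mem_filter.mpr ⟨((hA U f).mp hf1).1 θ' hθ', hc⟩, mem_filter.mpr ⟨hf1, rfl⟩⟩
          refine (card_le_card hsub).trans (card_biUnion_le.trans ?_)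
          exact sum_le_sum fun θ' _ => card_biUnion_le
        have h2 : L * (∑ θ' ∈ U, ∑ x' ∈ (S θ').filter (fun x' => conf θ x θ' x'),
              ((A U).filter (fun f => f θ' = x')).card) ≤
            ∑ θ' ∈ U, ((S θ').filter (fun x' => conf θ x θ' x')).card * (2 * (A U).card) := by
          rw [mul_sum]
          refine sum_le_sum fun θ' hθ' => ?_
          rw [mul_sum, ← smul_eq_mul (((S θ').filter (fun x' => conf θ x θ' x')).card), ← sum_const]
          exact sum_le_sum fun x' _ => hfib θ' hθ' x'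
        have h3 : ∑ θ' ∈ U, ((S θ').filter (fun x' => conf θ x θ' x')).card ≤ Δ := by
          refine le_trans ?_ (hΔ θ x hx)
          refine sum_le_sum_of_subset ?_
          intro τ hτ
          exact mem_erase.mpr ⟨fun e => hθ (e ▸ hτ), mem_univ _⟩
        rw [← sum_mul] at h2
        exact (Nat.mul_le_mul_left L h1).trans (h2.trans (Nat.mul_le_mul_right _ h3))
      -- bad pairs
      have hB : (((A U) ×ˢ (S θ)).filter (fun q => ¬ ∀ θ' ∈ U, ¬ conf θ q.2 θ' (q.1 θ'))).card ≤
          Δ * (2 * (A U).card) := by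
        have h1 : (((A U) ×ˢ (S θ)).filter (fun q => ¬ ∀ θ' ∈ U, ¬ conf θ q.2 θ' (q.1 θ'))).card ≤
            ∑ x ∈ S θ, ((A U).filter (fun f => ∃ θ' ∈ U, conf θ x θ' (f θ'))).card := by
          have hsub : ((A U) ×ˢ (S θ)).filter (fun q => ¬ ∀ θ' ∈ U, ¬ conf θ q.2 θ' (q.1 θ')) ⊆
              (S θ).biUnion (fun x => ((A U).filter (fun f => ∃ θ' ∈ U, conf θ x θ' (f θ'))).image
                (fun f => (f, x))) := by
            rintro ⟨f, x⟩ hq
            rw [mem_filter, mem_product] at hq
            obtain ⟨⟨h1, h2⟩, h3⟩ := hq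
            push Not at h3
            rw [mem_biUnion]
            refine ⟨x, h2, ?_⟩
            rw [mem_image]
            exact ⟨f, mem_filter.mpr ⟨h1, h3⟩, rfl⟩
          refine (card_le_card hsub).trans (card_biUnion_le.trans ?_)
          exact sum_le_sum fun x _ => card_image_le
        have h2 : L * ∑ x ∈ S θ, ((A U).filter (fun f => ∃ θ' ∈ U, conf θ x θ' (f θ'))).card ≤
            L * (Δ * (2 * (A U).card)) := by
          rw [mul_sum]
          refine (sum_le_sum fun x hx => hbad x hx).trans ?_
          rw [sum_const, smul_eq_mul, hL θ]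
        exact h1.trans (Nat.le_of_mul_le_mul_left h2 hL0)
      -- good pairs
      have hG : (((A U) ×ˢ (S θ)).filter (fun q => ∀ θ' ∈ U, ¬ conf θ q.2 θ' (q.1 θ'))).card ≤
          (A (insert θ U)).card := by
        refine card_le_card_of_injOn (fun q => Function.update q.1 θ q.2) ?_ ?_
        · rintro ⟨f, x⟩ hq
          rw [mem_coe, mem_filter, mem_product] at hq
          obtain ⟨⟨h1, h2⟩, h3⟩ := hq
          simp only at h1 h2 h3
          obtain ⟨g1, g2, g3⟩ := (hA U f).mp h1
          have hneU : ∀ τ ∈ U, τ ≠ θ := fun τ hτ e => hθ (e ▸ hτ)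
          rw [mem_coe, hA]
          simp only
          refine ⟨fun τ hτ => ?_, fun τ hτ => ?_, fun τ hτ τ' hτ' hne => ?_⟩
          · rw [mem_insert] at hτ
            rcases hτ with rfl | hτ
            · rw [Function.update_self]; exact h2
            · rw [Function.update_of_ne (hneU τ hτ)]; exact g1 τ hτ
          · rw [mem_insert, not_or] at hτ
            rw [Function.update_of_ne hτ.1]
            exact g2 τ hτ.2
          · rw [mem_insert] at hτ hτ'
            rcases hτ with rfl | hτ
            · rcases hτ' with rfl | hτ'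
              · exact absurd rfl hne
              · rw [Function.update_self, Function.update_of_ne (hneU τ' hτ')]
                exact h3 τ' hτ'
            · rcases hτ' with rfl | hτ'
              · rw [Function.update_self, Function.update_of_ne (hneU τ hτ)]
                exact fun hc => h3 τ hτ (hsymm _ _ _ _ hc)
              · rw [Function.update_of_ne (hneU τ hτ), Function.update_of_ne (hneU τ' hτ')]
                exact g3 τ hτ τ' hτ' hne
        · rintro ⟨f, x⟩ hq ⟨g, y⟩ hq' h
          rw [mem_coe, mem_filter, mem_product] at hq hq'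
          simp only at h hq hq'
          have e1 : x = y := by
            have := congrFun h θ
            rw [Function.update_self, Function.update_self] at this
            exact this
          have e2 : f = g := by
            funext τ
            by_cases e : τ = θ
            · rw [e, ((hA U f).mp hq.1.1).2.1 θ hθ, ((hA U g).mp hq'.1.1).2.1 θ hθ]
            · have := congrFun h τ
              rw [Function.update_of_ne e, Function.update_of_ne e] at this
              exact this
          rw [e1, e2]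
      have hsum := card_filter_add_card_filter_not (s := (A U) ×ˢ (S θ))
        (fun q => ∀ θ' ∈ U, ¬ conf θ q.2 θ' (q.1 θ'))
      rw [card_product, hL θ] at hsum
      have h4 : 4 * Δ * (A U).card ≤ L * (A U).card := Nat.mul_le_mul_right _ hLD
      have h5 : (A U).card * L = L * (A U).card := Nat.mul_comm _ _
      have h6 : Δ * (2 * (A U).card) * 2 = 4 * Δ * (A U).card := by ring
      omega
  have hpos : ∀ U : Finset Θ, 0 < (A U).card := by
    intro U
    induction U using Finset.induction_on with
    | empty =>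
      rw [card_pos]
      refine ⟨fun _ => x₀, ?_⟩
      rw [hA]
      exact ⟨fun θ hθ => absurd hθ (notMem_empty _), fun _ _ => rfl, fun θ hθ => absurd hθ (notMem_empty _)⟩
    | insert θ U hθ ih =>
      have h1 := key U.card U rfl θ hθ
      have h2 : 0 < L * (A U).card := Nat.mul_pos hL0 ih
      omega
  obtain ⟨f, hf⟩ := card_pos.mp (hpos univ)
  rw [hA] at hf
  exact ⟨f, fun θ => hf.1 θ (mem_univ _), fun θ θ' hne => hf.2.2 θ (mem_univ _) θ' (mem_univ _) hne⟩

/-- Independent transversals (`L ≥ 4 Δ`), for a finite set `T` of tasks.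
Proof: first pass to subsets of `S θ` of size exactly `L` (`Finset.exists_subset_card_eq`).  For `U ⊆ T` let
`N U` be the number of functions `f` on `U` (e.g. elements of `U.pi S`) with `f θ ∈ S θ` and no conflict.
Claim by induction on `|U|`: `2 N (U ∪ {θ}) ≥ L N U` for `θ ∉ U`, `U ∪ {θ} ⊆ T`.  Indeed the number of pairs
`(f, x)`, `f` counted by `N U`, `x ∈ S θ`, is `L N U`; if `(f, x)` is not conflict-free then for some `θ' ∈ U`
the elements `x` and `f θ'` are in conflict; the number of pairs `(x, x')` of elements of `S θ`, `S θ'`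
(`θ' ∈ U`) in conflict is at most `L Δ`, and for each of them the number of `f` with `f θ' = x'` is at most
`N (U \ {θ'}) ≤ 2 N U / L` (induction hypothesis for the smaller set `U \ {θ'}`).  So
`N (U ∪ {θ}) ≥ L N U - L Δ (2 / L) N U = (L - 2 Δ) N U ≥ (L / 2) N U`.  Hence `N T > 0`. -/
theorem indep_transversal {Θ X : Type*} [Nonempty X] (T : Finset Θ) (S : Θ → Finset X) (conf : Θ → X → Θ → X → Prop)
    (hsymm : ∀ θ x θ' x', conf θ x θ' x' → conf θ' x' θ x) (L Δ : ℕ) (hL0 : 0 < L) (hLD : 4 * Δ ≤ L)
    (hL : ∀ θ ∈ T, L ≤ (S θ).card)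
    (hΔ : ∀ θ ∈ T, ∀ x ∈ S θ, ∑ θ' ∈ T.erase θ, ((S θ').filter fun x' => conf θ x θ' x').card ≤ Δ) :
    ∃ f : Θ → X, (∀ θ ∈ T, f θ ∈ S θ) ∧ ∀ θ ∈ T, ∀ θ' ∈ T, θ ≠ θ' → ¬ conf θ (f θ) θ' (f θ') := by
  have hS : ∀ θ : T, ∃ S' : Finset X, S' ⊆ S θ.1 ∧ S'.card = L := fun θ =>
    exists_subset_card_eq (hL θ.1 θ.2)
  choose S' hS' hS'c using hS
  obtain ⟨f, hf1, hf2⟩ := TR_main (Θ := T) S' (fun θ x θ' x' => conf θ.1 x θ'.1 x')
    (fun θ x θ' x' h => hsymm _ _ _ _ h) L Δ hL0 hLD hS'c (by
      intro θ x hx
      refine le_trans ?_ (hΔ θ.1 θ.2 x (hS' θ hx))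
      have h1 : ∀ θ' ∈ (univ : Finset T).erase θ,
          ((S' θ').filter fun x' => conf θ.1 x θ'.1 x').card ≤
            ((S θ'.1).filter fun x' => conf θ.1 x θ'.1 x').card := fun θ' _ =>
        card_le_card (filter_subset_filter _ (hS' θ'))
      refine (sum_le_sum h1).trans ?_
      have h2 : ∑ θ' ∈ (univ : Finset T).erase θ, ((S θ'.1).filter fun x' => conf θ.1 x θ'.1 x').card =
          ∑ τ ∈ ((univ : Finset T).erase θ).map (Function.Embedding.subtype _),
            ((S τ).filter fun x' => conf θ.1 x τ x').card := by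
        rw [sum_map]
        rfl
      rw [h2]
      refine sum_le_sum_of_subset ?_
      intro τ hτ
      rw [mem_map] at hτ
      obtain ⟨τ', hτ', rfl⟩ := hτ
      rw [mem_erase] at hτ' ⊢
      exact ⟨fun e => hτ'.1 (Subtype.ext e), τ'.2⟩)
  obtain ⟨x₀⟩ := ‹Nonempty X›
  refine ⟨fun θ => if h : θ ∈ T then f ⟨θ, h⟩ else x₀, ?_, ?_⟩
  · intro θ hθ
    simp only [dif_pos hθ]
    exact hS' _ (hf1 ⟨θ, hθ⟩)
  · intro θ hθ θ' hθ' hne
    simp only [dif_pos hθ, dif_pos hθ']
    exact hf2 ⟨θ, hθ⟩ ⟨θ', hθ'⟩ (fun e => hne (congrArg Subtype.val e))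

end Pool.Agent.MP_b34510_co
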