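import Pool.Agent.MP_b34510_co.SQ.T1
import Pool.Agent.MP_b34510_co.SQ.LG
import Pool.Agent.MP_b34510_co.SQ.A1
import Pool.Agent.MP_b34510_co.SQ.RR
import Pool.Agent.MP_b34510_co.SQ.TR
import Pool.Agent.MP_b34510_co.SQ.AS4
import Pool.Agent.MP_b34510_co.SQ.CN2

set_option autoImplicit false

open Finset Classical

namespace Pool.Agent.MP_b34510_co

/-- Slope of a square. -/
def slope {p : ℕ} [Fact p.Prime] (s : ZMod p × ZMod p) : ZMod p := s.2 * s.1⁻¹

theorem slope_neg {p : ℕ} [Fact p.Prime] (s : ZMod p × ZMod p) : slope (-s) = slope s := by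
  unfold slope
  simp

theorem mem_pat {p : ℕ} [Fact p.Prime] {M : ℕ} {a : ZMod p} {Y : ZMod p → ZMod p}
    {f : ZMod p → ZMod p × ZMod p} {s : ZMod p × ZMod p} (h : s ∈ pat M a Y f) :
    (∃ i, InB M i ∧ s = (i, a * i)) ∨ ∃ x ∈ TT M a, ∃ j, s = nsq a x (Y x) (f x) j ∨ s = -nsq a x (Y x) (f x) j := by
  unfold pat at h
  rcases mem_union.mp h with h | h
  · obtain ⟨i, hi, rfl⟩ := mem_image.mp h
    exact Or.inl ⟨i, (mem_filter.mp hi).2.1.1, rfl⟩
  · unfold newSq at h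
    obtain ⟨x, hx, h⟩ := mem_biUnion.mp h
    obtain ⟨j, _, h⟩ := mem_biUnion.mp h
    refine Or.inr ⟨x, hx, j, ?_⟩
    simpa using h

theorem InB_ne {p : ℕ} [Fact p.Prime] {M : ℕ} {u : ZMod p} (h : InB M u) : u ≠ 0 := by
  rintro rfl
  have := h.1
  simp at this

/-- Patterns of different slopes are disjoint. -/
theorem pat_disj {p : ℕ} [Fact p.Prime] {M : ℕ} {a a' : ZMod p} {Y Y' : ZMod p → ZMod p}
    {f f' : ZMod p → ZMod p × ZMod p} {R : Finset (ZMod p)} (haa : a ≠ a') (ha : a ∉ R) (ha' : a' ∉ R)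
    (h1 : ∀ x ∈ TT M a, ∀ j, slope (nsq a x (Y x) (f x) j) ∈ R)
    (h2 : ∀ x ∈ TT M a', ∀ j, slope (nsq a' x (Y' x) (f' x) j) ∈ R)
    (hc : ∀ x ∈ TT M a, ∀ x' ∈ TT M a', ¬ Conf a x (Y x) (f x) a' x' (Y' x') (f' x')) :
    Disjoint (pat M a Y f) (pat M a' Y' f') := by
  rw [Finset.disjoint_left]
  intro s hs hs'
  have base : ∀ b i : ZMod p, InB M i → slope (i, b * i) = b := by
    intro b i hi
    unfold slope
    have := InB_ne hi
    field_simp
  have new1 : ∀ x ∈ TT M a, ∀ j, (s = nsq a x (Y x) (f x) j ∨ s = -nsq a x (Y x) (f x) j) → slope s ∈ R := by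
    intro x hx j h
    rcases h with rfl | rfl
    · exact h1 x hx j
    · rw [slope_neg]; exact h1 x hx j
  have new2 : ∀ x ∈ TT M a', ∀ j, (s = nsq a' x (Y' x) (f' x) j ∨ s = -nsq a' x (Y' x) (f' x) j) →
      slope s ∈ R := by
    intro x hx j h
    rcases h with rfl | rfl
    · exact h2 x hx j
    · rw [slope_neg]; exact h2 x hx j
  rcases mem_pat hs with ⟨i, hi, h⟩ | ⟨x, hx, j, h⟩
  · rcases mem_pat hs' with ⟨i', hi', h'⟩ | ⟨x', hx', j', h'⟩
    · apply haa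
      rw [← base a i hi, ← base a' i' hi', ← h, ← h']
    · apply ha
      rw [← base a i hi, ← h]
      exact new2 x' hx' j' h'
  · rcases mem_pat hs' with ⟨i', hi', h'⟩ | ⟨x', hx', j', h'⟩
    · apply ha'
      rw [← base a' i' hi', ← h']
      exact new1 x hx j h
    · apply hc x hx x' hx'
      left
      refine ⟨j, j', ?_⟩
      rcases h with h | h <;> rcases h' with h' | h'
      · left; rw [← h', ← h]
      · right; rw [← h, h', neg_neg]
      · right; rw [← h', h]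
      · left; rw [h] at h'; exact (neg_injective h').symm

/-- The slopes of the new squares of an admissible choice. -/
theorem slopes_mem {p : ℕ} [Fact p.Prime] {a x y : ZMod p} {w : ZMod p × ZMod p}
    {R : Finset (ZMod p)} (h1 : a * w.1 * x⁻¹ ∈ R) (h2 : a * w.2 * w.1⁻¹ ∈ R) (h3 : y * w.2⁻¹ ∈ R) (j : Fin 3) :
    slope (nsq a x y w j) ∈ R := by
  fin_cases j
  · simpa [slope, nsq] using h1
  · simpa [slope, nsq] using h2
  · simpa [slope, nsq] using h3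

theorem diffs_ne {p : ℕ} [Fact p.Prime] {s : ZMod p × ZMod p} {R : Finset (ZMod p)} (hs : s.1 ≠ 0)
    (h1 : (1 : ZMod p) ∉ R) (h2 : (-1 : ZMod p) ∉ R) (h : slope s ∈ R) : mdiff s ≠ 0 ∧ msum s ≠ 0 := by
  constructor
  · intro h0
    apply h1
    have : slope s = 1 := by
      unfold slope mdiff at *
      rw [← sub_eq_zero.mp h0]
      exact mul_inv_cancel₀ hs
    rwa [this] at h
  · intro h0
    apply h2
    have : slope s = -1 := by
      unfold slope msum at *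
      rw [eq_neg_of_add_eq_zero_right h0, neg_mul]
      rw [mul_inv_cancel₀ hs]
    rwa [this] at h

/-- The combinatorial core, all inputs as hypotheses. -/
theorem core_aux {p : ℕ} [Fact p.Prime] (hp : 2 < p) (M : ℕ) (hM : 2 * M + 1 ≤ p) (A R : Finset (ZMod p))
    (h1 : (1 : ZMod p) ∉ R) (h2 : (-1 : ZMod p) ∉ R) (hA0 : ∀ a ∈ A, a ≠ 0) (hA1 : ∀ a ∈ A, a ≠ 1)
    (hA2 : ∀ a ∈ A, a ≠ -1) (hAR : ∀ a ∈ A, a ∉ R)
    (hW : ∀ a ∈ A, ∀ x y : ZMod p, x ≠ 0 → y ≠ 0 → ∃ W : Finset (ZMod p × ZMod p),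
      304 * M * p + 18 * p + 1 ≤ W.card ∧ ∀ w ∈ W, (a * w.1 * x⁻¹ ∈ R ∧ a * w.2 * w.1⁻¹ ∈ R ∧ y * w.2⁻¹ ∈ R) ∧
        Free a (x, a * w.1) ∧ Free a (w.1, a * w.2) ∧ Free a (w.2, y)) :
    Packs (p - 1 - 2 * M) A.card := by
  have hY : ∀ a : ZMod p, ∃ Y : ZMod p → ZMod p, a ≠ 0 → ((∀ x ∈ TT M a, Y x ∈ CC M a) ∧
      (∀ x ∈ TT M a, ∀ x' ∈ TT M a, Y x = Y x' → x = x') ∧ ∀ v ∈ CC M a, ∃ x ∈ TT M a, Y x = v) := by
    intro a
    by_cases ha : a = 0
    · exact ⟨id, fun h => absurd ha h⟩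
    · obtain ⟨Y, hY⟩ := exists_pairing hp M ha
      exact ⟨Y, fun _ => hY⟩
  choose Y hY using hY
  have hx0 : ∀ (a x : ZMod p), x ∈ TT M a → x ≠ 0 := fun a x hx => InB_ne (mem_filter.mp hx).2.1
  have hy0 : ∀ (a : ZMod p), a ≠ 0 → ∀ x, x ∈ TT M a → Y a x ≠ 0 := fun a ha x hx =>
    InB_ne (mem_filter.mp ((hY a ha).1 x hx)).2.1
  -- candidate sets
  have hS : ∀ θ : ZMod p × ZMod p, ∃ S : Finset (ZMod p × ZMod p), θ ∈ tasks M A →
      (296 * M * p + 1 ≤ S.card ∧ ∀ w ∈ S,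
        (θ.1 * w.1 * (θ.2)⁻¹ ∈ R ∧ θ.1 * w.2 * w.1⁻¹ ∈ R ∧ Y θ.1 θ.2 * w.2⁻¹ ∈ R) ∧
        (Free θ.1 (θ.2, θ.1 * w.1) ∧ Free θ.1 (w.1, θ.1 * w.2) ∧ Free θ.1 (w.2, Y θ.1 θ.2)) ∧
        Adm M θ.1 θ.2 (Y θ.1 θ.2) w) := by
    intro θ
    by_cases hθ : θ ∈ tasks M A
    · have hθ2 := mem_filter.mp hθ
      have haA : θ.1 ∈ A := (mem_product.mp hθ2.1).1
      have hxT : θ.2 ∈ TT M θ.1 := hθ2.2
      have ha0 := hA0 _ haA
      obtain ⟨W, hWc, hWp⟩ := hW θ.1 haA θ.2 (Y θ.1 θ.2) (hx0 _ _ hxT) (hy0 _ ha0 _ hxT)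
      refine ⟨W.filter fun w => Adm M θ.1 θ.2 (Y θ.1 θ.2) w, fun _ => ⟨?_, ?_⟩⟩
      · have hsplit := Finset.card_filter_add_card_filter_not (s := W)
          (fun w => Adm M θ.1 θ.2 (Y θ.1 θ.2) w)
        have hle : (W.filter fun w => ¬ Adm M θ.1 θ.2 (Y θ.1 θ.2) w).card ≤ (8 * M + 18) * p :=
          le_trans (card_le_card (filter_subset_filter _ (subset_univ W)))
            (not_adm_count M ha0 θ.2 (Y θ.1 θ.2))
        have : (8 * M + 18) * p = 8 * M * p + 18 * p := by ring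
        have h3 : 304 * M * p = 296 * M * p + 8 * M * p := by ring
        omega
      · intro w hw
        have hw2 := mem_filter.mp hw
        exact ⟨(hWp w hw2.1).1, (hWp w hw2.1).2, hw2.2⟩
    · exact ⟨∅, fun h => absurd h hθ⟩
  choose S hS using hS
  obtain ⟨F, hF1, hF2⟩ := indep_transversal (tasks M A) S
    (fun θ c θ' c' => Conf θ.1 θ.2 (Y θ.1 θ.2) c θ'.1 θ'.2 (Y θ'.1 θ'.2) c')
    (fun θ x θ' x' h => conf_symm h) (296 * M * p + 1) (74 * M * p) (by omega)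
    (by have : 4 * (74 * M * p) = 296 * M * p := by ring
        omega)
    (fun θ hθ => (hS θ hθ).1)
    (by
      intro θ hθ c hc
      have haA : θ.1 ∈ A := (mem_product.mp (mem_filter.mp hθ).1).1
      refine le_trans ?_ (conf_count hp M hA0 (fun a ha => (hY a (hA0 a ha)).1)
        (fun a ha => (hY a (hA0 a ha)).2.1) (x := θ.2) haA (Y θ.1 θ.2) c)
      have hsub : (@Finset.erase _ (fun a b => Classical.propDecidable (a = b)) (tasks M A) θ) ⊆ tasks M A := by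
        intro z hz
        rw [@Finset.mem_erase _ (fun a b => Classical.propDecidable (a = b))] at hz
        exact hz.2
      refine le_trans (Finset.sum_le_sum_of_subset hsub) ?_
      apply Finset.sum_le_sum
      intro θ' _
      exact card_le_card (filter_subset_filter _ (subset_univ _)))
  have htask : ∀ a ∈ A, ∀ x ∈ TT M a, (a, x) ∈ tasks M A := fun a ha x hx =>
    mem_filter.mpr ⟨mem_product.mpr ⟨ha, mem_univ _⟩, hx⟩
  have key : ∀ a ∈ A, ∀ x ∈ TT M a, _ := fun a ha x hx => (hS (a, x) (htask a ha x hx)).2 _ (hF1 (a, x) (htask a ha x hx))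
  have hslope : ∀ a ∈ A, ∀ x ∈ TT M a, ∀ j, slope (nsq a x (Y a x) (F (a, x)) j) ∈ R := by
    intro a ha x hx j
    have h := (key a ha x hx).1
    exact slopes_mem h.1 h.2.1 h.2.2 j
  have hdata : ∀ a ∈ A, Data M a (Y a) (fun x => F (a, x)) := by
    intro a ha
    refine ⟨hp, hM, hA0 a ha, hA1 a ha, hA2 a ha, (hY a (hA0 a ha)).1, (hY a (hA0 a ha)).2.1,
      (hY a (hA0 a ha)).2.2, ?_, ?_, ?_, ?_⟩
    · intro x hx
      exact (key a ha x hx).2.2
    · intro x hx j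
      have h := (key a ha x hx).2.1
      fin_cases j
      · exact h.1
      · exact h.2.1
      · exact h.2.2
    · intro x hx j
      have h := hslope a ha x hx j
      refine diffs_ne ?_ h1 h2 h
      have hadm := (key a ha x hx).2.2
      fin_cases j
      · exact hx0 a x hx
      · exact InB_ne hadm.1.1
      · exact InB_ne hadm.2.1.1
    · intro x hx x' hx' hxx
      exact hF2 (a, x) (htask a ha x hx) (a, x') (htask a ha x' hx') (by simpa using hxx)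
  have e := A.equivFin
  refine packs_of_goodpats hp M A.card
    (fun i => pat M ((e.symm i : A) : ZMod p) (Y ((e.symm i : A) : ZMod p)) (fun x => F (((e.symm i : A) : ZMod p), x)))
    (fun i => goodPat_pat (hdata _ (e.symm i).2)) ?_
  intro i j hij
  have hne : ((e.symm i : A) : ZMod p) ≠ ((e.symm j : A) : ZMod p) := by
    intro h
    exact hij (e.symm.injective (Subtype.ext h))
  refine pat_disj (R := R) hne (hAR _ (e.symm i).2) (hAR _ (e.symm j).2)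
    (fun x hx k => hslope _ (e.symm i).2 x hx k) (fun x hx k => hslope _ (e.symm j).2 x hx k) ?_
  intro x hx x' hx'
  refine hF2 (_, x) (htask _ (e.symm i).2 x hx) (_, x') (htask _ (e.symm j).2 x' hx') ?_
  intro h
  exact hne (congrArg Prod.fst h)

theorem core : ∃ C : ℝ, 0 < C ∧ ∀ p : ℕ, p.Prime → 2 < p → ∀ M q : ℕ, 1 ≤ q →
    C * (q : ℝ) ^ 3 * ((M : ℝ) + 1) ≤ p → C * (q : ℝ) ^ 6 * Real.log p ≤ p →
      ∃ k : ℕ, Packs (p - 1 - 2 * M) k ∧ (p : ℝ) - 2 * p / q - C ≤ k := by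
  obtain ⟨K, c₀, p₀, hc₀, hG⟩ := lemmaG
  obtain ⟨N, hN⟩ := card_not_gen K
  obtain ⟨C₁, hC₁, hR⟩ := exists_R (c₀ ^ 2) (by positivity)
  refine ⟨C₁ + N + p₀ + 1400 / c₀ ^ 2 + 3, by positivity, ?_⟩
  intro p hpp hp M q hq h3 h6
  haveI : Fact p.Prime := ⟨hpp⟩
  have hp0 : (0 : ℝ) < p := by exact_mod_cast hpp.pos
  have hq1 : (1 : ℝ) ≤ q := by exact_mod_cast hq
  have hq3 : (1 : ℝ) ≤ (q : ℝ) ^ 3 := one_le_pow₀ hq1
  have hM0 : (0 : ℝ) ≤ M := Nat.cast_nonneg M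
  have hc2 : 0 < 1400 / c₀ ^ 2 := by positivity
  have hN0 : (0 : ℝ) ≤ N := Nat.cast_nonneg N
  have hp₀0 : (0 : ℝ) ≤ p₀ := Nat.cast_nonneg p₀
  set C := C₁ + N + p₀ + 1400 / c₀ ^ 2 + 3 with hC
  have hC0 : 0 < C := by positivity
  -- consequences of the first size condition
  have hq3M : (M : ℝ) + 1 ≤ (q : ℝ) ^ 3 * ((M : ℝ) + 1) := by nlinarith
  have hCp : C * ((M : ℝ) + 1) ≤ p := by
    refine le_trans ?_ h3
    rw [mul_assoc]
    exact mul_le_mul_of_nonneg_left hq3M hC0.le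
  have hCp1 : C ≤ p := by nlinarith
  have hp₀ : p₀ ≤ p := by
    have : (p₀ : ℝ) ≤ p := by linarith
    exact_mod_cast this
  have hMp : 2 * M + 1 ≤ p := by
    have : (2 : ℝ) * M + 1 ≤ p := by nlinarith
    exact_mod_cast this
  -- the sets W
  have hW : ∀ a x y : ZMod p, ∃ W : Finset (ZMod p × ZMod p),
      (W = ∅ ∨ c₀ ^ 2 * (p : ℝ) ^ 2 ≤ ((W.card : ℕ) : ℝ)) ∧
      (∀ w ∈ W, Free a (x, a * w.1) ∧ Free a (w.1, a * w.2) ∧ Free a (w.2, y)) ∧
      (Gen K a → x ≠ 0 → y ≠ 0 → c₀ ^ 2 * (p : ℝ) ^ 2 ≤ ((W.card : ℕ) : ℝ)) := by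
    intro a x y
    by_cases h : Gen K a ∧ x ≠ 0 ∧ y ≠ 0
    · obtain ⟨W₁, W₂, hW1, hW2, hF⟩ := hG p hp₀ a h.1 x y h.2.1 h.2.2
      have hcard : c₀ ^ 2 * (p : ℝ) ^ 2 ≤ (((W₁ ×ˢ W₂).card : ℕ) : ℝ) := by
        rw [card_product]
        push_cast
        have : c₀ ^ 2 * (p : ℝ) ^ 2 = (c₀ * p) * (c₀ * p) := by ring
        rw [this]
        exact mul_le_mul hW1 hW2 (by positivity) (by positivity)
      refine ⟨W₁ ×ˢ W₂, Or.inr hcard, ?_, fun _ _ _ => hcard⟩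
      intro w hw
      exact hF w.1 (mem_product.mp hw).1 w.2 (mem_product.mp hw).2
    · refine ⟨∅, Or.inl rfl, by simp, ?_⟩
      intro h1 h2 h3
      exact absurd ⟨h1, h2, h3⟩ h
  choose W hW1 hW2 hW3 using hW
  have h6' : C₁ * (q : ℝ) ^ 6 * Real.log p ≤ p := by
    refine le_trans ?_ h6
    have hlog : 0 ≤ Real.log p := Real.log_natCast_nonneg p
    have : C₁ ≤ C := by linarith
    have hq6 : (0 : ℝ) ≤ (q : ℝ) ^ 6 := by positivity
    exact mul_le_mul_of_nonneg_right (mul_le_mul_of_nonneg_right this hq6) hlog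
  obtain ⟨R, hRc, hR0, hR1, hR2, hRW⟩ := hR p q hq h6' W hW1
  set A : Finset (ZMod p) := Finset.univ.filter fun a => Gen K a ∧ a ∉ R with hA
  have hAm : ∀ a ∈ A, Gen K a ∧ a ∉ R := fun a ha => (mem_filter.mp ha).2
  refine ⟨A.card, ?_, ?_⟩
  · refine core_aux hp M hMp A R hR1 hR2 (fun a ha => (hAm a ha).1.1) (fun a ha => (hAm a ha).1.2.1)
      (fun a ha => (hAm a ha).1.2.2.1) (fun a ha => (hAm a ha).2) ?_
    intro a ha x y hx hy
    refine ⟨(W a x y).filter fun w => a * w.1 * x⁻¹ ∈ R ∧ a * w.2 * w.1⁻¹ ∈ R ∧ y * w.2⁻¹ ∈ R, ?_, ?_⟩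
    · have hbig := hW3 a x y (hAm a ha).1 hx hy
      have hWne : W a x y ≠ ∅ := by
        intro h
        rw [h] at hbig
        simp only [card_empty, Nat.cast_zero] at hbig
        have : 0 < c₀ ^ 2 * (p : ℝ) ^ 2 := by positivity
        linarith
      rcases hRW a x y (hAm a ha).1.1 hx hy with h | h
      · exact absurd h hWne
      · have hgoal : (304 * M * p + 18 * p + 1 : ℝ) ≤ c₀ ^ 2 * (p : ℝ) ^ 2 / (4 * (q : ℝ) ^ 3) := by
          rw [le_div_iff₀ (by positivity)]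
          have e1 : 1400 / c₀ ^ 2 * ((q : ℝ) ^ 3 * ((M : ℝ) + 1)) ≤ p := by
            have : 1400 / c₀ ^ 2 ≤ C := by linarith
            calc 1400 / c₀ ^ 2 * ((q : ℝ) ^ 3 * ((M : ℝ) + 1)) ≤ C * ((q : ℝ) ^ 3 * ((M : ℝ) + 1)) :=
                  mul_le_mul_of_nonneg_right this (by positivity)
              _ = C * (q : ℝ) ^ 3 * ((M : ℝ) + 1) := by ring
              _ ≤ p := h3
          have e2 : 1400 * ((q : ℝ) ^ 3 * ((M : ℝ) + 1)) ≤ c₀ ^ 2 * p := by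
            have := mul_le_mul_of_nonneg_left e1 (show 0 ≤ c₀ ^ 2 by positivity)
            calc 1400 * ((q : ℝ) ^ 3 * ((M : ℝ) + 1)) = c₀ ^ 2 * (1400 / c₀ ^ 2 * ((q : ℝ) ^ 3 * ((M : ℝ) + 1))) := by
                  field_simp
              _ ≤ c₀ ^ 2 * p := this
          have hp1 : (1 : ℝ) ≤ p := by exact_mod_cast hpp.one_le
          have e3 : (304 * M * p + 18 * p + 1 : ℝ) ≤ 350 * ((M : ℝ) + 1) * p := by nlinarith
          calc (304 * M * p + 18 * p + 1 : ℝ) * (4 * (q : ℝ) ^ 3)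
              ≤ (350 * ((M : ℝ) + 1) * p) * (4 * (q : ℝ) ^ 3) :=
                mul_le_mul_of_nonneg_right e3 (by positivity)
            _ = (1400 * ((q : ℝ) ^ 3 * ((M : ℝ) + 1))) * p := by ring
            _ ≤ (c₀ ^ 2 * p) * p := mul_le_mul_of_nonneg_right e2 hp0.le
            _ = c₀ ^ 2 * (p : ℝ) ^ 2 := by ring
        have := le_trans hgoal h
        exact_mod_cast this
    · intro w hw
      exact ⟨(mem_filter.mp hw).2, hW2 a x y w (mem_filter.mp hw).1⟩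
  · have hun : (Finset.univ : Finset (ZMod p)) ⊆ A ∪ ((Finset.univ.filter fun a : ZMod p => ¬ Gen K a) ∪ R) := by
      intro a _
      by_cases h1 : Gen K a
      · by_cases h2 : a ∈ R
        · exact mem_union_right _ (mem_union_right _ h2)
        · exact mem_union_left _ (mem_filter.mpr ⟨mem_univ _, h1, h2⟩)
      · exact mem_union_right _ (mem_union_left _ (mem_filter.mpr ⟨mem_univ _, h1⟩))
    have hc := card_le_card hun
    rw [card_univ, ZMod.card] at hc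
    have hc2 : p ≤ A.card + (N + R.card) :=
      le_trans hc (le_trans (card_union_le _ _) (Nat.add_le_add_left
        (le_trans (card_union_le _ _) (Nat.add_le_add_right (hN p) _)) _))
    have hc3 : (p : ℝ) ≤ A.card + (N + R.card) := by exact_mod_cast hc2
    linarith

end Pool.Agent.MP_b34510_co
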