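import Mathlib

set_option autoImplicit false

/-!
# Packing centrosymmetric queens patterns: definitions

Squares of the board are pairs of integers `(i, j)`, `1 ≤ i, j ≤ n`.  Everything is done in p-coordinates:
`p` is a prime `> n`, `p = n + 1 + 2M`, and the square `(i, j)` is the pair of residues `(i + M, j + M)`
modulo `p`; the board is `InB M`, and the half-turn is the negation of residues.
-/

namespace Pool.Agent.MP_b34510_co

/-- A queens pattern on the `n × n` board: `n` squares, no two in the same row, column or diagonal. -/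
def IsPattern (n : ℕ) (P : Finset (ℤ × ℤ)) : Prop :=
  P.card = n ∧ (∀ s ∈ P, 1 ≤ s.1 ∧ s.1 ≤ n ∧ 1 ≤ s.2 ∧ s.2 ≤ n) ∧
    ∀ s ∈ P, ∀ t ∈ P, s ≠ t →
      s.1 ≠ t.1 ∧ s.2 ≠ t.2 ∧ s.1 - s.2 ≠ t.1 - t.2 ∧ s.1 + s.2 ≠ t.1 + t.2

/-- Invariance under the half-turn about the centre of the `n × n` board. -/
def Centro (n : ℕ) (P : Finset (ℤ × ℤ)) : Prop :=
  ∀ s ∈ P, ((n : ℤ) + 1 - s.1, (n : ℤ) + 1 - s.2) ∈ P

/-- There are `k` pairwise disjoint centrosymmetric queens patterns on the `n × n` board. -/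
def Packs (n k : ℕ) : Prop :=
  ∃ F : Fin k → Finset (ℤ × ℤ), (∀ i, IsPattern n (F i) ∧ Centro n (F i)) ∧
    ∀ i j, i ≠ j → Disjoint (F i) (F j)

/-- The largest number of pairwise disjoint centrosymmetric queens patterns on the `n × n` board. -/
noncomputable def SQ (n : ℕ) : ℕ := sSup {k | Packs n k}

variable {p : ℕ}

/-- The integer difference of the representatives in `[0, p)` of the two coordinates. -/
def idiff (s : ZMod p × ZMod p) : ℤ := (s.1.val : ℤ) - (s.2.val : ℤ)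

/-- The integer sum of the representatives in `[0, p)` of the two coordinates. -/
def isum (s : ZMod p × ZMod p) : ℤ := (s.1.val : ℤ) + (s.2.val : ℤ)

/-- The rows (and columns) of the board in p-coordinates: representatives `M + 1, ..., p - 1 - M`. -/
def InB (M : ℕ) (u : ZMod p) : Prop := M < u.val ∧ u.val + M < p

instance (M : ℕ) (u : ZMod p) : Decidable (InB M u) := by unfold InB; infer_instance

/-- A centrosymmetric queens pattern in p-coordinates. -/
structure GoodPat (M : ℕ) (P : Finset (ZMod p × ZMod p)) : Prop where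
  board : ∀ s ∈ P, InB M s.1 ∧ InB M s.2
  card : P.card + 2 * M + 1 = p
  sep : ∀ s ∈ P, ∀ t ∈ P, s ≠ t →
    s.1 ≠ t.1 ∧ s.2 ≠ t.2 ∧ idiff s ≠ idiff t ∧ isum s ≠ isum t
  symm : ∀ s ∈ P, -s ∈ P

/-- The square `s` is on no diagonal occupied by the line pattern `{(i, a i) : i ≠ 0}`. -/
def Free (a : ZMod p) (s : ZMod p × ZMod p) : Prop :=
  ∀ i : ZMod p, i ≠ 0 → idiff (i, a * i) ≠ idiff s ∧ isum (i, a * i) ≠ isum s

/-- `ρ` is, modulo `1`, strictly between `0` and `e`. -/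
def Arc (e ρ : ℝ) : Prop := ∃ k : ℤ, (0 < ρ - k ∧ ρ - k < e) ∨ (e < ρ - k ∧ ρ - k < 0)

/-- `x` is, modulo `1`, at distance less than `r` from `c`. -/
def Near (r c x : ℝ) : Prop := ∃ k : ℤ, |x - c - k| < r

/-- The position in `[0, 1)` of a residue. -/
noncomputable def fr (u : ZMod p) : ℝ := (u.val : ℝ) / p

/-- No nontrivial integer relation with coefficients bounded by `K` between four residues. -/
def Indep (K : ℕ) (c : Fin 4 → ZMod p) : Prop :=
  ∀ k : Fin 4 → ℤ, (∀ j, |k j| ≤ (K : ℤ)) → (∃ j, k j ≠ 0) → ∑ j, ((k j : ℤ) : ZMod p) * c j ≠ 0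

/-- Generic multipliers `a`. -/
def Gen (K : ℕ) (a : ZMod p) : Prop :=
  a ≠ 0 ∧ a ≠ 1 ∧ a ≠ -1 ∧ Indep K ![a, a * (1 - a)⁻¹, a * (1 + a)⁻¹, 1] ∧
    Indep K ![a, 1, (1 - a)⁻¹, (1 + a)⁻¹]

/-- The rows to be filled in the pattern of slope `a`, one of each pair `{u, -u}`. -/
def TT (M : ℕ) (a : ZMod p) [NeZero p] : Finset (ZMod p) :=
  Finset.univ.filter fun u => InB M u ∧ ¬ InB M (a * u) ∧ 2 * u.val < p

/-- The columns to be filled in the pattern of slope `a`, one of each pair `{v, -v}`. -/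
def CC (M : ℕ) (a : ZMod p) [NeZero p] : Finset (ZMod p) :=
  Finset.univ.filter fun v => InB M v ∧ ¬ InB M (a⁻¹ * v) ∧ 2 * v.val < p

/-- The three new squares of the task `(a, x, y)` with the choice `c = (s, t)`. -/
def nsq (a x y : ZMod p) (c : ZMod p × ZMod p) : Fin 3 → ZMod p × ZMod p :=
  ![(x, a * c.1), (c.1, a * c.2), (c.2, y)]

/-- Difference and sum of the coordinates modulo `p`. -/
def mdiff (s : ZMod p × ZMod p) : ZMod p := s.1 - s.2

def msum (s : ZMod p × ZMod p) : ZMod p := s.1 + s.2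

/-- Admissible choices of a single task. -/
def Adm (M : ℕ) (a x y : ZMod p) (c : ZMod p × ZMod p) : Prop :=
  (InB M c.1 ∧ InB M (a * c.1)) ∧ (InB M c.2 ∧ InB M (a * c.2)) ∧ c.1 ≠ c.2 ∧ c.1 ≠ -c.2 ∧
    ∀ i j : Fin 3, i ≠ j →
      mdiff (nsq a x y c i) ≠ mdiff (nsq a x y c j) ∧ mdiff (nsq a x y c i) ≠ -mdiff (nsq a x y c j) ∧
      msum (nsq a x y c i) ≠ msum (nsq a x y c j) ∧ msum (nsq a x y c i) ≠ -msum (nsq a x y c j)

/-- Conflict between the choices of two tasks. -/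
def Conf (a x y : ZMod p) (c : ZMod p × ZMod p) (a' x' y' : ZMod p) (c' : ZMod p × ZMod p) : Prop :=
  (∃ i j : Fin 3, nsq a' x' y' c' j = nsq a x y c i ∨ nsq a' x' y' c' j = -nsq a x y c i) ∨
  (a = a' ∧ ((c'.1 = c.1 ∨ c'.1 = -c.1 ∨ c'.1 = c.2 ∨ c'.1 = -c.2) ∨
    (c'.2 = c.1 ∨ c'.2 = -c.1 ∨ c'.2 = c.2 ∨ c'.2 = -c.2) ∨
    (∃ i j : Fin 3, mdiff (nsq a' x' y' c' j) = mdiff (nsq a x y c i) ∨
      mdiff (nsq a' x' y' c' j) = -mdiff (nsq a x y c i) ∨
      msum (nsq a' x' y' c' j) = msum (nsq a x y c i) ∨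
      msum (nsq a' x' y' c' j) = -msum (nsq a x y c i))))

end Pool.Agent.MP_b34510_co
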