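import Pool.Agent.MP_b34510_co.SQ.Defs

set_option autoImplicit false

open Finset

namespace Pool.Agent.MP_b34510_co

/-- The sum of the characters over an interval. -/
noncomputable def esum {p : ℕ} [NeZero p] (L : ℕ) (k : ZMod p) : ℂ :=
  ∑ j ∈ range L, ZMod.stdAddChar ((j : ZMod p) * k)

/-- The tent of half-width `L`. -/
def tent {p : ℕ} (L : ℕ) (u : ZMod p) : ℕ :=
  ((range L ×ˢ range L).filter fun ij : ℕ × ℕ => ((ij.1 : ZMod p) - (ij.2 : ZMod p)) = u).card

end Pool.Agent.MP_b34510_co
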