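import Pool.Agent.MP_b34510_co.SQ.E0

set_option autoImplicit false

open Finset

namespace Pool.Agent.MP_b34510_co

theorem E1a_norm {p : ℕ} [Fact p.Prime] (k : ZMod p) :
    4 * |(k.valMinAbs : ℝ)| / p ≤ ‖ZMod.stdAddChar k - 1‖ := by
  have hp : (0 : ℝ) < p := by exact_mod_cast (Fact.out : p.Prime).pos
  set m : ℤ := k.valMinAbs with hm
  have h1 : ZMod.stdAddChar k = Complex.exp (Complex.I * ((2 * Real.pi * m / p : ℝ) : ℂ)) := by
    have h2 : k = ((m : ℤ) : ZMod p) := by rw [hm, ZMod.coe_valMinAbs]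
    rw [h2, ZMod.stdAddChar_coe]
    congr 1
    push_cast
    ring
  rw [h1, Complex.norm_exp_I_mul_ofReal_sub_one, norm_mul, Real.norm_of_nonneg (by norm_num),
    Real.norm_eq_abs]
  have h3 : 2 * Real.pi * (m : ℝ) / p / 2 = Real.pi * m / p := by ring
  rw [h3]
  have h4 : |Real.pi * (m : ℝ) / p| = Real.pi * |(m : ℝ)| / p := by
    rw [abs_div, abs_mul, abs_of_pos Real.pi_pos, abs_of_pos hp]
  have h5 : |(m : ℝ)| ≤ p / 2 := by
    have h6 := ZMod.natAbs_valMinAbs_le k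
    have h7 : (m.natAbs : ℝ) ≤ ((p / 2 : ℕ) : ℝ) := by exact_mod_cast h6
    have h8 : ((p / 2 : ℕ) : ℝ) ≤ (p : ℝ) / 2 := by exact_mod_cast Nat.cast_div_le (α := ℝ) (m := p) (n := 2)
    have h9 : (m.natAbs : ℝ) = |(m : ℝ)| := by
      rw [Nat.cast_natAbs, Int.cast_abs]
    rw [← h9]
    exact h7.trans h8
  have h10 : |Real.pi * (m : ℝ) / p| ≤ Real.pi / 2 := by
    rw [h4, div_le_div_iff₀ hp (by norm_num)]
    nlinarith [Real.pi_pos]
  have h11 := Real.mul_abs_le_abs_sin h10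
  rw [h4] at h11
  have h12 : 2 / Real.pi * (Real.pi * |(m : ℝ)| / p) = 2 * |(m : ℝ)| / p := by
    field_simp
  rw [h12] at h11
  calc 4 * |(m : ℝ)| / p = 2 * (2 * |(m : ℝ)| / p) := by ring
    _ ≤ _ := by linarith

/-- Proof: geometric sum, `|e(k) - 1| = 2 |sin(π k / p)| ≥ 4 |k| / p` for the absolute least residue `k`
(`Real.mul_le_sin` / Jordan's inequality), numerator at most `2`. -/
theorem esum_bound {p : ℕ} [Fact p.Prime] (L : ℕ) {k : ZMod p} (hk : k ≠ 0) :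
    ‖esum L k‖ ≤ p / (2 * |(k.valMinAbs : ℝ)|) := by
  have hp : (0 : ℝ) < p := by exact_mod_cast (Fact.out : p.Prime).pos
  have hm : 0 < |(k.valMinAbs : ℝ)| := by
    rw [abs_pos]
    exact_mod_cast (ZMod.valMinAbs_eq_zero k).not.2 hk
  have h1 := E1a_norm k
  have hpos : 0 < ‖ZMod.stdAddChar k - 1‖ := lt_of_lt_of_le (by positivity) h1
  have h2 : (ZMod.stdAddChar k - 1) * esum L k = ZMod.stdAddChar k ^ L - 1 := by
    rw [← mul_geom_sum]
    congr 1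
    refine Finset.sum_congr rfl fun j _ => ?_
    rw [← AddChar.map_nsmul_eq_pow, nsmul_eq_mul]
  have h3 : ‖ZMod.stdAddChar k - 1‖ * ‖esum L k‖ ≤ 2 := by
    rw [← norm_mul, h2]
    refine (norm_sub_le _ _).trans ?_
    rw [norm_pow, AddChar.norm_apply, one_pow, norm_one]
    norm_num
  rw [le_div_iff₀ (by positivity)]
  have h4 : 4 * |(k.valMinAbs : ℝ)| / p * ‖esum L k‖ ≤ 2 :=
    (mul_le_mul_of_nonneg_right h1 (norm_nonneg _)).trans h3
  rw [div_mul_eq_mul_div, div_le_iff₀ hp] at h4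
  nlinarith

/-- Proof: `esum_bound` and `2 ∑_{n > K} 1 / n² ≤ 2 / K`. -/
theorem esum_tail {p : ℕ} [Fact p.Prime] (L : ℕ) {K : ℕ} (hK : 0 < K) :
    ∑ k ∈ Finset.univ.filter (fun k : ZMod p => (K : ℤ) < |k.valMinAbs|), ‖esum L k‖ ^ 2
      ≤ (p : ℝ) ^ 2 / (2 * K) := by
  classical
  have hp : (0 : ℝ) < p := by exact_mod_cast (Fact.out : p.Prime).pos
  have hKr : (0 : ℝ) < K := by exact_mod_cast hK
  set S := Finset.univ.filter (fun k : ZMod p => (K : ℤ) < |k.valMinAbs|) with hS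
  have hmaps : ∀ k ∈ S, k.valMinAbs.natAbs ∈ Finset.Ioc K (K + p) := by
    intro k hk
    have h1 := (Finset.mem_filter.1 hk).2
    have h2 := ZMod.natAbs_valMinAbs_le k
    rw [Int.abs_eq_natAbs] at h1
    have h3 : p / 2 ≤ p := Nat.div_le_self p 2
    rw [Finset.mem_Ioc]
    exact ⟨by exact_mod_cast h1, by omega⟩
  rw [← Finset.sum_fiberwise_of_maps_to hmaps]
  have hfib : ∀ n ∈ Finset.Ioc K (K + p),
      ∑ k ∈ S with k.valMinAbs.natAbs = n, ‖esum L k‖ ^ 2 ≤ (p : ℝ) ^ 2 / 2 * ((n : ℝ) ^ 2)⁻¹ := by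
    intro n hn
    have hn0 : 0 < n := by
      have := (Finset.mem_Ioc.1 hn).1
      omega
    have hnr : (0 : ℝ) < n := by exact_mod_cast hn0
    have hcard : (S.filter fun k => k.valMinAbs.natAbs = n).card ≤ 2 := by
      refine (Finset.card_le_card (t := {((n : ℤ) : ZMod p), ((-n : ℤ) : ZMod p)}) ?_).trans
        Finset.card_le_two
      intro k hk
      have h1 := (Finset.mem_filter.1 hk).2
      rw [Finset.mem_insert, Finset.mem_singleton]
      rcases Int.natAbs_eq k.valMinAbs with h2 | h2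
      · left
        rw [← h1, ← h2, ZMod.coe_valMinAbs]
      · right
        rw [← h1, ← h2, ZMod.coe_valMinAbs]
    have hterm : ∀ k ∈ S.filter (fun k => k.valMinAbs.natAbs = n),
        ‖esum L k‖ ^ 2 ≤ (p : ℝ) ^ 2 / 4 * ((n : ℝ) ^ 2)⁻¹ := by
      intro k hk
      have h1 := (Finset.mem_filter.1 hk).2
      have hk0 : k ≠ 0 := by
        rintro rfl
        rw [ZMod.valMinAbs_zero] at h1
        simp at h1
        omega
      have h2 := esum_bound L hk0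
      have h3 : |(k.valMinAbs : ℝ)| = n := by
        rw [← h1, Nat.cast_natAbs, Int.cast_abs]
      rw [h3] at h2
      calc ‖esum L k‖ ^ 2 ≤ ((p : ℝ) / (2 * n)) ^ 2 := pow_le_pow_left₀ (norm_nonneg _) h2 2
        _ = (p : ℝ) ^ 2 / 4 * ((n : ℝ) ^ 2)⁻¹ := by
            field_simp
            ring
    calc ∑ k ∈ S with k.valMinAbs.natAbs = n, ‖esum L k‖ ^ 2
        ≤ ∑ _k ∈ S with _k.valMinAbs.natAbs = n, (p : ℝ) ^ 2 / 4 * ((n : ℝ) ^ 2)⁻¹ :=
          Finset.sum_le_sum hterm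
      _ = ((S.filter fun k => k.valMinAbs.natAbs = n).card : ℝ) *
            ((p : ℝ) ^ 2 / 4 * ((n : ℝ) ^ 2)⁻¹) := by
          rw [Finset.sum_const, nsmul_eq_mul]
      _ ≤ 2 * ((p : ℝ) ^ 2 / 4 * ((n : ℝ) ^ 2)⁻¹) := by
          refine mul_le_mul_of_nonneg_right ?_ (by positivity)
          exact_mod_cast hcard
      _ = (p : ℝ) ^ 2 / 2 * ((n : ℝ) ^ 2)⁻¹ := by ring
  calc ∑ n ∈ Finset.Ioc K (K + p), ∑ k ∈ S with k.valMinAbs.natAbs = n, ‖esum L k‖ ^ 2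
      ≤ ∑ n ∈ Finset.Ioc K (K + p), (p : ℝ) ^ 2 / 2 * ((n : ℝ) ^ 2)⁻¹ := Finset.sum_le_sum hfib
    _ = (p : ℝ) ^ 2 / 2 * ∑ n ∈ Finset.Ioc K (K + p), ((n : ℝ) ^ 2)⁻¹ := by rw [Finset.mul_sum]
    _ ≤ (p : ℝ) ^ 2 / 2 * ((K : ℝ)⁻¹ - ((K + p : ℕ) : ℝ)⁻¹) :=
        mul_le_mul_of_nonneg_left (sum_Ioc_inv_sq_le_sub hK.ne' (Nat.le_add_right K p)) (by positivity)
    _ ≤ (p : ℝ) ^ 2 / 2 * (K : ℝ)⁻¹ := by
        refine mul_le_mul_of_nonneg_left ?_ (by positivity)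
        have : 0 ≤ ((K + p : ℕ) : ℝ)⁻¹ := by positivity
        linarith
    _ = (p : ℝ) ^ 2 / (2 * K) := by field_simp

end Pool.Agent.MP_b34510_co
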