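import Pool.Agent.MP_b34510_co.SQ.E0

set_option autoImplicit false

open Finset

namespace Pool.Agent.MP_b34510_co

theorem e1b_norm {p : ℕ} [NeZero p] (L : ℕ) (k : ZMod p) :
    ((‖esum L k‖ ^ 2 : ℝ) : ℂ) =
      ∑ i ∈ range L, ∑ j ∈ range L, ZMod.stdAddChar (k * ((i : ZMod p) - (j : ZMod p))) := by
  have h1 : ((‖esum L k‖ ^ 2 : ℝ) : ℂ) = esum L k * (starRingEnd ℂ) (esum L k) := by
    rw [Complex.mul_conj']
    push_cast
    rfl
  rw [h1]
  unfold esum
  rw [map_sum, Finset.sum_mul_sum]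
  refine Finset.sum_congr rfl fun i _ => Finset.sum_congr rfl fun j _ => ?_
  rw [← AddChar.map_neg_eq_conj, ← AddChar.map_add_eq_mul]
  congr 1
  ring

theorem e1b_orth {p : ℕ} [Fact p.Prime] (b : ZMod p) :
    ∑ k : ZMod p, (ZMod.stdAddChar (k * b) : ℂ) = if b = 0 then (p : ℂ) else 0 := by
  rw [AddChar.sum_mulShift b (ZMod.isPrimitive_stdAddChar p)]
  simp [ZMod.card]

/-- Proof: `∑_k e(k (i - j - u))` is `p` if `i - j = u` and `0` otherwise (`AddChar.sum_mulShift` or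
orthogonality of `ZMod.stdAddChar`). -/
theorem tent_fourier {p : ℕ} [Fact p.Prime] (L : ℕ) (u : ZMod p) :
    ((tent L u : ℕ) : ℂ) = (1 / p) * ∑ k : ZMod p, ((‖esum L k‖ ^ 2 : ℝ) : ℂ) * ZMod.stdAddChar (-(k * u)) := by
  have hp : (p : ℂ) ≠ 0 := by
    exact_mod_cast (Fact.out : p.Prime).ne_zero
  have h1 : ∀ k : ZMod p, ((‖esum L k‖ ^ 2 : ℝ) : ℂ) * ZMod.stdAddChar (-(k * u)) =
      ∑ i ∈ range L, ∑ j ∈ range L,
        ZMod.stdAddChar (k * ((i : ZMod p) - (j : ZMod p) - u)) := by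
    intro k
    rw [e1b_norm, Finset.sum_mul]
    refine Finset.sum_congr rfl fun i _ => ?_
    rw [Finset.sum_mul]
    refine Finset.sum_congr rfl fun j _ => ?_
    rw [← AddChar.map_add_eq_mul]
    congr 1
    ring
  rw [Finset.sum_congr rfl fun k _ => h1 k, Finset.sum_comm]
  have h2 : ∀ i ∈ range L, ∑ k : ZMod p, ∑ j ∈ range L,
      (ZMod.stdAddChar (k * ((i : ZMod p) - (j : ZMod p) - u)) : ℂ) =
      ∑ j ∈ range L, if (i : ZMod p) - (j : ZMod p) = u then (p : ℂ) else 0 := by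
    intro i _
    rw [Finset.sum_comm]
    refine Finset.sum_congr rfl fun j _ => ?_
    rw [e1b_orth]
    simp only [sub_eq_zero]
  rw [Finset.sum_congr rfl h2]
  unfold tent
  rw [Finset.card_filter, Finset.sum_product]
  push_cast
  rw [Finset.mul_sum]
  refine Finset.sum_congr rfl fun i _ => ?_
  rw [Finset.mul_sum]
  refine Finset.sum_congr rfl fun j _ => ?_
  split_ifs
  · field_simp
  · ring

/-- Parseval: take `u = 0` in `tent_fourier`, `tent L 0 = L` for `L ≤ p`. -/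
theorem esum_parseval {p : ℕ} [Fact p.Prime] {L : ℕ} (hL : L ≤ p) :
    ∑ k : ZMod p, ‖esum L k‖ ^ 2 = (p : ℝ) * L := by
  have hp : (p : ℂ) ≠ 0 := by
    exact_mod_cast (Fact.out : p.Prime).ne_zero
  have h1 := tent_fourier (p := p) L 0
  have h2 : tent (p := p) L 0 = L := by
    unfold tent
    have h3 : ((range L ×ˢ range L).filter fun ij : ℕ × ℕ =>
        ((ij.1 : ZMod p) - (ij.2 : ZMod p)) = 0) = (range L).image (fun i => (i, i)) := by
      ext ⟨i, j⟩
      simp only [Finset.mem_filter, Finset.mem_product, Finset.mem_range, Finset.mem_image,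
        Prod.mk.injEq]
      constructor
      · rintro ⟨⟨hi, hj⟩, h⟩
        refine ⟨i, hi, rfl, ?_⟩
        have h4 : (i : ZMod p) = (j : ZMod p) := sub_eq_zero.mp h
        rw [ZMod.natCast_eq_natCast_iff'] at h4
        rw [Nat.mod_eq_of_lt (by omega), Nat.mod_eq_of_lt (by omega)] at h4
        exact h4
      · rintro ⟨a, ha, rfl, rfl⟩
        exact ⟨⟨ha, ha⟩, sub_self _⟩
    rw [h3, Finset.card_image_of_injective, Finset.card_range]
    intro a b h
    exact congrArg Prod.fst h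
  rw [h2] at h1
  have h3 : ∀ k : ZMod p, ((‖esum L k‖ ^ 2 : ℝ) : ℂ) * ZMod.stdAddChar (-(k * (0 : ZMod p))) =
      ((‖esum L k‖ ^ 2 : ℝ) : ℂ) := by
    intro k
    rw [mul_zero, neg_zero, AddChar.map_zero_eq_one, mul_one]
  rw [Finset.sum_congr rfl fun k _ => h3 k] at h1
  have h4 : ((∑ k : ZMod p, ‖esum L k‖ ^ 2 : ℝ) : ℂ) = ((p : ℝ) * (L : ℝ) : ℝ) := by
    rw [Complex.ofReal_sum]
    push_cast
    rw [h1]
    push_cast
    field_simp
  exact_mod_cast h4

end Pool.Agent.MP_b34510_co
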