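import Pool.Agent.MP_b34510_co.SQ.E1a
import Pool.Agent.MP_b34510_co.SQ.E1b

set_option autoImplicit false

open Finset

namespace Pool.Agent.MP_b34510_co

theorem E2_prod {p : ℕ} [Fact p.Prime] (κ c d : Fin 4 → ZMod p) (t : ZMod p) :
    ∏ j, (ZMod.stdAddChar (-(κ j * (c j * t - d j))) : ℂ) =
      ZMod.stdAddChar (t * (-(∑ j, κ j * c j))) * ZMod.stdAddChar (∑ j, κ j * d j) := by
  simp only [Fin.prod_univ_four, Fin.sum_univ_four]
  rw [← AddChar.map_add_eq_mul, ← AddChar.map_add_eq_mul, ← AddChar.map_add_eq_mul,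
    ← AddChar.map_add_eq_mul]
  congr 1
  ring

theorem E2_expand {p : ℕ} [Fact p.Prime] (L : ℕ) (c d : Fin 4 → ZMod p) (t : ZMod p) :
    ∏ j, ((tent L (c j * t - d j) : ℕ) : ℂ) = (1 / p) ^ 4 * ∑ κ : Fin 4 → ZMod p,
      (∏ j, ((‖esum L (κ j)‖ ^ 2 : ℝ) : ℂ)) *
        (ZMod.stdAddChar (t * (-(∑ j, κ j * c j))) * ZMod.stdAddChar (∑ j, κ j * d j)) := by
  simp only [tent_fourier]
  rw [prod_mul_distrib, prod_const, card_univ, Fintype.card_fin, Finset.prod_univ_sum,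
    Fintype.piFinset_univ]
  congr 1
  refine sum_congr rfl fun κ _ => ?_
  rw [prod_mul_distrib, E2_prod]

theorem E2_sum {p : ℕ} [Fact p.Prime] (L : ℕ) (c d : Fin 4 → ZMod p) :
    ((∑ t : ZMod p, ∏ j, tent L (c j * t - d j) : ℕ) : ℂ) = (1 / p) ^ 3 *
      ∑ κ ∈ univ.filter (fun κ : Fin 4 → ZMod p => ∑ j, κ j * c j = 0),
        ((∏ j, ‖esum L (κ j)‖ ^ 2 : ℝ) : ℂ) * ZMod.stdAddChar (∑ j, κ j * d j) := by
  have hp : (p : ℂ) ≠ 0 := by exact_mod_cast (Fact.out : p.Prime).ne_zero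
  rw [Nat.cast_sum]
  simp only [Nat.cast_prod]
  simp only [E2_expand]
  rw [← mul_sum, sum_comm]
  have h1 : ∀ κ : Fin 4 → ZMod p, ∑ t : ZMod p, (∏ j, ((‖esum L (κ j)‖ ^ 2 : ℝ) : ℂ)) *
        (ZMod.stdAddChar (t * (-(∑ j, κ j * c j))) * ZMod.stdAddChar (∑ j, κ j * d j)) =
      if ∑ j, κ j * c j = 0 then p * (((∏ j, ‖esum L (κ j)‖ ^ 2 : ℝ) : ℂ) *
        ZMod.stdAddChar (∑ j, κ j * d j)) else 0 := by
    intro κ
    rw [← mul_sum, ← sum_mul, AddChar.sum_mulShift _ (ZMod.isPrimitive_stdAddChar p), ZMod.card]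
    by_cases h : ∑ j, κ j * c j = 0
    · rw [if_pos h, if_pos (by rw [h, neg_zero])]
      push_cast
      ring
    · rw [if_neg h, if_neg (fun h' => h (neg_eq_zero.mp h'))]
      push_cast
      ring
  rw [sum_congr rfl fun κ _ => h1 κ, ← sum_filter, ← mul_sum]
  field_simp

/-- the sum over the vectors with a large coordinate -/
theorem E2_large {p : ℕ} [Fact p.Prime] (T : Finset (ZMod p)) (s : ZMod p → ℝ) (j : Fin 4) :
    ∑ κ ∈ univ.filter (fun κ : Fin 4 → ZMod p => κ j ∈ T), ∏ i, s (κ i) =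
      (∑ k ∈ T, s k) * (∑ k, s k) ^ 3 := by
  have h1 : univ.filter (fun κ : Fin 4 → ZMod p => κ j ∈ T) =
      Fintype.piFinset (fun i => if i = j then T else univ) := by
    ext κ
    rw [mem_filter, Fintype.mem_piFinset]
    constructor
    · rintro ⟨_, h⟩ i
      by_cases e : i = j
      · rw [if_pos e, e]; exact h
      · rw [if_neg e]; exact mem_univ _
    · intro h
      have := h j
      rw [if_pos rfl] at this
      exact ⟨mem_univ _, this⟩
  rw [h1, ← Finset.prod_univ_sum (fun i => if i = j then T else univ) (fun _ k => s k),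
    ← mul_prod_erase univ _ (mem_univ j), if_pos rfl]
  congr 1
  have h2 : ∏ i ∈ univ.erase j, ∑ k ∈ (if i = j then T else univ), s k =
      ∏ i ∈ (univ : Finset (Fin 4)).erase j, ∑ k, s k := by
    refine prod_congr rfl fun i hi => ?_
    rw [if_neg (mem_erase.mp hi).1]
  rw [h2, prod_const, card_erase_of_mem (mem_univ j), card_univ, Fintype.card_fin]

/-- Equidistribution of four linear forms without small relations, discrete form.
Proof: insert `tent_fourier` in each factor, expand the product (`Finset.prod_univ_sum` or write the four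
sums), and interchange: the sum over `t` is `p` if `∑ k_j c_j = 0` and `0` otherwise, so
`∑_t ∏_j tent (c_j t - d_j) = p⁻³ ∑_{k : ∑ k_j c_j = 0} ∏_j ‖esum L k_j‖² e(∑ k_j d_j)`.
The term `k = 0` is `L⁸ / p³`.  Any other `k` with `∑ k_j c_j = 0` has an index `j` with
`|(k_j).valMinAbs| > K` (otherwise the integer vector `(k_j).valMinAbs` contradicts `Indep K c`), so the sum
of the absolute values of the other terms is at most
`p⁻³ ∑_j (∑_{|k| > K} ‖esum L k‖²) (∑_k ‖esum L k‖²)³ ≤ p⁻³ · 4 · p² / (2K) · (p L)³ = 2 p² L³ / K`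
(`esum_tail`, `esum_parseval`). -/
theorem tent_count {p : ℕ} [Fact p.Prime] {L K : ℕ} (hL : L ≤ p) (hK : 0 < K) (c d : Fin 4 → ZMod p)
    (hc : Indep K c) :
    (L : ℝ) ^ 8 / p ^ 3 - 2 * p ^ 2 * L ^ 3 / K ≤
      ((∑ t : ZMod p, ∏ j, tent L (c j * t - d j) : ℕ) : ℝ) := by
  have hp : (0 : ℝ) < p := by exact_mod_cast (Fact.out : p.Prime).pos
  have hKR : (0 : ℝ) < K := by exact_mod_cast hK
  obtain ⟨X, hX⟩ : ∃ X : ℕ, X = ∑ t : ZMod p, ∏ j, tent L (c j * t - d j) := ⟨_, rfl⟩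
  obtain ⟨F, hF⟩ : ∃ F : Finset (Fin 4 → ZMod p), F = univ.filter (fun κ => ∑ j, κ j * c j = 0) := ⟨_, rfl⟩
  obtain ⟨S, hS⟩ : ∃ S : (Fin 4 → ZMod p) → ℝ, ∀ κ, S κ = ∏ j, ‖esum L (κ j)‖ ^ 2 := ⟨_, fun _ => rfl⟩
  have hS0 : ∀ κ, 0 ≤ S κ := by
    intro κ
    rw [hS]
    exact prod_nonneg fun j _ => sq_nonneg _
  have h1 := E2_sum L c d
  rw [← hX, ← hF] at h1
  rw [← hX]
  simp only [← hS] at h1
  have h2 : (X : ℝ) = (1 / p) ^ 3 * ∑ κ ∈ F, S κ * (ZMod.stdAddChar (∑ j, κ j * d j) : ℂ).re := by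
    have h3 := congrArg Complex.re h1
    rw [Complex.natCast_re] at h3
    rw [h3]
    have h4 : ((1 / (p : ℂ)) ^ 3) = (((1 / p : ℝ) ^ 3 : ℝ) : ℂ) := by push_cast; rfl
    rw [h4, Complex.re_ofReal_mul, Complex.re_sum]
    congr 1
    refine sum_congr rfl fun κ _ => ?_
    rw [Complex.re_ofReal_mul]
  have h0F : (0 : Fin 4 → ZMod p) ∈ F := by
    rw [hF, mem_filter]
    exact ⟨mem_univ _, by simp⟩
  have hS00 : S 0 = (L : ℝ) ^ 8 := by
    rw [hS]
    have : ∀ j : Fin 4, ‖esum L ((0 : Fin 4 → ZMod p) j)‖ ^ 2 = (L : ℝ) ^ 2 := by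
      intro j
      unfold esum
      simp
    rw [prod_congr rfl fun j _ => this j, prod_const, card_univ, Fintype.card_fin]
    ring
  have hre : ∀ κ, -S κ ≤ S κ * (ZMod.stdAddChar (∑ j, κ j * d j) : ℂ).re := by
    intro κ
    have h3 : |(ZMod.stdAddChar (∑ j, κ j * d j) : ℂ).re| ≤ 1 := by
      refine (Complex.abs_re_le_norm _).trans (le_of_eq ?_)
      exact AddChar.norm_apply _ _
    have h4 := (abs_le.mp h3).1
    have h5 := mul_le_mul_of_nonneg_left h4 (hS0 κ)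
    linarith
  obtain ⟨T, hT⟩ : ∃ T : Finset (ZMod p), T = univ.filter (fun k : ZMod p => (K : ℤ) < |k.valMinAbs|) := ⟨_, rfl⟩
  have hbig : ∀ κ ∈ F.erase 0, ∃ j, κ j ∈ T := by
    intro κ hκ
    rw [mem_erase, hF, mem_filter] at hκ
    obtain ⟨hκ0, _, hκc⟩ := hκ
    by_contra hcon
    push Not at hcon
    refine hc (fun j => (κ j).valMinAbs) ?_ ?_ ?_
    · intro j
      have := hcon j
      rw [hT, mem_filter, not_and] at this
      exact not_lt.mp (this (mem_univ _))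
    · by_contra hall
      push Not at hall
      apply hκ0
      funext j
      exact (ZMod.valMinAbs_eq_zero _).mp (hall j)
    · rw [← hκc]
      refine sum_congr rfl fun j _ => ?_
      rw [ZMod.coe_valMinAbs]
  have herr : ∑ κ ∈ F.erase 0, S κ ≤ 2 * (p : ℝ) ^ 5 * L ^ 3 / K := by
    have h3 : ∀ κ ∈ F.erase 0, S κ ≤ ∑ j : Fin 4, if κ j ∈ T then S κ else 0 := by
      intro κ hκ
      obtain ⟨j, hj⟩ := hbig κ hκ
      refine le_trans ?_ (single_le_sum (f := fun j : Fin 4 => if κ j ∈ T then S κ else 0) ?_ (mem_univ j))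
      · rw [if_pos hj]
      · intro i _
        split_ifs
        · exact hS0 κ
        · exact le_rfl
    refine (sum_le_sum h3).trans ?_
    have h4 : ∑ κ ∈ F.erase 0, ∑ j : Fin 4, (if κ j ∈ T then S κ else 0) ≤
        ∑ κ : Fin 4 → ZMod p, ∑ j : Fin 4, (if κ j ∈ T then S κ else 0) := by
      refine sum_le_sum_of_subset_of_nonneg (subset_univ _) fun κ _ _ => ?_
      refine sum_nonneg fun j _ => ?_
      split_ifs
      · exact hS0 κ
      · exact le_rfl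
    refine h4.trans ?_
    rw [sum_comm]
    have h5 : ∀ j : Fin 4, ∑ κ : Fin 4 → ZMod p, (if κ j ∈ T then S κ else 0) =
        (∑ k ∈ T, ‖esum L k‖ ^ 2) * ((p : ℝ) * L) ^ 3 := by
      intro j
      rw [← sum_filter, ← esum_parseval hL, ← E2_large T (fun k => ‖esum L k‖ ^ 2) j]
      exact sum_congr rfl fun κ _ => hS κ
    rw [sum_congr rfl fun j _ => h5 j, sum_const, card_univ, Fintype.card_fin, nsmul_eq_mul]
    have h6 := esum_tail (p := p) L hK
    rw [← hT] at h6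
    have h7 : (0 : ℝ) ≤ ((p : ℝ) * L) ^ 3 := by positivity
    have h8 := mul_le_mul_of_nonneg_right h6 h7
    have h9 : 2 * (p : ℝ) ^ 5 * L ^ 3 / K = 4 * ((p : ℝ) ^ 2 / (2 * K) * ((p : ℝ) * L) ^ 3) := by
      field_simp
      ring
    rw [h9]
    push_cast
    linarith
  have hmain : (L : ℝ) ^ 8 - 2 * (p : ℝ) ^ 5 * L ^ 3 / K ≤
      ∑ κ ∈ F, S κ * (ZMod.stdAddChar (∑ j, κ j * d j) : ℂ).re := by
    rw [← add_sum_erase F _ h0F]
    have h3 : S 0 * (ZMod.stdAddChar (∑ j, (0 : Fin 4 → ZMod p) j * d j) : ℂ).re = (L : ℝ) ^ 8 := by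
      rw [hS00]
      simp
    rw [h3]
    have h4 : -∑ κ ∈ F.erase 0, S κ ≤ ∑ κ ∈ F.erase 0, S κ * (ZMod.stdAddChar (∑ j, κ j * d j) : ℂ).re := by
      rw [← sum_neg_distrib]
      exact sum_le_sum fun κ _ => hre κ
    linarith
  rw [h2]
  have h3 : (0 : ℝ) ≤ (1 / p) ^ 3 := by positivity
  have h4 := mul_le_mul_of_nonneg_left hmain h3
  refine le_trans (le_of_eq ?_) h4
  field_simp

end Pool.Agent.MP_b34510_co
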