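import Pool.Agent.MP_b34510_co.SQ.CORE

set_option autoImplicit false

namespace Pool.Agent.MP_b34510_co

theorem choose_q {p X Z C₁ : ℝ} (hp0 : 0 < p) (hX0 : 0 < X) (hZ0 : 0 < Z) (h1C₁ : 1 ≤ C₁)
    (hXp : C₁ * X < p) (hZp : C₁ * Z < p) :
    ∃ q : ℕ, 1 ≤ q ∧ (q : ℝ) * (C₁ * X) ≤ p ∧ (q : ℝ) * (C₁ * Z) ≤ p ∧ 2 * p / q ≤ 4 * (C₁ * (X + Z)) := by
  set Q : ℝ := min (p / (C₁ * X)) (p / (C₁ * Z)) with hQ
  have hCX : 0 < C₁ * X := by positivity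
  have hCZ : 0 < C₁ * Z := by positivity
  have hQ1 : 1 ≤ Q := by
    apply le_min
    · rw [le_div_iff₀ hCX]; linarith
    · rw [le_div_iff₀ hCZ]; linarith
  have hQX : Q * (C₁ * X) ≤ p := by
    have := min_le_left (p / (C₁ * X)) (p / (C₁ * Z))
    rwa [← hQ, le_div_iff₀ hCX] at this
  have hQZ : Q * (C₁ * Z) ≤ p := by
    have := min_le_right (p / (C₁ * X)) (p / (C₁ * Z))
    rwa [← hQ, le_div_iff₀ hCZ] at this
  have hqQ : ((⌊Q⌋₊ : ℕ) : ℝ) ≤ Q := Nat.floor_le (by linarith)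
  have hq1 : 1 ≤ ⌊Q⌋₊ := Nat.le_floor (by simpa using hQ1)
  have hq1' : (1 : ℝ) ≤ (⌊Q⌋₊ : ℕ) := by exact_mod_cast hq1
  have hqQ2 : Q ≤ 2 * (⌊Q⌋₊ : ℕ) := by
    have := Nat.lt_floor_add_one Q
    linarith
  refine ⟨⌊Q⌋₊, hq1, le_trans (mul_le_mul_of_nonneg_right hqQ hCX.le) hQX,
    le_trans (mul_le_mul_of_nonneg_right hqQ hCZ.le) hQZ, ?_⟩
  have hQb : p ≤ (C₁ * (X + Z)) * Q := by
    rcases min_choice (p / (C₁ * X)) (p / (C₁ * Z)) with h | h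
    · rw [← hQ] at h
      rw [h]
      have e : C₁ * X * (p / (C₁ * X)) = p := by field_simp
      have h2 : 0 ≤ C₁ * Z * (p / (C₁ * X)) := by positivity
      calc p = C₁ * X * (p / (C₁ * X)) := e.symm
        _ ≤ C₁ * X * (p / (C₁ * X)) + C₁ * Z * (p / (C₁ * X)) := by linarith
        _ = (C₁ * (X + Z)) * (p / (C₁ * X)) := by ring
    · rw [← hQ] at h
      rw [h]
      have e : C₁ * Z * (p / (C₁ * Z)) = p := by field_simp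
      have h2 : 0 ≤ C₁ * X * (p / (C₁ * Z)) := by positivity
      calc p = C₁ * Z * (p / (C₁ * Z)) := e.symm
        _ ≤ C₁ * X * (p / (C₁ * Z)) + C₁ * Z * (p / (C₁ * Z)) := by linarith
        _ = (C₁ * (X + Z)) * (p / (C₁ * Z)) := by ring
  rw [div_le_iff₀ (by linarith)]
  have hpos : 0 ≤ C₁ * (X + Z) := by positivity
  have := mul_le_mul_of_nonneg_left hqQ2 hpos
  calc 2 * p ≤ 2 * ((C₁ * (X + Z)) * Q) := by linarith
    _ ≤ 2 * ((C₁ * (X + Z)) * (2 * (⌊Q⌋₊ : ℕ))) := by linarith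
    _ = 4 * (C₁ * (X + Z)) * (⌊Q⌋₊ : ℕ) := by ring

theorem final : ∃ C : ℝ, 0 < C ∧ ∀ n p : ℕ, Even n → p.Prime → n < p →
    (n : ℝ) - C * ((p : ℝ) ^ (2 / 3 : ℝ) * ((p : ℝ) - n) ^ (1 / 3 : ℝ) +
      (p : ℝ) ^ (5 / 6 : ℝ) * (Real.log p) ^ (1 / 6 : ℝ)) ≤ (SQ n : ℝ) := by
  obtain ⟨C₀, hC₀, hcore⟩ := core
  set C₁ : ℝ := max C₀ 1 with hC₁
  have h1C₁ : 1 ≤ C₁ := le_max_right _ _
  have hC0C1 : C₀ ≤ C₁ := le_max_left _ _
  refine ⟨5 * C₁, by positivity, ?_⟩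
  intro n p hn hpp hnp
  have hp1 : (1 : ℝ) < p := by exact_mod_cast hpp.one_lt
  have hp0 : (0 : ℝ) < p := by linarith
  have hlog : 0 < Real.log p := Real.log_pos hp1
  have hpn1 : (1 : ℝ) ≤ (p : ℝ) - n := by
    have : (n : ℝ) + 1 ≤ p := by exact_mod_cast hnp
    linarith
  have hpn0 : (0 : ℝ) < (p : ℝ) - n := by linarith
  have hnp' : (n : ℝ) ≤ p := by linarith
  have hn0 : (0 : ℝ) ≤ n := Nat.cast_nonneg n
  have hSQ0 : (0 : ℝ) ≤ (SQ n : ℝ) := Nat.cast_nonneg _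
  set X : ℝ := (p : ℝ) ^ (2 / 3 : ℝ) * ((p : ℝ) - n) ^ (1 / 3 : ℝ) with hX
  set Z : ℝ := (p : ℝ) ^ (5 / 6 : ℝ) * (Real.log p) ^ (1 / 6 : ℝ) with hZ
  have hX0 : 0 < X := by positivity
  have hZ0 : 0 < Z := by positivity
  have hX1 : 1 ≤ X := by
    have a1 : (1 : ℝ) ≤ (p : ℝ) ^ (2 / 3 : ℝ) := Real.one_le_rpow hp1.le (by norm_num)
    have a2 : (1 : ℝ) ≤ ((p : ℝ) - n) ^ (1 / 3 : ℝ) := Real.one_le_rpow hpn1 (by norm_num)
    nlinarith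
  -- cubes
  have hX3 : X ^ 3 = (p : ℝ) ^ 2 * ((p : ℝ) - n) := by
    rw [hX, mul_pow, ← Real.rpow_natCast, ← Real.rpow_natCast, ← Real.rpow_mul hp0.le,
      ← Real.rpow_mul hpn0.le]
    norm_num
  have hZ6 : Z ^ 6 = (p : ℝ) ^ 5 * Real.log p := by
    rw [hZ, mul_pow, ← Real.rpow_natCast, ← Real.rpow_natCast, ← Real.rpow_mul hp0.le,
      ← Real.rpow_mul hlog.le]
    norm_num
  have htriv : (p : ℝ) ≤ C₁ * X ∨ (p : ℝ) ≤ C₁ * Z ∨ (C₁ * X < p ∧ C₁ * Z < p) := by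
    by_cases h1 : (p : ℝ) ≤ C₁ * X
    · exact Or.inl h1
    · by_cases h2 : (p : ℝ) ≤ C₁ * Z
      · exact Or.inr (Or.inl h2)
      · exact Or.inr (Or.inr ⟨not_le.mp h1, not_le.mp h2⟩)
  have hCXZ : 0 ≤ C₁ * Z := by positivity
  have hCXX : 0 ≤ C₁ * X := by positivity
  rcases htriv with h | h | ⟨hXp, hZp⟩
  · have : 5 * C₁ * (X + Z) = 5 * (C₁ * X) + 5 * (C₁ * Z) := by ring
    linarith
  · have : 5 * C₁ * (X + Z) = 5 * (C₁ * X) + 5 * (C₁ * Z) := by ring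
    linarith
  rcases Nat.eq_zero_or_pos n with hn00 | hnpos
  · subst hn00
    push_cast
    have : 0 < 5 * C₁ * (X + Z) := by positivity
    linarith
  have hp2 : 2 < p := by
    rcases hn with ⟨m, hm⟩
    have := hpp.two_le
    omega
  have hpodd : Odd p := hpp.odd_of_ne_two (by omega)
  obtain ⟨M, hM⟩ : ∃ M, p = n + 1 + 2 * M := by
    rcases hn with ⟨a, ha⟩
    rcases hpodd with ⟨b, hb⟩
    exact ⟨b - a, by omega⟩
  obtain ⟨q, hq1, hqX, hqZ, hq2⟩ := choose_q hp0 hX0 hZ0 h1C₁ hXp hZp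
  have hq1' : (1 : ℝ) ≤ q := by exact_mod_cast hq1
  have hMn : ((M : ℝ) + 1) ≤ (p : ℝ) - n := by
    have : (p : ℝ) = n + 1 + 2 * M := by exact_mod_cast hM
    have hM0 : (0 : ℝ) ≤ M := Nat.cast_nonneg M
    linarith
  have h3 : C₀ * (q : ℝ) ^ 3 * ((M : ℝ) + 1) ≤ p := by
    have e : ((q : ℝ) * (C₁ * X)) ^ 3 ≤ (p : ℝ) ^ 3 := pow_le_pow_left₀ (by positivity) hqX 3
    have e2 : ((q : ℝ) * (C₁ * X)) ^ 3 = (p : ℝ) ^ 2 * ((q : ℝ) ^ 3 * C₁ ^ 3 * ((p : ℝ) - n)) := by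
      rw [mul_pow, mul_pow, hX3]; ring
    rw [e2] at e
    have e3 : (q : ℝ) ^ 3 * C₁ ^ 3 * ((p : ℝ) - n) ≤ p := by
      have : (p : ℝ) ^ 3 = (p : ℝ) ^ 2 * p := by ring
      rw [this] at e
      exact le_of_mul_le_mul_left e (by positivity)
    have e4 : C₀ ≤ C₁ ^ 3 := le_trans hC0C1 (by nlinarith [sq_nonneg C₁, pow_le_pow_right₀ h1C₁ (show 1 ≤ 3 by norm_num), pow_one C₁])
    calc C₀ * (q : ℝ) ^ 3 * ((M : ℝ) + 1) ≤ C₁ ^ 3 * (q : ℝ) ^ 3 * ((p : ℝ) - n) := by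
          apply mul_le_mul (mul_le_mul_of_nonneg_right e4 (by positivity)) hMn (by positivity) (by positivity)
      _ = (q : ℝ) ^ 3 * C₁ ^ 3 * ((p : ℝ) - n) := by ring
      _ ≤ p := e3
  have h6 : C₀ * (q : ℝ) ^ 6 * Real.log p ≤ p := by
    have e : ((q : ℝ) * (C₁ * Z)) ^ 6 ≤ (p : ℝ) ^ 6 := pow_le_pow_left₀ (by positivity) hqZ 6
    have e2 : ((q : ℝ) * (C₁ * Z)) ^ 6 = (p : ℝ) ^ 5 * ((q : ℝ) ^ 6 * C₁ ^ 6 * Real.log p) := by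
      rw [mul_pow, mul_pow, hZ6]; ring
    rw [e2] at e
    have e3 : (q : ℝ) ^ 6 * C₁ ^ 6 * Real.log p ≤ p := by
      have : (p : ℝ) ^ 6 = (p : ℝ) ^ 5 * p := by ring
      rw [this] at e
      exact le_of_mul_le_mul_left e (by positivity)
    have e4 : C₀ ≤ C₁ ^ 6 := le_trans hC0C1 (by
      have := pow_le_pow_right₀ h1C₁ (show 1 ≤ 6 by norm_num)
      rwa [pow_one] at this)
    calc C₀ * (q : ℝ) ^ 6 * Real.log p ≤ C₁ ^ 6 * (q : ℝ) ^ 6 * Real.log p := by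
          apply mul_le_mul_of_nonneg_right (mul_le_mul_of_nonneg_right e4 (by positivity)) hlog.le
      _ = (q : ℝ) ^ 6 * C₁ ^ 6 * Real.log p := by ring
      _ ≤ p := e3
  obtain ⟨k, hk, hkb⟩ := hcore p hpp hp2 M q hq1 h3 h6
  have hpn : p - 1 - 2 * M = n := by omega
  rw [hpn] at hk
  have hkS : (k : ℝ) ≤ (SQ n : ℝ) := by exact_mod_cast le_SQ hnpos hk
  have hC0X : C₀ ≤ C₁ * (X + Z) := by
    have : C₁ * 1 ≤ C₁ * (X + Z) := mul_le_mul_of_nonneg_left (by linarith) (by linarith)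
    linarith
  linarith

end Pool.Agent.MP_b34510_co
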