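import Pool.Agent.MP_b34510_co.SQ.Defs

set_option autoImplicit false

namespace Pool.Agent.MP_b34510_co

/-- `x` is between `0` and `e`, with some room. -/
def Shr (e x : ℝ) : Prop := (1 / 400 < x ∧ x < e - 2 / 400) ∨ (e + 2 / 400 < x ∧ x < -(1 / 400))

theorem g0_par (e : ℝ) (he : 1 / 25 ≤ |e|) :
    ∃ lo : ℝ, ∀ l : ℝ, 0 < l → l < 1 → Shr e (lo + l * (|e| - 3 / 400)) := by
  rcases le_total 0 e with h | h
  · rw [abs_of_nonneg h] at he ⊢
    refine ⟨1 / 400, fun l h0 h1 => Or.inl ⟨?_, ?_⟩⟩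
    · have := mul_pos h0 (show 0 < e - 3 / 400 by linarith)
      linarith
    · have := mul_lt_mul_of_pos_right h1 (show 0 < e - 3 / 400 by linarith)
      linarith
  · rw [abs_of_nonpos h] at he ⊢
    refine ⟨e + 2 / 400, fun l h0 h1 => Or.inr ⟨?_, ?_⟩⟩
    · have := mul_pos h0 (show 0 < -e - 3 / 400 by linarith)
      linarith
    · have := mul_lt_mul_of_pos_right h1 (show 0 < -e - 3 / 400 by linarith)
      linarith

/-- an open interval of length at least `0.685` meets the union of the intervals `[k, k + 0.42]` -/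
theorem g0_meet (y H : ℝ) (hH : 685 / 1000 ≤ H) :
    ∃ (r : ℝ) (k : ℤ), y - H < r ∧ r < y ∧ (k : ℝ) ≤ r ∧ r ≤ k + 42 / 100 := by
  have h1 := Int.floor_le y
  have h2 := Int.lt_floor_add_one y
  rcases h1.lt_or_eq with h | h
  · by_cases hf : y - ⌊y⌋ ≤ 84 / 100
    · refine ⟨(⌊y⌋ + y) / 2, ⌊y⌋, by linarith, by linarith, by linarith, by linarith⟩
    · push Not at hf
      refine ⟨⌊y⌋ + 42 / 100, ⌊y⌋, by linarith, by linarith, by linarith, by linarith⟩
  · refine ⟨y - 6 / 10, ⌊y⌋ - 1, by linarith, by linarith, ?_, ?_⟩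
    · push_cast
      linarith
    · push_cast
      linarith

/-- Proof: `e > 0` or `e < 0`, `x` runs over an interval of length `|e| - 3/400 > 0`, `x'` over an interval of
length `|e'| - 3/400 > 0`, so `x + x'` over an interval (open, convex) of length at least
`7/10 - 6/400 = 0.685`; the numbers `y` with `c ≤ τ - y - k ≤ c + 42/100` for some integer `k` are a union of
intervals of length `0.42` with gaps `0.58 < 0.685`.  (E.g. reparametrise: `x = m + h λ`, `x' = m' + h' λ'`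
with the midpoints `m, m'`, half lengths `h, h'`; take `λ = λ' ∈ (-1, 1)`: the sum is
`m + m' + (h + h') λ`.) -/
theorem choose2 (e e' τ c : ℝ) (he : 1 / 25 ≤ |e|) (he' : 1 / 25 ≤ |e'|) (hs : 7 / 10 ≤ |e| + |e'|) :
    ∃ x x' : ℝ, ∃ k : ℤ, Shr e x ∧ Shr e' x' ∧ c ≤ τ - x - x' - k ∧ τ - x - x' - k ≤ c + 42 / 100 := by
  obtain ⟨lo, hlo⟩ := g0_par e he
  obtain ⟨lo', hlo'⟩ := g0_par e' he'
  have hH : (685 : ℝ) / 1000 ≤ (|e| - 3 / 400) + (|e'| - 3 / 400) := by linarith
  set H : ℝ := (|e| - 3 / 400) + (|e'| - 3 / 400) with hHd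
  obtain ⟨r, k, h1, h2, h3, h4⟩ := g0_meet (τ - (lo + lo') - c) H hH
  have hH0 : 0 < H := by linarith
  set l : ℝ := (τ - c - r - (lo + lo')) / H with hl
  have hl0 : 0 < l := div_pos (by linarith) hH0
  have hl1 : l < 1 := by
    rw [hl, div_lt_one hH0]
    linarith
  have hlH : l * H = τ - c - r - (lo + lo') := by
    rw [hl]
    field_simp
  have hsum : lo + l * (|e| - 3 / 400) + (lo' + l * (|e'| - 3 / 400)) = τ - c - r := by
    have : lo + l * (|e| - 3 / 400) + (lo' + l * (|e'| - 3 / 400)) = lo + lo' + l * H := by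
      rw [hHd]; ring
    rw [this, hlH]
    ring
  refine ⟨_, _, k, hlo l hl0 hl1, hlo' l hl0 hl1, ?_, ?_⟩
  · linarith
  · linarith

/-- `Shr` is robust: if `Shr e x` and `|e' - e| < 1/400` and `x'` is within `1/400` of `x` modulo `1`, then
`Arc e' x'`. -/
theorem arc_of_shr {e x e' x' : ℝ} (h : Shr e x) (he : |e' - e| < 1 / 400) (hx : Near (1 / 400) x x') :
    Arc e' x' := by
  obtain ⟨k, hk⟩ := hx
  rw [abs_lt] at hk he
  refine ⟨k, ?_⟩
  rcases h with ⟨h1, h2⟩ | ⟨h1, h2⟩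
  · left
    constructor <;> linarith [hk.1, hk.2, he.1, he.2]
  · right
    constructor <;> linarith [hk.1, hk.2, he.1, he.2]

end Pool.Agent.MP_b34510_co
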