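import Mathlib

set_option autoImplicit false

open Finset Classical

namespace Pool.Agent.MP_b34510_co

/-- One step: `E exp (-λ X) ≤ exp (λ² D² / 2)` for a function with mean zero and absolute value at most `D`
on `Fin q` (uniform).
Proof: `exp (-λ x) ≤ cosh (λ D) - (x / D) sinh (λ D)` for `|x| ≤ D` by convexity of `exp`; sum over `Fin q`;
`cosh u ≤ exp (u² / 2)` is `Real.cosh_le_exp_half_sq`. -/
theorem md_step (q : ℕ) [NeZero q] (X : Fin q → ℝ) {D l : ℝ} (hD : 0 < D) (hl : 0 ≤ l)
    (h0 : ∑ i, X i = 0) (hX : ∀ i, |X i| ≤ D) :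
    ∑ i, Real.exp (-(l * X i)) ≤ q * Real.exp (l ^ 2 * D ^ 2 / 2) := by
  have h1 : ∀ i, Real.exp (-(l * X i)) ≤ Real.cosh (l * D) - X i * (Real.sinh (l * D) / D) := by
    intro i
    obtain ⟨h2, h3⟩ := abs_le.1 (hX i)
    have ha : 0 ≤ (D - X i) / (2 * D) := div_nonneg (by linarith) (by linarith)
    have hb : 0 ≤ (D + X i) / (2 * D) := div_nonneg (by linarith) (by linarith)
    have hab : (D - X i) / (2 * D) + (D + X i) / (2 * D) = 1 := by field_simp; ring
    have h4 := convexOn_exp.2 (Set.mem_univ (l * D)) (Set.mem_univ (-(l * D))) ha hb hab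
    have h5 : (D - X i) / (2 * D) * (l * D) + (D + X i) / (2 * D) * (-(l * D)) = -(l * X i) := by
      field_simp
      ring
    simp only [smul_eq_mul] at h4
    rw [h5] at h4
    refine h4.trans (le_of_eq ?_)
    rw [Real.cosh_eq, Real.sinh_eq]
    field_simp
    ring
  calc ∑ i, Real.exp (-(l * X i)) ≤ ∑ i, (Real.cosh (l * D) - X i * (Real.sinh (l * D) / D)) :=
        Finset.sum_le_sum fun i _ => h1 i
    _ = q * Real.cosh (l * D) := by
        rw [Finset.sum_sub_distrib, ← Finset.sum_mul, h0, zero_mul, sub_zero, Finset.sum_const,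
          Finset.card_univ, Fintype.card_fin, nsmul_eq_mul]
    _ ≤ q * Real.exp ((l * D) ^ 2 / 2) :=
        mul_le_mul_of_nonneg_left (Real.cosh_le_exp_half_sq _) (Nat.cast_nonneg q)
    _ = q * Real.exp (l ^ 2 * D ^ 2 / 2) := by rw [mul_pow]

theorem md_fin (q : ℕ) [NeZero q] (n : ℕ) : ∀ (f : (Fin n → Fin q) → ℝ)
    {D m l : ℝ} (_ : 0 < D) (_ : 0 ≤ l) (_ : ∀ c v b, |f (Function.update c v b) - f c| ≤ D)
    (_ : ∑ c, f c = m * (q : ℝ) ^ n),
    ∑ c, Real.exp (-(l * (f c - m))) ≤ (q : ℝ) ^ n * Real.exp (l ^ 2 * n * D ^ 2 / 2) := by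
  induction n with
  | zero =>
    intro f D m l hD hl hf hm
    rw [Fintype.sum_unique] at hm ⊢
    rw [pow_zero, mul_one] at hm
    rw [hm]
    simp
  | succ n ih =>
    intro f D m l hD hl hf hm
    have hq : (0 : ℝ) < q := by exact_mod_cast Nat.pos_of_ne_zero (NeZero.ne q)
    have hsum : ∀ F : (Fin (n + 1) → Fin q) → ℝ,
        ∑ c, F c = ∑ b : Fin q, ∑ c : Fin n → Fin q, F (Fin.cons b c) := by
      intro F
      rw [← (Fin.consEquiv (fun _ : Fin (n + 1) => Fin q)).sum_comp, Fintype.sum_prod_type]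
      rfl
    set g : Fin q → ℝ := fun b => (∑ c : Fin n → Fin q, f (Fin.cons b c)) / (q : ℝ) ^ n with hg
    have hqn : (0 : ℝ) < (q : ℝ) ^ n := by positivity
    have hgs : ∀ b, ∑ c : Fin n → Fin q, f (Fin.cons b c) = g b * (q : ℝ) ^ n := by
      intro b
      rw [hg]
      field_simp
    have hgm : ∑ b, g b = m * q := by
      rw [hsum] at hm
      simp only [hgs] at hm
      rw [← Finset.sum_mul, pow_succ] at hm
      have h1 : (∑ b, g b) * (q : ℝ) ^ n = (m * q) * (q : ℝ) ^ n := by rw [hm]; ring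
      exact mul_right_cancel₀ hqn.ne' h1
    have hgd : ∀ b b', |g b - g b'| ≤ D := by
      intro b b'
      have h1 : g b - g b' = (∑ c : Fin n → Fin q, (f (Fin.cons b c) - f (Fin.cons b' c))) / (q : ℝ) ^ n := by
        rw [Finset.sum_sub_distrib, sub_div]
      rw [h1, abs_div, abs_of_pos hqn, div_le_iff₀ hqn]
      calc |∑ c : Fin n → Fin q, (f (Fin.cons b c) - f (Fin.cons b' c))|
          ≤ ∑ c : Fin n → Fin q, |f (Fin.cons b c) - f (Fin.cons b' c)| := Finset.abs_sum_le_sum_abs _ _
        _ ≤ ∑ _c : Fin n → Fin q, D := by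
            refine Finset.sum_le_sum fun c _ => ?_
            have h2 := hf (Fin.cons b' c) 0 b
            rwa [Fin.update_cons_zero] at h2
        _ = D * (q : ℝ) ^ n := by
            rw [Finset.sum_const, Finset.card_univ, Fintype.card_fun, Fintype.card_fin,
              Fintype.card_fin, nsmul_eq_mul]
            push_cast
            ring
    have hgD : ∀ b, |g b - m| ≤ D := by
      intro b
      have h1 : g b - m = (∑ b', (g b - g b')) / q := by
        rw [Finset.sum_sub_distrib, hgm, Finset.sum_const, Finset.card_univ, Fintype.card_fin,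
          nsmul_eq_mul]
        field_simp
      rw [h1, abs_div, abs_of_pos hq, div_le_iff₀ hq]
      calc |∑ b', (g b - g b')| ≤ ∑ b', |g b - g b'| := Finset.abs_sum_le_sum_abs _ _
        _ ≤ ∑ _b' : Fin q, D := Finset.sum_le_sum fun b' _ => hgd b b'
        _ = D * q := by
            rw [Finset.sum_const, Finset.card_univ, Fintype.card_fin, nsmul_eq_mul]
            ring
    have hstep := md_step q (fun b => g b - m) hD hl (by
      rw [Finset.sum_sub_distrib, hgm, Finset.sum_const, Finset.card_univ, Fintype.card_fin,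
        nsmul_eq_mul]
      ring) hgD
    rw [hsum]
    have hin : ∀ b, ∑ c : Fin n → Fin q, Real.exp (-(l * (f (Fin.cons b c) - m))) ≤
        Real.exp (-(l * (g b - m))) * ((q : ℝ) ^ n * Real.exp (l ^ 2 * n * D ^ 2 / 2)) := by
      intro b
      have h1 := ih (fun c => f (Fin.cons b c)) (D := D) (m := g b) (l := l) hD hl (by
        intro c v b'
        have h2 := hf (Fin.cons b c) v.succ b'
        rwa [← Fin.cons_update] at h2) (hgs b)
      have h3 : ∑ c : Fin n → Fin q, Real.exp (-(l * (f (Fin.cons b c) - m))) =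
          Real.exp (-(l * (g b - m))) *
            ∑ c : Fin n → Fin q, Real.exp (-(l * (f (Fin.cons b c) - g b))) := by
        rw [Finset.mul_sum]
        refine Finset.sum_congr rfl fun c _ => ?_
        rw [← Real.exp_add]
        congr 1
        ring
      rw [h3]
      exact mul_le_mul_of_nonneg_left h1 (Real.exp_pos _).le
    calc ∑ b, ∑ c : Fin n → Fin q, Real.exp (-(l * (f (Fin.cons b c) - m)))
        ≤ ∑ b, Real.exp (-(l * (g b - m))) * ((q : ℝ) ^ n * Real.exp (l ^ 2 * n * D ^ 2 / 2)) :=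
          Finset.sum_le_sum fun b _ => hin b
      _ = (∑ b, Real.exp (-(l * (g b - m)))) * ((q : ℝ) ^ n * Real.exp (l ^ 2 * n * D ^ 2 / 2)) := by
          rw [Finset.sum_mul]
      _ ≤ (q * Real.exp (l ^ 2 * D ^ 2 / 2)) * ((q : ℝ) ^ n * Real.exp (l ^ 2 * n * D ^ 2 / 2)) :=
          mul_le_mul_of_nonneg_right hstep (by positivity)
      _ = (q : ℝ) ^ (n + 1) * Real.exp (l ^ 2 * ((n + 1 : ℕ) : ℝ) * D ^ 2 / 2) := by
          have h4 : Real.exp (l ^ 2 * ((n + 1 : ℕ) : ℝ) * D ^ 2 / 2) =
              Real.exp (l ^ 2 * D ^ 2 / 2) * Real.exp (l ^ 2 * n * D ^ 2 / 2) := by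
            rw [← Real.exp_add]
            congr 1
            push_cast
            ring
          rw [h4, pow_succ]
          ring

/-- Exponential moment of a function with bounded differences.
Proof: induction on `n` for functions on `Fin n → Fin q` (then transfer by an equivalence `V ≃ Fin n`), using
`Fin.consEquiv`/`Fin.cons`: for `f : (Fin (n+1) → Fin q) → ℝ` let `g b = q⁻ⁿ ∑ c, f (cons b c)` be the
average over the last `n` coordinates; `|g b - m| ≤ D` because `|g b - g b'| ≤ D` for all `b, b'`.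
By induction for each `b`: `∑ c, exp (-l (f (cons b c) - g b)) ≤ qⁿ exp (l² n D² / 2)`; multiply by
`exp (-l (g b - m))` and sum over `b` with `md_step`. -/
theorem md_moment {V : Type*} [Fintype V] [DecidableEq V] (q : ℕ) [NeZero q] (f : (V → Fin q) → ℝ)
    {D m l : ℝ} (hD : 0 < D) (hl : 0 ≤ l) (hf : ∀ c v b, |f (Function.update c v b) - f c| ≤ D)
    (hm : ∑ c, f c = m * (q : ℝ) ^ Fintype.card V) :
    ∑ c, Real.exp (-(l * (f c - m))) ≤
      (q : ℝ) ^ Fintype.card V * Real.exp (l ^ 2 * (Fintype.card V) * D ^ 2 / 2) := by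
  let e : V ≃ Fin (Fintype.card V) := Fintype.equivFin V
  let E : (Fin (Fintype.card V) → Fin q) ≃ (V → Fin q) := e.symm.arrowCongr (Equiv.refl _)
  have hE : ∀ c, E c = c ∘ e := fun c => rfl
  have h1 := md_fin q (Fintype.card V) (fun c => f (E c)) (D := D) (m := m) (l := l) hD hl (by
    intro c v b
    have h2 := hf (E c) (e.symm v) b
    have h3 : E (Function.update c v b) = Function.update (E c) (e.symm v) b := by
      rw [hE, hE, Function.update_comp_equiv]
    simp only [h3]
    convert h2) (by rw [E.sum_comp]; exact hm)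
  rw [E.sum_comp (fun c => Real.exp (-(l * (f c - m))))] at h1
  exact h1

/-- Bounded differences inequality (McDiarmid, with a non-optimal constant), lower tail, counting form.
Proof: Markov with `l = t / (n D²)`, `n = card V` (`n = 0` or `t = 0` are trivial: the right hand side is
`q ^ n`). -/
theorem bdd_diff {V : Type*} [Fintype V] [DecidableEq V] (q : ℕ) [NeZero q] (f : (V → Fin q) → ℝ)
    {D m t : ℝ} (hD : 0 < D) (ht : 0 ≤ t) (hf : ∀ c v b, |f (Function.update c v b) - f c| ≤ D)
    (hm : ∑ c, f c = m * (q : ℝ) ^ Fintype.card V) :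
    (((Finset.univ.filter fun c : V → Fin q => f c ≤ m - t).card : ℕ) : ℝ) ≤
      (q : ℝ) ^ Fintype.card V * Real.exp (-(t ^ 2 / (2 * (Fintype.card V) * D ^ 2))) := by
  rcases Nat.eq_zero_or_pos (Fintype.card V) with h0 | hpos
  · rw [h0]
    have h1 : ((Finset.univ.filter fun c : V → Fin q => f c ≤ m - t).card : ℝ) ≤
        ((Finset.univ : Finset (V → Fin q)).card : ℝ) := by
      exact_mod_cast Finset.card_filter_le _ _
    rw [Finset.card_univ, Fintype.card_fun, h0] at h1
    simpa using h1
  · have hN : (0 : ℝ) < (Fintype.card V : ℝ) := by exact_mod_cast hpos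
    set N : ℝ := (Fintype.card V : ℝ) with hNdef
    set l : ℝ := t / (N * D ^ 2) with hl
    have hl0 : 0 ≤ l := by positivity
    have h1 := md_moment q f hD hl0 hf hm
    have h2 : (((Finset.univ.filter fun c : V → Fin q => f c ≤ m - t).card : ℕ) : ℝ) *
        Real.exp (l * t) ≤ ∑ c, Real.exp (-(l * (f c - m))) := by
      calc (((Finset.univ.filter fun c : V → Fin q => f c ≤ m - t).card : ℕ) : ℝ) * Real.exp (l * t)
          = ∑ _c ∈ Finset.univ.filter fun c : V → Fin q => f c ≤ m - t, Real.exp (l * t) := by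
            rw [Finset.sum_const, nsmul_eq_mul]
        _ ≤ ∑ c ∈ Finset.univ.filter fun c : V → Fin q => f c ≤ m - t,
              Real.exp (-(l * (f c - m))) := by
            refine Finset.sum_le_sum fun c hc => Real.exp_le_exp.2 ?_
            have h3 := (Finset.mem_filter.1 hc).2
            nlinarith
        _ ≤ ∑ c, Real.exp (-(l * (f c - m))) :=
            Finset.sum_le_sum_of_subset_of_nonneg (Finset.filter_subset _ _)
              fun c _ _ => (Real.exp_pos _).le
    have h3 := h2.trans h1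
    rw [← le_div_iff₀ (Real.exp_pos _)] at h3
    refine h3.trans (le_of_eq ?_)
    rw [mul_div_assoc, ← Real.exp_sub]
    congr 2
    rw [hl]
    field_simp
    ring

end Pool.Agent.MP_b34510_co
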