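import Pool.Agent.MP_b34510_co.SQ.Defs

set_option autoImplicit false

open Finset Classical

namespace Pool.Agent.MP_b34510_co

/-- The residues outside the board. -/
theorem card_not_InB {p : ℕ} [Fact p.Prime] (M : ℕ) :
    (Finset.univ.filter fun u : ZMod p => ¬ InB M u).card ≤ 2 * M + 1 := by
  have hsub : ((Finset.univ.filter fun u : ZMod p => ¬ InB M u).image ZMod.val) ⊆
      Finset.range (M + 1) ∪ Finset.Ico (p - M) p := by
    intro k hk
    rw [Finset.mem_image] at hk
    obtain ⟨u, hu, rfl⟩ := hk
    rw [Finset.mem_filter] at hu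
    have h1 := hu.2
    unfold InB at h1
    have h2 := ZMod.val_lt u
    rw [Finset.mem_union, Finset.mem_range, Finset.mem_Ico]
    omega
  have h1 := (card_le_card hsub).trans (card_union_le _ _)
  rw [Finset.card_image_of_injective _ (ZMod.val_injective p), Finset.card_range,
    Nat.card_Ico] at h1
  omega

/-- `InB` is invariant under negation. -/
theorem InB_neg {p : ℕ} [Fact p.Prime] {M : ℕ} {u : ZMod p} : InB M (-u) ↔ InB M u := by
  unfold InB
  rw [ZMod.neg_val]
  have h2 := ZMod.val_lt u
  by_cases hu : u = 0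
  · rw [if_pos hu, hu, ZMod.val_zero]
  · rw [if_neg hu]
    omega

theorem PR_neg_val {p : ℕ} [Fact p.Prime] {u : ZMod p} (hu : u ≠ 0) : (-u).val = p - u.val := by
  rw [ZMod.neg_val, if_neg hu]

theorem PR_ne {p : ℕ} [Fact p.Prime] {M : ℕ} {u : ZMod p} (h : InB M u) : u ≠ 0 := by
  rintro rfl
  unfold InB at h
  rw [ZMod.val_zero] at h
  omega

theorem PR_disj {p : ℕ} [Fact p.Prime] (M : ℕ) (a : ZMod p) :
    Disjoint (TT M a) ((TT M a).image fun u => -u) := by
  rw [Finset.disjoint_left]
  intro u hu hu'
  rw [Finset.mem_image] at hu'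
  obtain ⟨w, hw, rfl⟩ := hu'
  unfold TT at hu hw
  rw [Finset.mem_filter] at hu hw
  have h1 := hu.2.2.2
  have h2 := hw.2.2.2
  rw [PR_neg_val (PR_ne hw.2.1)] at h1
  omega

theorem PR_two {p : ℕ} [Fact p.Prime] (M : ℕ) (a : ZMod p) :
    (TT M a ∪ (TT M a).image fun u => -u).card = 2 * (TT M a).card := by
  rw [Finset.card_union_of_disjoint (PR_disj M a),
    Finset.card_image_of_injective _ neg_injective]
  omega

/-- Proof: the non-zero `u` with `a u` outside the board are at most `2 M` in number, closed under negation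
(without fixed points, `p > 2`), and exactly one of `u, -u` has `2 * val < p`. -/
theorem card_TT {p : ℕ} [Fact p.Prime] (hp : 2 < p) (M : ℕ) {a : ZMod p} (ha : a ≠ 0) :
    (TT M a).card ≤ M := by
  have h0 := PR_two M a
  have hne : (0 : ZMod p) ∉ (TT M a ∪ (TT M a).image fun u => -u) := by
    intro h
    rw [Finset.mem_union, Finset.mem_image] at h
    rcases h with h | ⟨w, hw, hw0⟩
    · unfold TT at h
      rw [Finset.mem_filter] at h
      exact PR_ne h.2.1 rfl
    · unfold TT at hw
      rw [Finset.mem_filter] at hw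
      exact PR_ne hw.2.1 (neg_eq_zero.1 hw0)
  have h1 : (insert (0 : ZMod p) (TT M a ∪ (TT M a).image fun u => -u)).card ≤
      (Finset.univ.filter fun u : ZMod p => ¬ InB M u).card := by
    apply Finset.card_le_card_of_injOn (fun u => a * u)
    · intro u hu
      rw [Finset.mem_coe, Finset.mem_insert, Finset.mem_union, Finset.mem_image] at hu
      rw [Finset.mem_coe, Finset.mem_filter]
      refine ⟨Finset.mem_univ _, ?_⟩
      show ¬ InB M (a * u)
      rcases hu with rfl | h | ⟨w, hw, rfl⟩
      · rw [mul_zero]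
        exact fun h => PR_ne h rfl
      · unfold TT at h
        rw [Finset.mem_filter] at h
        exact h.2.2.1
      · unfold TT at hw
        rw [Finset.mem_filter] at hw
        rw [mul_neg, InB_neg]
        exact hw.2.2.1
    · intro u _ w _ huw
      exact mul_left_cancel₀ ha huw
  rw [Finset.card_insert_of_notMem hne, h0] at h1
  have h2 := card_not_InB (p := p) M
  omega

theorem PR_card {p : ℕ} [Fact p.Prime] (hp : 2 < p) (M : ℕ) (a : ZMod p) :
    (Finset.univ.filter fun u : ZMod p => InB M u ∧ ¬ InB M (a * u)).card =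
      2 * (TT M a).card := by
  rw [← PR_two M a]
  congr 1
  ext u
  rw [Finset.mem_filter, Finset.mem_union, Finset.mem_image]
  have hodd : p % 2 = 1 := by
    have hpp : p.Prime := Fact.out
    rcases hpp.eq_two_or_odd with h | h
    · omega
    · exact h
  constructor
  · rintro ⟨-, h1, h2⟩
    have hu := PR_ne h1
    by_cases h : 2 * u.val < p
    · left
      unfold TT
      rw [Finset.mem_filter]
      exact ⟨Finset.mem_univ _, h1, h2, h⟩
    · right
      refine ⟨-u, ?_, neg_neg u⟩
      unfold TT
      rw [Finset.mem_filter, PR_neg_val hu, InB_neg, mul_neg, InB_neg]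
      refine ⟨Finset.mem_univ _, h1, h2, ?_⟩
      have := ZMod.val_lt u
      omega
  · rintro (h | ⟨w, hw, rfl⟩)
    · unfold TT at h
      rw [Finset.mem_filter] at h
      exact ⟨Finset.mem_univ _, h.2.1, h.2.2.1⟩
    · unfold TT at hw
      rw [Finset.mem_filter] at hw
      rw [mul_neg, InB_neg, InB_neg]
      exact ⟨Finset.mem_univ _, hw.2.1, hw.2.2.1⟩

theorem PR_inv {p : ℕ} [Fact p.Prime] (M : ℕ) {a : ZMod p} (ha : a ≠ 0) :
    (Finset.univ.filter fun u : ZMod p => InB M u ∧ ¬ InB M (a * u)).card =
      (Finset.univ.filter fun u : ZMod p => InB M u ∧ ¬ InB M (a⁻¹ * u)).card := by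
  have h1 : (Finset.univ.filter fun u : ZMod p => InB M u ∧ InB M (a * u)).card =
      (Finset.univ.filter fun u : ZMod p => InB M u ∧ InB M (a⁻¹ * u)).card := by
    apply Finset.card_bij (fun u _ => a * u)
    · intro u hu
      rw [Finset.mem_filter] at hu ⊢
      refine ⟨Finset.mem_univ _, hu.2.2, ?_⟩
      rw [inv_mul_cancel_left₀ ha]
      exact hu.2.1
    · intro u _ w _ huw
      exact mul_left_cancel₀ ha huw
    · intro v hv
      rw [Finset.mem_filter] at hv
      refine ⟨a⁻¹ * v, ?_, mul_inv_cancel_left₀ ha v⟩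
      rw [Finset.mem_filter, mul_inv_cancel_left₀ ha]
      exact ⟨Finset.mem_univ _, hv.2.2, hv.2.1⟩
  have h2 : ∀ b : ZMod p, (Finset.univ.filter fun u : ZMod p => InB M u ∧ InB M (b * u)).card +
      (Finset.univ.filter fun u : ZMod p => InB M u ∧ ¬ InB M (b * u)).card =
      (Finset.univ.filter fun u : ZMod p => InB M u).card := by
    intro b
    have h3 := Finset.card_filter_add_card_filter_not
      (s := Finset.univ.filter fun u : ZMod p => InB M u) (fun u => InB M (b * u))
    rw [Finset.filter_filter, Finset.filter_filter] at h3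
    exact h3
  have h4 := h2 a
  have h5 := h2 a⁻¹
  omega

/-- Pairing of the rows and the columns to be filled.
Proof: multiplication by `a` is a bijection from the rows `u ∈ B` with `a u ∈ B` to the columns `v ∈ B` with
`a⁻¹ v ∈ B`; so the complements in `B` have the same size; both are closed under negation, so the halves
`TT M a` and `CC M a` have the same size; take a bijection (`Finset.equivOfCardEq`) and extend it by `0`. -/
theorem exists_pairing {p : ℕ} [Fact p.Prime] (hp : 2 < p) (M : ℕ) {a : ZMod p} (ha : a ≠ 0) :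
    ∃ Y : ZMod p → ZMod p, (∀ x ∈ TT M a, Y x ∈ CC M a) ∧
      (∀ x ∈ TT M a, ∀ x' ∈ TT M a, Y x = Y x' → x = x') ∧ ∀ v ∈ CC M a, ∃ x ∈ TT M a, Y x = v := by
  have hcard : (TT M a).card = (CC M a).card := by
    have h1 := PR_card hp M a
    have h2 := PR_card hp M a⁻¹
    have h3 := PR_inv M ha
    have h4 : CC M a = TT M a⁻¹ := rfl
    rw [h4]
    omega
  let e := Finset.equivOfCardEq hcard
  refine ⟨fun x => if h : x ∈ TT M a then (e ⟨x, h⟩).1 else 0, ?_, ?_, ?_⟩
  · intro x hx
    simp only [dif_pos hx]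
    exact (e ⟨x, hx⟩).2
  · intro x hx x' hx' h
    simp only [dif_pos hx, dif_pos hx'] at h
    have h1 := e.injective (Subtype.ext h)
    exact congrArg Subtype.val h1
  · intro v hv
    refine ⟨(e.symm ⟨v, hv⟩).1, (e.symm ⟨v, hv⟩).2, ?_⟩
    simp only [dif_pos (e.symm ⟨v, hv⟩).2]
    rw [Subtype.coe_eta, Equiv.apply_symm_apply]

end Pool.Agent.MP_b34510_co
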