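import Pool.Agent.MP_b34510_co.SQ.Defs

set_option autoImplicit false

open Finset

namespace Pool.Agent.MP_b34510_co

/-- Transfer from p-coordinates to the `n × n` board, `n = p - 1 - 2M`.
Proof: if `k = 0` trivial.  Otherwise `(hF i).card` gives `2 M + 1 ≤ p`.  Map the square `s = (u, v)` to
`φ s = ((u.val : ℤ) - M, (v.val : ℤ) - M)`; `φ` is injective (`ZMod.val_injective`), take `(F i).image φ`.
`InB M u` gives `1 ≤ u.val - M ≤ n`; rows, columns, `idiff`, `isum` distinct give the separation; for the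
half-turn: `InB M u` implies `u ≠ 0`, `(-u).val = p - u.val` (`ZMod.val_neg_of_ne_zero` or `ZMod.neg_val`),
so `n + 1 - (u.val - M) = (-u).val - M` and `-s ∈ F i`.  Images of disjoint sets under an injective map
are disjoint. -/
theorem packs_of_goodpats {p : ℕ} [Fact p.Prime] (hp : 2 < p) (M k : ℕ)
    (F : Fin k → Finset (ZMod p × ZMod p)) (hF : ∀ i, GoodPat M (F i))
    (hd : ∀ i j, i ≠ j → Disjoint (F i) (F j)) : Packs (p - 1 - 2 * M) k := by
  classical
  have hp0 : NeZero p := ⟨(Fact.out : p.Prime).ne_zero⟩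
  let φ : ZMod p × ZMod p → ℤ × ℤ := fun s => ((s.1.val : ℤ) - M, (s.2.val : ℤ) - M)
  have hφ : Function.Injective φ := by
    intro s t hst
    have h1 : (s.1.val : ℤ) - M = (t.1.val : ℤ) - M := congrArg Prod.fst hst
    have h2 : (s.2.val : ℤ) - M = (t.2.val : ℤ) - M := congrArg Prod.snd hst
    exact Prod.ext (ZMod.val_injective p (by omega)) (ZMod.val_injective p (by omega))
  refine ⟨fun i => (F i).image φ, fun i => ⟨⟨?_, ?_, ?_⟩, ?_⟩, ?_⟩
  · have h := (hF i).card
    rw [Finset.card_image_of_injective _ hφ]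
    omega
  · intro s hs
    obtain ⟨u, hu, rfl⟩ := Finset.mem_image.1 hs
    obtain ⟨⟨a1, a2⟩, b1, b2⟩ := (hF i).board u hu
    have hc := (hF i).card
    refine ⟨?_, ?_, ?_, ?_⟩
    · show (1 : ℤ) ≤ (u.1.val : ℤ) - M
      omega
    · show (u.1.val : ℤ) - M ≤ ((p - 1 - 2 * M : ℕ) : ℤ)
      omega
    · show (1 : ℤ) ≤ (u.2.val : ℤ) - M
      omega
    · show (u.2.val : ℤ) - M ≤ ((p - 1 - 2 * M : ℕ) : ℤ)
      omega
  · intro s hs t ht hst
    obtain ⟨u, hu, rfl⟩ := Finset.mem_image.1 hs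
    obtain ⟨v, hv, rfl⟩ := Finset.mem_image.1 ht
    have hne : u ≠ v := by
      rintro rfl
      exact hst rfl
    obtain ⟨h1, h2, h3, h4⟩ := (hF i).sep u hu v hv hne
    unfold idiff at h3
    unfold isum at h4
    have h1' : u.1.val ≠ v.1.val := fun h => h1 (ZMod.val_injective p h)
    have h2' : u.2.val ≠ v.2.val := fun h => h2 (ZMod.val_injective p h)
    refine ⟨?_, ?_, ?_, ?_⟩
    · show (u.1.val : ℤ) - M ≠ (v.1.val : ℤ) - M
      omega
    · show (u.2.val : ℤ) - M ≠ (v.2.val : ℤ) - M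
      omega
    · show ((u.1.val : ℤ) - M) - ((u.2.val : ℤ) - M) ≠ ((v.1.val : ℤ) - M) - ((v.2.val : ℤ) - M)
      omega
    · show ((u.1.val : ℤ) - M) + ((u.2.val : ℤ) - M) ≠ ((v.1.val : ℤ) - M) + ((v.2.val : ℤ) - M)
      omega
  · intro s hs
    obtain ⟨u, hu, rfl⟩ := Finset.mem_image.1 hs
    obtain ⟨⟨a1, a2⟩, b1, b2⟩ := (hF i).board u hu
    have hc := (hF i).card
    refine Finset.mem_image.2 ⟨-u, (hF i).symm u hu, ?_⟩
    have n1 : u.1 ≠ 0 := by
      intro h
      rw [h, ZMod.val_zero] at a1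
      omega
    have n2 : u.2 ≠ 0 := by
      intro h
      rw [h, ZMod.val_zero] at b1
      omega
    have v1 : (-u.1).val = p - u.1.val := by
      rw [ZMod.neg_val, if_neg n1]
    have v2 : (-u.2).val = p - u.2.val := by
      rw [ZMod.neg_val, if_neg n2]
    refine Prod.ext ?_ ?_
    · show ((-u.1).val : ℤ) - M = ((p - 1 - 2 * M : ℕ) : ℤ) + 1 - ((u.1.val : ℤ) - M)
      omega
    · show ((-u.2).val : ℤ) - M = ((p - 1 - 2 * M : ℕ) : ℤ) + 1 - ((u.2.val : ℤ) - M)
      omega
  · intro i j hij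
    exact (Finset.disjoint_image hφ).2 (hd i j hij)

/-- Every packing has at most `n` patterns. -/
theorem packs_le_T1 {n k : ℕ} (hn : 0 < n) (h : Packs n k) : k ≤ n := by
  classical
  obtain ⟨F, hF, hd⟩ := h
  have key : ∀ i, ∃ s ∈ F i, s.1 = 1 := by
    intro i
    obtain ⟨⟨hc, hb, hs⟩, -⟩ := hF i
    have hinj : Set.InjOn (fun s : ℤ × ℤ => s.1) (F i : Set (ℤ × ℤ)) := by
      intro s hs1 t ht1 hst
      by_contra hne
      exact (hs s hs1 t ht1 hne).1 hst
    have hcard : ((F i).image (fun s : ℤ × ℤ => s.1)).card = n := by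
      rw [Finset.card_image_of_injOn hinj, hc]
    have hsub : (F i).image (fun s : ℤ × ℤ => s.1) ⊆ Finset.Icc (1 : ℤ) n := by
      intro x hx
      obtain ⟨s, hs1, rfl⟩ := Finset.mem_image.1 hx
      exact Finset.mem_Icc.2 ⟨(hb s hs1).1, (hb s hs1).2.1⟩
    have heq : (F i).image (fun s : ℤ × ℤ => s.1) = Finset.Icc (1 : ℤ) n := by
      apply Finset.eq_of_subset_of_card_le hsub
      rw [hcard, Int.card_Icc]
      omega
    have h1 : (1 : ℤ) ∈ (F i).image (fun s : ℤ × ℤ => s.1) := by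
      rw [heq]
      exact Finset.mem_Icc.2 ⟨le_refl _, by omega⟩
    obtain ⟨s, hs1, hs2⟩ := Finset.mem_image.1 h1
    exact ⟨s, hs1, hs2⟩
  choose g hg hg1 using key
  have hmaps : ∀ i ∈ (Finset.univ : Finset (Fin k)), (g i).2 ∈ Finset.Icc (1 : ℤ) n := by
    intro i _
    obtain ⟨⟨hc, hb, hs⟩, -⟩ := hF i
    exact Finset.mem_Icc.2 ⟨(hb _ (hg i)).2.2.1, (hb _ (hg i)).2.2.2⟩
  have hinj : Set.InjOn (fun i => (g i).2) ((Finset.univ : Finset (Fin k)) : Set (Fin k)) := by
    intro i _ j _ hij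
    by_contra hne
    have he : g i = g j := Prod.ext (by rw [hg1, hg1]) hij
    have h2 := hg j
    rw [← he] at h2
    exact (Finset.disjoint_left.1 (hd i j hne)) (hg i) h2
  have := Finset.card_le_card_of_injOn (fun i => (g i).2) hmaps hinj
  rw [Finset.card_univ, Fintype.card_fin, Int.card_Icc] at this
  omega

/-- `SQ n` is at least the size of every packing.
Proof: `k ≤ n` whenever `Packs n k`: a pattern has `n` squares with distinct rows in `[1, n]`, so (with
`n > 0`) it has a square in row `1`; its column is in `[1, n]`, and for disjoint patterns these columns are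
distinct (two patterns with the same column in row `1` share a square).  Hence `{k | Packs n k}` is bounded
above and `le_csSup` applies. -/
theorem le_SQ {n k : ℕ} (hn : 0 < n) (h : Packs n k) : k ≤ SQ n := by
  unfold SQ
  exact le_csSup ⟨n, fun m hm => packs_le_T1 hn hm⟩ h

end Pool.Agent.MP_b34510_co
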